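import Mathlib

set_option autoImplicit false

/-! Removable quotients, Blaschke products and logarithms on discs. -/

open Complex Metric Set Filter Topology

namespace Pool.Agent.MPccab6c

/-- A bounded quotient of holomorphic functions is holomorphic. -/
theorem quot_exists {f g : ℂ → ℂ} {U : Set ℂ} (hU : IsOpen U)
    (hf : DifferentiableOn ℂ f U) (hg : DifferentiableOn ℂ g U)
    (hfg : ∀ z ∈ U, ‖f z‖ ≤ ‖g z‖) (h0 : ∀ z ∈ U, ∀ᶠ x in 𝓝[≠] z, g x ≠ 0) :
    ∃ w : ℂ → ℂ, DifferentiableOn ℂ w U ∧ (∀ z ∈ U, ‖w z‖ ≤ 1) ∧ ∀ z ∈ U, f z = w z * g z := by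
  set q : ℂ → ℂ := fun z => f z / g z with hq
  set w : ℂ → ℂ := fun z => limUnder (𝓝[≠] z) q with hw
  have hloc : ∀ z ∈ U, ∃ V ∈ 𝓝 z, V ⊆ U ∧ IsOpen V ∧ ∀ x ∈ V, x ≠ z → g x ≠ 0 := by
    intro z hz
    have h1 := h0 z hz
    rw [eventually_nhdsWithin_iff] at h1
    obtain ⟨V, hV, hVo, hzV⟩ := _root_.eventually_nhds_iff.mp h1
    refine ⟨V ∩ U, (hVo.inter hU).mem_nhds ⟨hzV, hz⟩, inter_subset_right, hVo.inter hU, ?_⟩
    intro x hx hxz
    exact hV x hx.1 hxz
  have hq1 : ∀ z ∈ U, ‖q z‖ ≤ 1 := by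
    intro z hz
    rw [hq]; simp only
    rw [norm_div]
    exact div_le_one_of_le₀ (hfg z hz) (norm_nonneg _)
  have hcont : ∀ x ∈ U, g x ≠ 0 → w x = q x := by
    intro x hx hgx
    have h1 : ContinuousAt q x :=
      (hf.differentiableAt (hU.mem_nhds hx)).continuousAt.div
        (hg.differentiableAt (hU.mem_nhds hx)).continuousAt hgx
    exact (h1.tendsto.mono_left nhdsWithin_le_nhds).limUnder_eq
  have hdiff : ∀ z ∈ U, DifferentiableAt ℂ w z := by
    intro z hz
    obtain ⟨V, hV, hVU, hVo, hgV⟩ := hloc z hz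
    have h1 : DifferentiableOn ℂ q (V \ {z}) := by
      refine (hf.mono (sdiff_subset.trans hVU)).div (hg.mono (sdiff_subset.trans hVU)) ?_
      intro x hx
      exact hgV x hx.1 hx.2
    have h2 : BddAbove (norm ∘ q '' (V \ {z})) := by
      refine ⟨1, ?_⟩
      rintro _ ⟨x, hx, rfl⟩
      exact hq1 x (hVU hx.1)
    have h3 := Complex.differentiableOn_update_limUnder_of_bddAbove hV h1 h2
    have h4 : DifferentiableAt ℂ (Function.update q z (limUnder (𝓝[≠] z) q)) z :=
      h3.differentiableAt hV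
    refine h4.congr_of_eventuallyEq ?_
    filter_upwards [hV] with x hx
    by_cases hxz : x = z
    · subst hxz
      simp [hw]
    · rw [Function.update_of_ne hxz]
      exact hcont x (hVU hx) (hgV x hx hxz)
  have hne : ∀ z ∈ U, ∀ᶠ x in 𝓝[≠] z, x ∈ U ∧ g x ≠ 0 := by
    intro z hz
    have h1 : ∀ᶠ x in 𝓝[≠] z, x ∈ U := nhdsWithin_le_nhds (hU.mem_nhds hz)
    exact h1.and (h0 z hz)
  refine ⟨w, fun z hz => (hdiff z hz).differentiableWithinAt, ?_, ?_⟩
  · intro z hz
    have h1 : Tendsto (fun x => ‖w x‖) (𝓝[≠] z) (𝓝 ‖w z‖) :=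
      ((hdiff z hz).continuousAt.norm.tendsto).mono_left nhdsWithin_le_nhds
    refine le_of_tendsto h1 ?_
    filter_upwards [hne z hz] with x hx
    rw [hcont x hx.1 hx.2]
    exact hq1 x hx.1
  · intro z hz
    have h1 : Tendsto (fun x => w x * g x) (𝓝[≠] z) (𝓝 (w z * g z)) :=
      (((hdiff z hz).continuousAt.mul
        (hg.differentiableAt (hU.mem_nhds hz)).continuousAt).tendsto).mono_left nhdsWithin_le_nhds
    have h2 : Tendsto f (𝓝[≠] z) (𝓝 (f z)) :=
      (hf.differentiableAt (hU.mem_nhds hz)).continuousAt.tendsto.mono_left nhdsWithin_le_nhds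
    have h3 : f =ᶠ[𝓝[≠] z] fun x => w x * g x := by
      filter_upwards [hne z hz] with x hx
      rw [hcont x hx.1 hx.2, hq]
      simp only
      rw [div_mul_cancel₀ _ hx.2]
    exact tendsto_nhds_unique (h2.congr' h3) h1

/-- Zeros on a compact set are finite in number. -/
theorem zeros_finite {g : ℂ → ℂ} {K : Set ℂ} (hK : IsCompact K)
    (h0 : ∀ z ∈ K, ∀ᶠ x in 𝓝[≠] z, g x ≠ 0) : {z | z ∈ K ∧ g z = 0}.Finite := by
  have key : ({z | z ∈ K ∧ g z = 0} : Set ℂ).Finite := by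
    refine hK.induction_on (p := fun S => ({z | z ∈ S ∧ g z = 0} : Set ℂ).Finite) ?_ ?_ ?_ ?_
    · simp
    · intro s t hst ht
      exact ht.subset fun z hz => ⟨hst hz.1, hz.2⟩
    · intro s t hs ht
      refine (hs.union ht).subset ?_
      rintro z ⟨hz | hz, hz2⟩
      · exact Or.inl ⟨hz, hz2⟩
      · exact Or.inr ⟨hz, hz2⟩
    · intro x hx
      have h1 := h0 x hx
      rw [eventually_nhdsWithin_iff] at h1
      refine ⟨{z | z ≠ x → g z ≠ 0}, nhdsWithin_le_nhds h1, ?_⟩
      refine (finite_singleton x).subset ?_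
      intro z hz
      by_contra hne
      exact hz.1 hne hz.2
  exact key

/-- Division by the full power of a zero. -/
theorem divide_zero {g : ℂ → ℂ} {U : Set ℂ} (hU : IsOpen U) (hg : DifferentiableOn ℂ g U)
    {a : ℂ} (ha : a ∈ U) (h0 : ∀ᶠ x in 𝓝[≠] a, g x ≠ 0) :
    ∃ (n : ℕ) (G : ℂ → ℂ), DifferentiableOn ℂ G U ∧ G a ≠ 0 ∧
      (∀ z, z ≠ a → g z = (z - a) ^ n * G z) ∧ (∀ z ∈ U, g z = (z - a) ^ n * G z) := by
  have han : AnalyticAt ℂ g a := hg.analyticAt (hU.mem_nhds ha)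
  have hnot : ¬ ∀ᶠ z in 𝓝 a, g z = 0 := by
    intro h
    have h1 : ∀ᶠ z in 𝓝[≠] a, g z = 0 := nhdsWithin_le_nhds h
    obtain ⟨x, hx1, hx2⟩ := (h1.and h0).exists
    exact hx2 hx1
  obtain ⟨n, g', hg', hg'0, hgg'⟩ := (han.exists_eventuallyEq_pow_smul_nonzero_iff).mpr hnot
  set G : ℂ → ℂ := Function.update (fun z => g z / (z - a) ^ n) a (g' a) with hG
  have hGa : G a = g' a := by simp [hG]
  have hGz : ∀ z, z ≠ a → G z = g z / (z - a) ^ n := by
    intro z hz
    simp [hG, Function.update_of_ne hz]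
  have hGeq : G =ᶠ[𝓝 a] g' := by
    filter_upwards [hgg'] with z hz
    by_cases hza : z = a
    · rw [hza, hGa]
    · rw [hGz z hza, hz, smul_eq_mul, mul_comm, mul_div_assoc,
        div_self (pow_ne_zero _ (sub_ne_zero.mpr hza)), mul_one]
  have h1 : ∀ z, z ≠ a → g z = (z - a) ^ n * G z := by
    intro z hz
    rw [hGz z hz, mul_div_cancel₀ _ (pow_ne_zero _ (sub_ne_zero.mpr hz))]
  refine ⟨n, G, ?_, by rw [hGa]; exact hg'0, h1, ?_⟩
  · intro z hz
    refine DifferentiableAt.differentiableWithinAt ?_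
    by_cases hza : z = a
    · rw [hza]
      exact hg'.differentiableAt.congr_of_eventuallyEq hGeq
    · have h2 : DifferentiableAt ℂ (fun z => g z / (z - a) ^ n) z := by
        refine (hg.differentiableAt (hU.mem_nhds hz)).div (by fun_prop) ?_
        exact pow_ne_zero _ (sub_ne_zero.mpr hza)
      refine h2.congr_of_eventuallyEq ?_
      filter_upwards [isOpen_ne.mem_nhds hza] with x hx
      exact hGz x hx
  · intro z hz
    by_cases hza : z = a
    · rw [hza]
      have h3 := hgg'.self_of_nhds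
      rw [h3, hGa, smul_eq_mul]
    · exact h1 z hza

/-- Division preserves local nonvanishing. -/
theorem blaschke_decomp {r r' : ℝ} (hr : 0 < r) (hrr' : r < r') (N : ℕ) :
    ∀ g : ℂ → ℂ, DifferentiableOn ℂ g (ball 0 r') →
      (∀ z ∈ ball (0:ℂ) r', ∀ᶠ x in 𝓝[≠] z, g x ≠ 0) →
      {z : ℂ | z ∈ closedBall (0:ℂ) r ∧ g z = 0}.ncard ≤ N →
      (∀ z : ℂ, ‖z‖ = r → g z ≠ 0) →
      ∃ O k : ℂ → ℂ, DifferentiableOn ℂ O (ball 0 r') ∧
        DiffContOnCl ℂ k (ball 0 r) ∧ (∀ z : ℂ, ‖z‖ ≤ r → O z ≠ 0) ∧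
        (∀ z : ℂ, ‖z‖ ≤ r → g z = O z * k z) ∧ (∀ z : ℂ, ‖z‖ = r → ‖k z‖ = 1) := by
  induction N with
  | zero =>
    intro g hg h0 hcard hs
    have hfin := zeros_finite (isCompact_closedBall (0:ℂ) r)
      (fun z hz => h0 z (closedBall_subset_ball hrr' hz))
    have hemp : {z : ℂ | z ∈ closedBall (0:ℂ) r ∧ g z = 0} = ∅ := by
      rw [← Set.ncard_eq_zero hfin]; omega
    refine ⟨g, fun _ => 1, hg, diffContOnCl_const, ?_, by simp, by simp⟩
    intro z hz hgz
    have : z ∈ {z : ℂ | z ∈ closedBall (0:ℂ) r ∧ g z = 0} := ⟨by simpa using hz, hgz⟩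
    rw [hemp] at this
    exact this
  | succ N ih =>
    intro g hg h0 hcard hs
    have hfin := zeros_finite (isCompact_closedBall (0:ℂ) r)
      (fun z hz => h0 z (closedBall_subset_ball hrr' hz))
    by_cases hemp : {z : ℂ | z ∈ closedBall (0:ℂ) r ∧ g z = 0} = ∅
    · exact ih g hg h0 (by rw [hemp]; simp) hs
    · obtain ⟨a, ha1, ha2⟩ := Set.nonempty_iff_ne_empty.mpr hemp
      have ha1' : ‖a‖ ≤ r := by simpa using ha1
      have har : ‖a‖ < r := lt_of_le_of_ne ha1' (fun h => hs a h ha2)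
      have haU : a ∈ ball (0:ℂ) r' := closedBall_subset_ball hrr' ha1
      obtain ⟨n, G, hG, hGa, hgG, hgG'⟩ := divide_zero isOpen_ball hg haU (h0 a haU)
      have hGne : ∀ z ∈ ball (0:ℂ) r', ∀ᶠ x in 𝓝[≠] z, G x ≠ 0 := by
        intro z hz
        have h1 : ∀ᶠ x in 𝓝[≠] z, x ∈ ball (0:ℂ) r' := nhdsWithin_le_nhds (isOpen_ball.mem_nhds hz)
        filter_upwards [h0 z hz, h1] with x hx hxU hGx
        apply hx
        rw [hgG' x hxU, hGx, mul_zero]
      have hGcard : {z : ℂ | z ∈ closedBall (0:ℂ) r ∧ G z = 0}.ncard ≤ N := by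
        have hsub : {z : ℂ | z ∈ closedBall (0:ℂ) r ∧ G z = 0} ⊂
            {z : ℂ | z ∈ closedBall (0:ℂ) r ∧ g z = 0} := by
          refine ⟨?_, ?_⟩
          · rintro z ⟨hz1, hz2⟩
            exact ⟨hz1, by rw [hgG' z (closedBall_subset_ball hrr' hz1), hz2, mul_zero]⟩
          · intro h
            exact hGa (h ⟨ha1, ha2⟩).2
        have := Set.ncard_lt_ncard hsub hfin
        omega
      have hGs : ∀ z : ℂ, ‖z‖ = r → G z ≠ 0 := by
        intro z hz hGz
        apply hs z hz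
        rw [hgG' z (closedBall_subset_ball hrr' (by simp [hz])), hGz, mul_zero]
      obtain ⟨O, k, hO, hk, hO0, hGOk, hk1⟩ := ih G hG hGne hGcard hGs
      have hden : ∀ z : ℂ, ‖z‖ ≤ r → (r:ℂ) ^ 2 - (starRingEnd ℂ) a * z ≠ 0 := by
        intro z hz h
        have h1 : (r:ℂ) ^ 2 = (starRingEnd ℂ) a * z := sub_eq_zero.mp h
        have h2 : ‖(r:ℂ) ^ 2‖ = ‖(starRingEnd ℂ) a * z‖ := by rw [h1]
        rw [norm_pow, Complex.norm_real, Real.norm_eq_abs, abs_of_pos hr, norm_mul,
          Complex.norm_conj] at h2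
        have h3 : ‖a‖ * ‖z‖ < r ^ 2 := by
          nlinarith [norm_nonneg a, norm_nonneg z]
        linarith
      have hrC : (r:ℂ) ≠ 0 := by exact_mod_cast hr.ne'
      refine ⟨fun z => O z * (((r:ℂ) ^ 2 - (starRingEnd ℂ) a * z) / r) ^ n,
        fun z => k z * ((r:ℂ) * (z - a) / ((r:ℂ) ^ 2 - (starRingEnd ℂ) a * z)) ^ n, ?_, ?_, ?_, ?_, ?_⟩
      · exact hO.mul (by fun_prop)
      · have hB : DiffContOnCl ℂ (fun z : ℂ => ((r:ℂ) * (z - a) /
            ((r:ℂ) ^ 2 - (starRingEnd ℂ) a * z)) ^ n) (ball 0 r) := by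
          have hcl : closure (ball (0:ℂ) r) = closedBall 0 r := closure_ball 0 hr.ne'
          refine ⟨?_, ?_⟩
          · refine DifferentiableOn.pow (DifferentiableOn.div (by fun_prop) (by fun_prop) ?_) n
            intro z hz
            exact hden z (by simpa using (ball_subset_closedBall hz))
          · rw [hcl]
            refine ContinuousOn.pow (ContinuousOn.div (by fun_prop) (by fun_prop) ?_) n
            intro z hz
            exact hden z (by simpa using hz)
        exact hk.smul hB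
      · intro z hz
        refine mul_ne_zero (hO0 z hz) (pow_ne_zero _ (div_ne_zero (hden z hz) hrC))
      · intro z hz
        have hzU : z ∈ ball (0:ℂ) r' := by
          simp only [mem_ball, dist_zero_right]; linarith
        rw [hgG' z hzU, hGOk z hz]
        have h1 : (z - a) = ((r:ℂ) ^ 2 - (starRingEnd ℂ) a * z) / r *
            ((r:ℂ) * (z - a) / ((r:ℂ) ^ 2 - (starRingEnd ℂ) a * z)) := by
          have haux : ∀ A s x : ℂ, A ≠ 0 → s ≠ 0 → x = A / s * (s * x / A) := by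
            intro A s x hA hs
            field_simp
          exact haux _ _ _ (hden z hz) hrC
        nth_rewrite 1 [h1]
        rw [mul_pow]; ring
      · intro z hz
        simp only
        rw [norm_mul, hk1 z hz, one_mul, norm_pow]
        have h1 : ‖(r:ℂ) * (z - a) / ((r:ℂ) ^ 2 - (starRingEnd ℂ) a * z)‖ = 1 := by
          have h2 : ((r:ℂ) ^ 2 - (starRingEnd ℂ) a * z) = (starRingEnd ℂ) (z - a) * z := by
            rw [map_sub, sub_mul, ← Complex.normSq_eq_conj_mul_self, Complex.normSq_eq_norm_sq, hz]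
            push_cast; ring
          rw [h2, norm_div, norm_mul, norm_mul, Complex.norm_conj, hz, Complex.norm_real,
            Real.norm_eq_abs, abs_of_pos hr]
          have h3 : z - a ≠ 0 := by
            intro h
            have : z = a := sub_eq_zero.mp h
            rw [this] at hz; linarith
          have h4 : ‖z - a‖ ≠ 0 := norm_ne_zero_iff.mpr h3
          field_simp
        rw [h1, one_pow]

/-- A zero free holomorphic function on a disc has a logarithm. -/
theorem log_exists {O : ℂ → ℂ} {r : ℝ} (hr : 0 < r) (hO : DifferentiableOn ℂ O (ball 0 r))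
    (h0 : ∀ z ∈ ball (0:ℂ) r, O z ≠ 0) :
    ∃ L : ℂ → ℂ, DifferentiableOn ℂ L (ball 0 r) ∧ ∀ z ∈ ball (0:ℂ) r, Complex.exp (L z) = O z := by
  have hd : DifferentiableOn ℂ (deriv O) (ball 0 r) := hO.deriv isOpen_ball
  have hq : DifferentiableOn ℂ (fun z => deriv O z / O z) (ball 0 r) := hd.div hO h0
  obtain ⟨L₀, hL₀⟩ := hq.isExactOn_ball
  have hmem : (0:ℂ) ∈ ball (0:ℂ) r := mem_ball_self hr
  set F : ℂ → ℂ := fun z => O z * Complex.exp (-L₀ z) with hF
  have hFd : ∀ z ∈ ball (0:ℂ) r, HasDerivAt F 0 z := by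
    intro z hz
    have h1 : HasDerivAt O (deriv O z) z := (hO.differentiableAt (isOpen_ball.mem_nhds hz)).hasDerivAt
    have h2 : HasDerivAt (fun z => Complex.exp (-L₀ z)) (Complex.exp (-L₀ z) * (-(deriv O z / O z))) z :=
      (hL₀ z hz).neg.cexp
    have h3 := h1.mul h2
    have h4 : deriv O z * Complex.exp (-L₀ z) + O z * (Complex.exp (-L₀ z) * (-(deriv O z / O z))) = 0 := by
      have := h0 z hz
      field_simp
      ring
    rw [h4] at h3
    exact h3
  have hconst : ∀ z ∈ ball (0:ℂ) r, F z = F 0 := by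
    intro z hz
    refine isOpen_ball.is_const_of_deriv_eq_zero (convex_ball (0:ℂ) r).isPreconnected
      (f := F) (fun x hx => (hFd x hx).differentiableAt.differentiableWithinAt) ?_ hz hmem
    intro x hx
    exact (hFd x hx).deriv
  have hF0 : F 0 ≠ 0 := mul_ne_zero (h0 0 hmem) (Complex.exp_ne_zero _)
  refine ⟨fun z => L₀ z + Complex.log (F 0), ?_, ?_⟩
  · intro z hz
    exact ((hL₀ z hz).differentiableAt.add_const _).differentiableWithinAt
  · intro z hz
    rw [Complex.exp_add, Complex.exp_log hF0, ← hconst z hz, hF]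
    simp only
    rw [mul_comm, mul_assoc, ← Complex.exp_add]
    simp

end Pool.Agent.MPccab6c
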