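import Mathlib

set_option autoImplicit false

/-! Iterated divided slopes of a holomorphic function at a point. -/

open Complex Metric Set Filter Topology

namespace Pool.Agent.MPccab6c

/-- The iterated slope. -/
noncomputable def dsl (H : ℂ → ℂ) (a : ℂ) : ℕ → ℂ → ℂ
  | 0 => H
  | n + 1 => dslope (dsl H a n) a

theorem dsl_diff {H : ℂ → ℂ} {U : Set ℂ} (hU : IsOpen U) (hH : DifferentiableOn ℂ H U) {a : ℂ}
    (ha : a ∈ U) (n : ℕ) : DifferentiableOn ℂ (dsl H a n) U := by
  induction n with
  | zero => exact hH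
  | succ n ih => exact (Complex.differentiableOn_dslope (hU.mem_nhds ha)).mpr ih

theorem dsl_step (H : ℂ → ℂ) (a : ℂ) (n : ℕ) (y : ℂ) :
    dsl H a n y = dsl H a n a + (y - a) * dsl H a (n + 1) y := by
  have h := sub_smul_dslope (dsl H a n) a y
  rw [smul_eq_mul] at h
  show _ = _ + (y - a) * dslope (dsl H a n) a y
  rw [h]; ring

theorem dsl_sum (H : ℂ → ℂ) (a : ℂ) (n : ℕ) (y : ℂ) :
    H y = ∑ j ∈ Finset.range n, dsl H a j a * (y - a) ^ j + (y - a) ^ n * dsl H a n y := by
  induction n with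
  | zero => simp [dsl]
  | succ n ih =>
    rw [Finset.sum_range_succ, pow_succ]
    nth_rewrite 1 [ih]
    rw [dsl_step H a n y]
    ring

theorem dsl_bound {H : ℂ → ℂ} {U : Set ℂ} (hU : IsOpen U) (hH : DifferentiableOn ℂ H U) {a : ℂ}
    {R M : ℝ} (hR : 0 < R) (hsub : closedBall a R ⊆ U) (hM : ∀ y ∈ closedBall a R, ‖H y‖ ≤ M)
    (n : ℕ) : ∀ y ∈ closedBall a R, ‖dsl H a n y‖ ≤ (2 / R) ^ n * M := by
  have haU : a ∈ U := hsub (mem_closedBall_self hR.le)
  induction n with
  | zero => simpa [dsl] using hM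
  | succ n ih =>
    have hd := dsl_diff hU hH haU (n + 1)
    have hcl : closure (ball a R) = closedBall a R := closure_ball a hR.ne'
    have hfr : frontier (ball a R) = sphere a R := frontier_ball a hR.ne'
    have hdc : DiffContOnCl ℂ (dsl H a (n + 1)) (ball a R) := hd.diffContOnCl_ball hsub
    intro y hy
    refine Complex.norm_le_of_forall_mem_frontier_norm_le isBounded_ball hdc ?_ (by rw [hcl]; exact hy)
    intro x hx
    rw [hfr] at hx
    have hxR : ‖x - a‖ = R := by simpa [dist_eq_norm] using hx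
    have hxc : x ∈ closedBall a R := sphere_subset_closedBall hx
    have h1 := ih x hxc
    have h2 := ih a (mem_closedBall_self hR.le)
    have h3 := dsl_step H a n x
    have h4 : (x - a) * dsl H a (n + 1) x = dsl H a n x - dsl H a n a := by
      rw [h3]; ring
    have h5 : R * ‖dsl H a (n + 1) x‖ ≤ 2 * ((2 / R) ^ n * M) := by
      have h7 : R * ‖dsl H a (n + 1) x‖ = ‖dsl H a n x - dsl H a n a‖ := by
        rw [← h4, norm_mul, hxR]
      rw [h7]
      have := norm_sub_le (dsl H a n x) (dsl H a n a)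
      linarith
    rw [pow_succ]
    have h6 : ‖dsl H a (n + 1) x‖ ≤ 2 * ((2 / R) ^ n * M) / R := by
      rw [le_div_iff₀ hR]; linarith
    refine h6.trans (le_of_eq ?_)
    ring

/-- A geometric sum. -/
theorem geom_le {a b : ℝ} (hb : 0 ≤ b) (hab : 2 * b ≤ a) (n : ℕ) :
    ∑ j ∈ Finset.range n, a ^ j * b ^ (n - j) ≤ a ^ n := by
  have ha : 0 ≤ a := by linarith
  induction n with
  | zero => simp
  | succ n ih =>
    rw [Finset.sum_range_succ]
    have h1 : ∑ j ∈ Finset.range n, a ^ j * b ^ (n + 1 - j) =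
        b * ∑ j ∈ Finset.range n, a ^ j * b ^ (n - j) := by
      rw [Finset.mul_sum]
      refine Finset.sum_congr rfl ?_
      intro j hj
      have hjn : j < n := Finset.mem_range.mp hj
      have : n + 1 - j = (n - j) + 1 := by omega
      rw [this, pow_succ]; ring
    rw [h1]
    have h2 : n + 1 - n = 1 := by omega
    rw [h2, pow_one]
    have h3 : 0 ≤ a ^ n := pow_nonneg ha n
    calc b * ∑ j ∈ Finset.range n, a ^ j * b ^ (n - j) + a ^ n * b
        ≤ b * a ^ n + a ^ n * b := by gcongr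
      _ = (2 * b) * a ^ n := by ring
      _ ≤ a * a ^ n := by gcongr
      _ = a ^ (n + 1) := by ring

end Pool.Agent.MPccab6c
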