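import Mathlib

set_option autoImplicit false

/-! Integration over an annulus in polar coordinates, through circle averages. -/

open Complex Metric Set Filter Topology MeasureTheory

namespace Pool.Agent.MPccab6c

/-- Polar coordinates on an annulus. -/
theorem annulus_integral {H : ℂ → ℝ} {r₁ r₂ : ℝ} (h1 : 0 ≤ r₁) (h12 : r₁ ≤ r₂)
    (hH : ContinuousOn H {z : ℂ | ‖z‖ ∈ Icc r₁ r₂}) :
    ∫ z in {z : ℂ | r₁ < ‖z‖ ∧ ‖z‖ < r₂}, H z =
      ∫ ρ in r₁..r₂, 2 * Real.pi * ρ * Real.circleAverage H 0 ρ := by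
  have hmeas : MeasurableSet {z : ℂ | r₁ < ‖z‖ ∧ ‖z‖ < r₂} := by
    have : IsOpen {z : ℂ | r₁ < ‖z‖ ∧ ‖z‖ < r₂} :=
      (isOpen_lt continuous_const continuous_norm).inter (isOpen_lt continuous_norm continuous_const)
    exact this.measurableSet
  rw [← integral_indicator hmeas, ← Complex.integral_comp_polarCoord_symm]
  have hcirc : ∀ ρ θ : ℝ, (ρ:ℂ) * (Real.cos θ + Real.sin θ * Complex.I) = circleMap 0 ρ θ := by
    intro ρ θ
    rw [circleMap, zero_add, Complex.exp_mul_I, Complex.ofReal_cos, Complex.ofReal_sin]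
  have hset : ∫ p in _root_.polarCoord.target, p.1 • ({z : ℂ | r₁ < ‖z‖ ∧ ‖z‖ < r₂}.indicator H
      (Complex.polarCoord.symm p)) =
      ∫ p in Ioo r₁ r₂ ×ˢ Ioo (-Real.pi) Real.pi, p.1 * H (circleMap 0 p.1 p.2) := by
    have htar : _root_.polarCoord.target = Ioi (0:ℝ) ×ˢ Ioo (-Real.pi) Real.pi := rfl
    rw [htar]
    have hsub : Ioo r₁ r₂ ×ˢ Ioo (-Real.pi) Real.pi ⊆ Ioi (0:ℝ) ×ˢ Ioo (-Real.pi) Real.pi := by
      rintro ⟨a, b⟩ ⟨ha, hb⟩
      exact ⟨lt_of_le_of_lt h1 ha.1, hb⟩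
    have hm1 : MeasurableSet (Ioo r₁ r₂ ×ˢ Ioo (-Real.pi) Real.pi) :=
      measurableSet_Ioo.prod measurableSet_Ioo
    have hm2 : MeasurableSet (Ioi (0:ℝ) ×ˢ Ioo (-Real.pi) Real.pi) :=
      measurableSet_Ioi.prod measurableSet_Ioo
    rw [← integral_indicator hm1, ← integral_indicator hm2]
    congr 1
    ext p
    by_cases hp : p ∈ Ioo r₁ r₂ ×ˢ Ioo (-Real.pi) Real.pi
    · rw [indicator_of_mem (hsub hp), indicator_of_mem hp]
      have hp0 : 0 < p.1 := lt_of_le_of_lt h1 hp.1.1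
      have hn : ‖Complex.polarCoord.symm p‖ = p.1 := by
        rw [Complex.norm_polarCoord_symm, abs_of_pos hp0]
      have hmem : Complex.polarCoord.symm p ∈ {z : ℂ | r₁ < ‖z‖ ∧ ‖z‖ < r₂} := by
        show r₁ < ‖Complex.polarCoord.symm p‖ ∧ ‖Complex.polarCoord.symm p‖ < r₂
        rw [hn]; exact hp.1
      rw [indicator_of_mem hmem, Complex.polarCoord_symm_apply, hcirc, smul_eq_mul]
    · rw [indicator_of_notMem hp]
      by_cases hp2 : p ∈ Ioi (0:ℝ) ×ˢ Ioo (-Real.pi) Real.pi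
      · rw [indicator_of_mem hp2]
        have hp0 : 0 < p.1 := hp2.1
        have hn : ‖Complex.polarCoord.symm p‖ = p.1 := by
          rw [Complex.norm_polarCoord_symm, abs_of_pos hp0]
        have hnmem : Complex.polarCoord.symm p ∉ {z : ℂ | r₁ < ‖z‖ ∧ ‖z‖ < r₂} := by
          intro hmem
          have hmem' : r₁ < ‖Complex.polarCoord.symm p‖ ∧ ‖Complex.polarCoord.symm p‖ < r₂ := hmem
          rw [hn] at hmem'
          exact hp ⟨hmem', hp2.2⟩
        rw [indicator_of_notMem hnmem, smul_zero]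
      · rw [indicator_of_notMem hp2]
  rw [hset]
  have hcont : ContinuousOn (fun p : ℝ × ℝ => p.1 * H (circleMap 0 p.1 p.2))
      (Icc r₁ r₂ ×ˢ Icc (-Real.pi) Real.pi) := by
    refine continuousOn_fst.mul ?_
    refine hH.comp (f := fun p : ℝ × ℝ => circleMap 0 p.1 p.2) (by fun_prop) ?_
    intro p hp
    show ‖circleMap 0 p.1 p.2‖ ∈ Icc r₁ r₂
    have hp0 : 0 ≤ p.1 := h1.trans hp.1.1
    have : ‖circleMap (0:ℂ) p.1 p.2‖ = p.1 := by simp [abs_of_nonneg hp0]
    rw [this]; exact hp.1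
  have hint : IntegrableOn (fun p : ℝ × ℝ => p.1 * H (circleMap 0 p.1 p.2))
      (Ioo r₁ r₂ ×ˢ Ioo (-Real.pi) Real.pi) (volume.prod volume) := by
    have h := hcont.integrableOn_compact (μ := (volume : Measure ℝ).prod (volume : Measure ℝ))
      (isCompact_Icc.prod isCompact_Icc)
    exact h.mono_set (prod_mono Ioo_subset_Icc_self Ioo_subset_Icc_self)
  rw [Measure.volume_eq_prod, setIntegral_prod _ hint, intervalIntegral.integral_of_le h12,
    integral_Ioc_eq_integral_Ioo]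
  refine setIntegral_congr_fun measurableSet_Ioo ?_
  intro ρ _
  simp only
  rw [integral_const_mul, ← integral_Ioc_eq_integral_Ioo,
    ← intervalIntegral.integral_of_le (by linarith [Real.pi_pos]),
    Real.circleAverage_eq_integral_add (-Real.pi),
    intervalIntegral.integral_comp_add_right (fun θ => H (circleMap 0 ρ θ))]
  have h2 : 2 * Real.pi + -Real.pi = Real.pi := by ring
  rw [h2, zero_add, smul_eq_mul]
  have hpi : Real.pi ≠ 0 := Real.pi_ne_zero
  field_simp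

end Pool.Agent.MPccab6c
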