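import Mathlib
import Pool.Agent.Lib.MP_ccab6c_rate.Polar

set_option autoImplicit false

/-! The example showing `1 - c(p) ≥ const / sqrt p`: algebra and pointwise bounds. -/

open Complex Metric Set Filter Topology MeasureTheory

namespace Pool.Agent.MPccab6c

/-- The circle average of the squared inverse of `|1 - t z|`. -/
theorem circ_inv_sq {t ρ : ℝ} (hρ : 0 < ρ) (ht : |t| * ρ < 1) :
    CircleIntegrable (fun z : ℂ => 1 / ‖1 - (t:ℂ) * z‖ ^ 2) 0 ρ ∧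
    Real.circleAverage (fun z : ℂ => 1 / ‖1 - (t:ℂ) * z‖ ^ 2) 0 ρ = 1 / (1 - t ^ 2 * ρ ^ 2) := by
  have hne : ∀ z : ℂ, ‖z‖ ≤ ρ → 1 - (t:ℂ) * z ≠ 0 := by
    intro z hz h
    have h1 : (t:ℂ) * z = 1 := (sub_eq_zero.mp h).symm
    have h2 : ‖(t:ℂ) * z‖ = 1 := by rw [h1, norm_one]
    rw [norm_mul, Complex.norm_real, Real.norm_eq_abs] at h2
    have h3 : |t| * ‖z‖ ≤ |t| * ρ := by gcongr
    linarith
  have hcl : closure (ball (0:ℂ) ρ) = closedBall 0 ρ := closure_ball 0 hρ.ne'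
  set F : ℂ → ℂ := fun z => (1 + (t:ℂ) * z) / (1 - (t:ℂ) * z) with hF
  have hFd : DiffContOnCl ℂ F (ball 0 |ρ|) := by
    rw [abs_of_pos hρ]
    refine ⟨?_, ?_⟩
    · refine DifferentiableOn.div (by fun_prop) (by fun_prop) ?_
      intro z hz
      exact hne z (by simpa using (ball_subset_closedBall hz))
    · rw [hcl]
      refine ContinuousOn.div (by fun_prop) (by fun_prop) ?_
      intro z hz
      exact hne z (by simpa using hz)
  have havg := hFd.circleAverage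
  have hF0 : F 0 = 1 := by simp [hF]
  rw [hF0] at havg
  have hcont : ContinuousOn F (sphere 0 ρ) := by
    have := hFd.continuousOn
    rw [abs_of_pos hρ, hcl] at this
    exact this.mono sphere_subset_closedBall
  have hint : CircleIntegrable F 0 ρ := hcont.circleIntegrable hρ.le
  have hre := Complex.reCLM.circleAverage_comp_comm hint
  rw [havg] at hre
  have hD : 0 < 1 - t ^ 2 * ρ ^ 2 := by
    have h1 : (|t| * ρ) ^ 2 < 1 := by
      have : 0 ≤ |t| * ρ := by positivity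
      nlinarith
    rw [mul_pow, sq_abs] at h1
    linarith
  have heq : ∀ z ∈ sphere (0:ℂ) |ρ|, (fun z : ℂ => 1 / ‖1 - (t:ℂ) * z‖ ^ 2) z =
      (fun z => (1 - t ^ 2 * ρ ^ 2)⁻¹ • (Complex.reCLM ∘ F) z) z := by
    intro z hz
    rw [abs_of_pos hρ] at hz
    have hz' : ‖z‖ = ρ := by simpa using hz
    have hn : 0 < ‖1 - (t:ℂ) * z‖ := norm_pos_iff.mpr (hne z hz'.le)
    have h1 : (F z).re = (1 - t ^ 2 * ρ ^ 2) / ‖1 - (t:ℂ) * z‖ ^ 2 := by
      rw [hF]; simp only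
      rw [Complex.div_re, ← Complex.normSq_eq_norm_sq]
      have h2 : z.re ^ 2 + z.im ^ 2 = ρ ^ 2 := by
        rw [← hz', ← Complex.normSq_eq_norm_sq, Complex.normSq_apply]; ring
      rw [← add_div]
      congr 1
      simp only [Complex.add_re, Complex.sub_re, Complex.mul_re, Complex.ofReal_re,
        Complex.ofReal_im, Complex.one_re, Complex.add_im, Complex.sub_im, Complex.mul_im,
        Complex.one_im]
      rw [← h2]; ring
    simp only [Function.comp, Complex.reCLM_apply, smul_eq_mul]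
    rw [h1]
    field_simp
  constructor
  · apply ContinuousOn.circleIntegrable hρ.le
    refine ContinuousOn.div (by fun_prop) (by fun_prop) ?_
    intro z hz
    have hz' : ‖z‖ = ρ := by simpa using hz
    have hn : 0 < ‖1 - (t:ℂ) * z‖ := norm_pos_iff.mpr (hne z hz'.le)
    positivity
  · rw [Real.circleAverage_congr_sphere heq, Real.circleAverage_fun_smul, hre, smul_eq_mul]
    simp

/-- Real part of the half plane variable. -/
theorem re_w {b : ℝ} {z : ℂ} (h : 1 + (b:ℂ) * z ≠ 0) :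
    ((1 - (b:ℂ) * z) / (1 + (b:ℂ) * z)).re = (1 - b ^ 2 * ‖z‖ ^ 2) / ‖1 + (b:ℂ) * z‖ ^ 2 := by
  rw [Complex.div_re, ← Complex.normSq_eq_norm_sq, ← Complex.normSq_eq_norm_sq, ← add_div,
    Complex.normSq_apply z]
  congr 1
  simp only [Complex.add_re, Complex.sub_re, Complex.mul_re, Complex.ofReal_re,
    Complex.ofReal_im, Complex.one_re, Complex.add_im, Complex.sub_im, Complex.mul_im,
    Complex.one_im]
  ring

/-- Modulus of the Blaschke factor. -/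
theorem sq_norm_B {b : ℝ} {z : ℂ} (h : 1 + (b:ℂ) * z ≠ 0) :
    ‖(z + (b:ℂ)) / (1 + (b:ℂ) * z)‖ ^ 2 =
      1 - (1 - b ^ 2) * (1 - ‖z‖ ^ 2) / ‖1 + (b:ℂ) * z‖ ^ 2 := by
  have hn : 0 < ‖1 + (b:ℂ) * z‖ := norm_pos_iff.mpr h
  rw [norm_div, div_pow, eq_sub_iff_add_eq, ← add_div, div_eq_one_iff_eq (by positivity)]
  rw [← Complex.normSq_eq_norm_sq, ← Complex.normSq_eq_norm_sq, ← Complex.normSq_eq_norm_sq,
    Complex.normSq_apply, Complex.normSq_apply, Complex.normSq_apply]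
  simp only [Complex.add_re, Complex.mul_re, Complex.ofReal_re,
    Complex.ofReal_im, Complex.one_re, Complex.add_im, Complex.mul_im,
    Complex.one_im]
  ring

/-- Numerical facts on `v = 1 - b ^ 2` and `γ`. -/
theorem gamma_bounds {δ : ℝ} (hδ0 : 0 < δ) (hδ : δ ≤ 1 / 300000) :
    9.9 * δ ≤ 1 - (1 - 5 * δ) ^ 2 ∧ 1 - (1 - 5 * δ) ^ 2 ≤ 10 * δ ∧
    0 < (1 - (1 - 5 * δ) ^ 2) * (1 - (1 - δ) ^ 2) / (1 - (1 - 5 * δ) ^ 2 * (1 - δ) ^ 2) ∧
    (1 - (1 - 5 * δ) ^ 2) * (1 - (1 - δ) ^ 2) / (1 - (1 - 5 * δ) ^ 2 * (1 - δ) ^ 2) ≤ 1.7 * δ := by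
  have h1 : 9.9 * δ ≤ 1 - (1 - 5 * δ) ^ 2 := by nlinarith
  have h2 : 1 - (1 - 5 * δ) ^ 2 ≤ 10 * δ := by nlinarith
  have h3 : 1 - (1 - δ) ^ 2 ≤ 2 * δ := by nlinarith
  have h4 : 0 < 1 - (1 - δ) ^ 2 := by nlinarith
  have h5 : 11.9 * δ ≤ 1 - (1 - 5 * δ) ^ 2 * (1 - δ) ^ 2 := by
    have h6 : (1 - 5 * δ) ^ 2 * (1 - δ) ^ 2 = (1 - (6 * δ - 5 * δ ^ 2)) ^ 2 := by ring
    rw [h6]
    have h7 : 5.99 * δ ≤ 6 * δ - 5 * δ ^ 2 := by nlinarith
    have h8 : 6 * δ - 5 * δ ^ 2 ≤ 1 / 1000 := by nlinarith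
    nlinarith
  refine ⟨h1, h2, ?_, ?_⟩
  · apply div_pos
    · apply mul_pos _ h4
      linarith
    · linarith
  · rw [div_le_iff₀ (by linarith)]
    have h9 : (1 - (1 - 5 * δ) ^ 2) * (1 - (1 - δ) ^ 2) ≤ 10 * δ * (2 * δ) := by
      apply mul_le_mul h2 h3 h4.le; positivity
    nlinarith

/-- The basic quadratic inequality: `v u - 2 γ (u + v) ≥ 0` in the form used. -/
theorem vu_ineq {δ v γ u : ℝ} (hδ0 : 0 < δ) (hv1 : 9.9 * δ ≤ v) (hv2 : v ≤ 10 * δ)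
    (hγ : γ ≤ 1.7 * δ) (hu : 7.9 * δ ≤ u) :
    6.5 * δ * u - 34 * δ ^ 2 ≤ v * u - 2 * γ * (u + v) := by
  have h1 : 2 * γ * (u + v) ≤ 3.4 * δ * (u + v) := by
    have : 0 ≤ u + v := by nlinarith
    nlinarith
  have h2 : 6.5 * δ * u - 34 * δ ^ 2 ≤ v * u - 3.4 * δ * (u + v) := by nlinarith
  linarith

end Pool.Agent.MPccab6c
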