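import Mathlib
import Pool.Agent.Lib.MP_ccab6c_rate.ExA

set_option autoImplicit false

/-! The example showing `1 - c(p) ≥ const / sqrt p`: the two functions and pointwise bounds. -/

open Complex Metric Set Filter Topology MeasureTheory

namespace Pool.Agent.MPccab6c

/-- The parameter `b = 1 - 5 δ`. -/
noncomputable def eb (δ : ℝ) : ℝ := 1 - 5 * δ
/-- The parameter `a = 1 - 2000 δ`. -/
noncomputable def ea (δ : ℝ) : ℝ := 1 - 2000 * δ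
/-- The parameter `γ`. -/
noncomputable def eγ (δ : ℝ) : ℝ :=
  (1 - (1 - 5 * δ) ^ 2) * (1 - (1 - δ) ^ 2) / (1 - (1 - 5 * δ) ^ 2 * (1 - δ) ^ 2)
/-- The weight. -/
noncomputable def eK (p δ : ℝ) (z : ℂ) : ℂ :=
  Complex.exp (-(((4 / p : ℝ) : ℂ) * Complex.log (1 - (ea δ : ℂ) * z)))
/-- The function `f` of the example. -/
noncomputable def ef (p δ : ℝ) (z : ℂ) : ℂ :=
  eK p δ z * Complex.exp (-((eγ δ : ℂ) * ((1 - (eb δ : ℂ) * z) / (1 + (eb δ : ℂ) * z))))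
/-- The function `g` of the example. -/
noncomputable def eg (p δ : ℝ) (z : ℂ) : ℂ :=
  eK p δ z * ((z + (eb δ : ℂ)) / (1 + (eb δ : ℂ) * z))
/-- The real part of the half plane variable. -/
noncomputable def eX (δ : ℝ) (z : ℂ) : ℝ :=
  (1 - eb δ ^ 2 * ‖z‖ ^ 2) / ‖1 + (eb δ : ℂ) * z‖ ^ 2
/-- One minus the squared modulus of the Blaschke factor. -/
noncomputable def eY (δ : ℝ) (z : ℂ) : ℝ :=
  (1 - eb δ ^ 2) * (1 - ‖z‖ ^ 2) / ‖1 + (eb δ : ℂ) * z‖ ^ 2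

theorem one_sub_re {a : ℝ} (ha0 : 0 ≤ a) (ha : a < 1) {z : ℂ} (hz : ‖z‖ ≤ 1) :
    1 - a ≤ (1 - (a:ℂ) * z).re := by
  have h1 : z.re ≤ ‖z‖ := Complex.re_le_norm z
  rw [Complex.sub_re, Complex.one_re, Complex.re_ofReal_mul]
  nlinarith

theorem one_sub_ne {a : ℝ} (ha0 : 0 ≤ a) (ha : a < 1) {z : ℂ} (hz : ‖z‖ ≤ 1) :
    1 - (a:ℂ) * z ≠ 0 := by
  intro h
  have h1 := one_sub_re ha0 ha hz
  rw [h, Complex.zero_re] at h1
  linarith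

theorem one_sub_norm {a : ℝ} (ha0 : 0 ≤ a) (ha : a < 1) {z : ℂ} (hz : ‖z‖ ≤ 1) :
    1 - a ≤ ‖1 - (a:ℂ) * z‖ := (one_sub_re ha0 ha hz).trans (Complex.re_le_norm _)

theorem one_add_ne {b : ℝ} (hb0 : 0 ≤ b) (hb : b < 1) {z : ℂ} (hz : ‖z‖ ≤ 1) :
    1 + (b:ℂ) * z ≠ 0 := by
  have h := one_sub_ne hb0 hb (z := -z) (by rwa [norm_neg])
  simpa using h

theorem params {δ : ℝ} (hδ0 : 0 < δ) (hδ : δ ≤ 1 / 300000) :
    0 ≤ ea δ ∧ ea δ < 1 ∧ 0 ≤ eb δ ∧ eb δ < 1 := by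
  unfold ea eb
  refine ⟨by linarith, by linarith, by linarith, by linarith⟩

theorem eK_norm {p δ : ℝ} (hp : 0 < p) (hδ0 : 0 < δ) (hδ : δ ≤ 1 / 300000) {z : ℂ} (hz : ‖z‖ ≤ 1) :
    ‖eK p δ z‖ ^ p = (‖1 - (ea δ : ℂ) * z‖ ^ 4)⁻¹ := by
  obtain ⟨ha0, ha1, _, _⟩ := params hδ0 hδ
  have hn : 0 < ‖1 - (ea δ : ℂ) * z‖ := norm_pos_iff.mpr (one_sub_ne ha0 ha1 hz)
  rw [eK, Complex.norm_exp, ← Real.exp_mul]
  have h1 : (-(((4 / p : ℝ) : ℂ) * Complex.log (1 - (ea δ : ℂ) * z))).re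
      = -(4 / p * Real.log ‖1 - (ea δ : ℂ) * z‖) := by
    rw [Complex.neg_re, Complex.re_ofReal_mul, Complex.log_re]
  rw [h1]
  have h2 : -(4 / p * Real.log ‖1 - (ea δ : ℂ) * z‖) * p
      = -(Real.log ‖1 - (ea δ : ℂ) * z‖ * (4:ℕ)) := by
    push_cast
    field_simp
  rw [h2, Real.exp_neg, Real.exp_mul, Real.exp_log hn, Real.rpow_natCast]

theorem ef_norm {p δ : ℝ} (hp : 0 < p) (hδ0 : 0 < δ) (hδ : δ ≤ 1 / 300000) {z : ℂ} (hz : ‖z‖ ≤ 1) :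
    ‖ef p δ z‖ ^ p = (‖1 - (ea δ : ℂ) * z‖ ^ 4)⁻¹ * Real.exp (-(p * (eγ δ * eX δ z))) := by
  obtain ⟨_, _, hb0, hb1⟩ := params hδ0 hδ
  rw [ef, norm_mul, Real.mul_rpow (norm_nonneg _) (norm_nonneg _), eK_norm hp hδ0 hδ hz,
    Complex.norm_exp, ← Real.exp_mul]
  congr 2
  rw [Complex.neg_re, Complex.re_ofReal_mul, re_w (one_add_ne hb0 hb1 hz)]
  unfold eX
  ring

theorem eg_norm {p δ : ℝ} (hp : 0 < p) (hδ0 : 0 < δ) (hδ : δ ≤ 1 / 300000) {z : ℂ} (hz : ‖z‖ ≤ 1) :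
    ‖eg p δ z‖ ^ p = (‖1 - (ea δ : ℂ) * z‖ ^ 4)⁻¹ * (1 - eY δ z) ^ (p / 2) := by
  obtain ⟨_, _, hb0, hb1⟩ := params hδ0 hδ
  rw [eg, norm_mul, Real.mul_rpow (norm_nonneg _) (norm_nonneg _), eK_norm hp hδ0 hδ hz]
  congr 1
  unfold eY
  rw [← sq_norm_B (one_add_ne hb0 hb1 hz), ← Real.rpow_natCast, ← Real.rpow_mul (norm_nonneg _)]
  congr 1
  push_cast
  ring

theorem eY_bounds {δ : ℝ} (hδ0 : 0 < δ) (hδ : δ ≤ 1 / 300000) {z : ℂ} (hz : ‖z‖ ≤ 1) :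
    0 ≤ eY δ z ∧ eY δ z ≤ 1 := by
  obtain ⟨_, _, hb0, hb1⟩ := params hδ0 hδ
  have hn : 0 < ‖1 + (eb δ : ℂ) * z‖ := norm_pos_iff.mpr (one_add_ne hb0 hb1 hz)
  have hz0 := norm_nonneg z
  constructor
  · unfold eY
    apply div_nonneg (mul_nonneg _ _) (by positivity) <;> nlinarith
  · have h := sq_norm_B (b := eb δ) (one_add_ne hb0 hb1 hz)
    have h2 : 0 ≤ ‖(z + (eb δ : ℂ)) / (1 + (eb δ : ℂ) * z)‖ ^ 2 := by positivity
    unfold eY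
    linarith

theorem eX_nonneg {δ : ℝ} (hδ0 : 0 < δ) (hδ : δ ≤ 1 / 300000) {z : ℂ} (hz : ‖z‖ ≤ 1) :
    0 ≤ eX δ z := by
  obtain ⟨_, _, hb0, hb1⟩ := params hδ0 hδ
  have hz0 := norm_nonneg z
  unfold eX
  apply div_nonneg _ (by positivity)
  have h1 : eb δ ^ 2 * ‖z‖ ^ 2 ≤ 1 * 1 := by
    apply mul_le_mul <;> nlinarith
  linarith

/-- The condition on the annulus. -/
theorem ex_annulus {p δ : ℝ} (hδ0 : 0 < δ) (hδ : δ ≤ 1 / 300000) {z : ℂ}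
    (hz1 : 1 - δ < ‖z‖) (hz : ‖z‖ < 1) : ‖ef p δ z‖ ≤ ‖eg p δ z‖ := by
  obtain ⟨_, _, hb0, hb1⟩ := params hδ0 hδ
  obtain ⟨hv1, hv2, hγ0, hγ1⟩ := gamma_bounds hδ0 hδ
  have hne := one_add_ne hb0 hb1 hz.le
  have hn : 0 < ‖1 + (eb δ : ℂ) * z‖ := norm_pos_iff.mpr hne
  rw [ef, eg, norm_mul, norm_mul]
  apply mul_le_mul_of_nonneg_left _ (norm_nonneg _)
  rw [Complex.norm_exp, Complex.neg_re, Complex.re_ofReal_mul, re_w hne]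
  have hX : (1 - eb δ ^ 2 * ‖z‖ ^ 2) / ‖1 + (eb δ : ℂ) * z‖ ^ 2 = eX δ z := rfl
  rw [hX]
  set r : ℝ := ‖z‖ with hr
  have hebd : eb δ = 1 - 5 * δ := rfl
  -- Y ≤ γ X
  have hYX : eY δ z ≤ eγ δ * eX δ z := by
    unfold eY eX
    rw [← mul_div_assoc]
    apply div_le_div_of_nonneg_right _ (by positivity)
    rw [← hr]
    have hden : 0 < 1 - (1 - 5 * δ) ^ 2 * (1 - δ) ^ 2 := by
      have h1 : 0 < (1 - (1 - 5 * δ) ^ 2) := by linarith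
      have h2 : (1 - δ) ^ 2 ≤ 1 := by nlinarith
      nlinarith [sq_nonneg (1 - 5 * δ)]
    unfold eγ
    rw [div_mul_eq_mul_div, le_div_iff₀ hden, hebd]
    have h3 : 0 < (1 - (1 - 5 * δ) ^ 2) := by linarith
    have h4 : (1 - r ^ 2) * (1 - (1 - 5 * δ) ^ 2 * (1 - δ) ^ 2) ≤
        (1 - (1 - δ) ^ 2) * (1 - (1 - 5 * δ) ^ 2 * r ^ 2) := by
      have h5 : (1 - δ) ^ 2 ≤ r ^ 2 := by
        have : 0 ≤ 1 - δ := by linarith
        gcongr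
      have h6 : (1 - (1 - δ) ^ 2) * (1 - (1 - 5 * δ) ^ 2 * r ^ 2) -
          (1 - r ^ 2) * (1 - (1 - 5 * δ) ^ 2 * (1 - δ) ^ 2)
          = (r ^ 2 - (1 - δ) ^ 2) * (1 - (1 - 5 * δ) ^ 2) := by ring
      have h7 : 0 ≤ (r ^ 2 - (1 - δ) ^ 2) * (1 - (1 - 5 * δ) ^ 2) := by
        apply mul_nonneg <;> linarith
      linarith
    calc (1 - (1 - 5 * δ) ^ 2) * (1 - r ^ 2) * (1 - (1 - 5 * δ) ^ 2 * (1 - δ) ^ 2)
        = (1 - (1 - 5 * δ) ^ 2) * ((1 - r ^ 2) * (1 - (1 - 5 * δ) ^ 2 * (1 - δ) ^ 2)) := by ring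
      _ ≤ (1 - (1 - 5 * δ) ^ 2) * ((1 - (1 - δ) ^ 2) * (1 - (1 - 5 * δ) ^ 2 * r ^ 2)) := by
          gcongr
      _ = _ := by ring
  -- Y ≤ 0.64
  have hY1 : eY δ z ≤ 0.64 := by
    have hlow : 1 - eb δ * r ≤ ‖1 + (eb δ : ℂ) * z‖ := by
      have h1 : ‖(1:ℂ)‖ - ‖(eb δ : ℂ) * z‖ ≤ ‖1 + (eb δ : ℂ) * z‖ := by
        have := norm_sub_norm_le (1:ℂ) (-((eb δ : ℂ) * z))
        rwa [norm_neg, sub_neg_eq_add] at this
      rw [norm_one, norm_mul, Complex.norm_real, Real.norm_eq_abs, abs_of_nonneg hb0] at h1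
      exact h1
    have hpos : 0 < 1 - eb δ * r := by nlinarith [norm_nonneg z]
    unfold eY
    rw [div_le_iff₀ (by positivity), ← hr]
    have h1 : (1 - eb δ * r) ^ 2 ≤ ‖1 + (eb δ : ℂ) * z‖ ^ 2 := by gcongr
    have h2 : (1 - eb δ ^ 2) * (1 - r ^ 2) = (1 - eb δ * r) ^ 2 - (r - eb δ) ^ 2 := by ring
    have h3 : 0.6 * (1 - eb δ * r) ≤ r - eb δ := by
      rw [hebd]; nlinarith
    have h4 : 0.36 * (1 - eb δ * r) ^ 2 ≤ (r - eb δ) ^ 2 := by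
      have : (0.6 * (1 - eb δ * r)) ^ 2 ≤ (r - eb δ) ^ 2 := by gcongr
      nlinarith
    nlinarith
  obtain ⟨hY0, _⟩ := eY_bounds hδ0 hδ hz.le
  have hsq : Real.exp (-(eγ δ * eX δ z)) ^ 2 ≤ ‖(z + (eb δ : ℂ)) / (1 + (eb δ : ℂ) * z)‖ ^ 2 := by
    rw [sq_norm_B hne]
    have hY : (1 - eb δ ^ 2) * (1 - ‖z‖ ^ 2) / ‖1 + (eb δ : ℂ) * z‖ ^ 2 = eY δ z := rfl
    rw [hY, ← Real.exp_nat_mul]
    have h1 : Real.exp ((2:ℕ) * -(eγ δ * eX δ z)) ≤ Real.exp (-(2 * eY δ z)) := by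
      apply Real.exp_le_exp.mpr
      push_cast; linarith
    refine h1.trans ?_
    rw [Real.exp_neg, inv_le_comm₀ (Real.exp_pos _) (by linarith)]
    have h2 := Real.quadratic_le_exp_of_nonneg (x := 2 * eY δ z) (by linarith)
    refine le_trans ?_ h2
    rw [inv_le_comm₀ (by linarith) (by positivity), inv_le_comm₀ (by positivity) (by linarith),
      inv_eq_one_div, div_le_iff₀ (by linarith)]
    have h3 : eY δ z ^ 2 ≤ 0.64 ^ 2 := by gcongr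
    nlinarith
  exact le_of_sq_le_sq hsq (norm_nonneg _)

theorem exp_diff {x y : ℝ} : Real.exp (-y) * (y - x) ≤ Real.exp (-x) - Real.exp (-y) := by
  have h1 : Real.exp (-x) = Real.exp (-y) * Real.exp (y - x) := by
    rw [← Real.exp_add]; congr 1; ring
  have h2 := Real.add_one_le_exp (y - x)
  have h3 := Real.exp_pos (-y)
  rw [h1]
  nlinarith

/-- Upper bound of `(1 - Y) ^ (p / 2)`. -/
theorem Y_pow_le {p Y : ℝ} (hp : 0 < p) (hY : Y ≤ 1) :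
    (1 - Y) ^ (p / 2) ≤ Real.exp (-(p / 2 * Y)) := by
  have h1 : 1 - Y ≤ Real.exp (-Y) := by
    have := Real.add_one_le_exp (-Y); linarith
  calc (1 - Y) ^ (p / 2) ≤ (Real.exp (-Y)) ^ (p / 2) :=
        Real.rpow_le_rpow (by linarith) h1 (by positivity)
    _ = Real.exp (-(p / 2 * Y)) := by
        rw [← Real.exp_mul]; congr 1; ring

/-- The difference is nonnegative well inside the disc. -/
theorem ex_inner {p δ : ℝ} (hp : 0 < p) (hδ0 : 0 < δ) (hδ : δ ≤ 1 / 300000) {z : ℂ}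
    (hz : ‖z‖ ≤ 1 - 4 * δ) : ‖eg p δ z‖ ^ p ≤ ‖ef p δ z‖ ^ p := by
  obtain ⟨_, _, hb0, hb1⟩ := params hδ0 hδ
  obtain ⟨hv1, hv2, hγ0, hγ1⟩ := gamma_bounds hδ0 hδ
  have hz1 : ‖z‖ ≤ 1 := by linarith
  have hz0 := norm_nonneg z
  obtain ⟨hY0, hY1⟩ := eY_bounds hδ0 hδ hz1
  rw [ef_norm hp hδ0 hδ hz1, eg_norm hp hδ0 hδ hz1]
  apply mul_le_mul_of_nonneg_left _ (by positivity)
  refine (Y_pow_le hp hY1).trans ?_
  apply Real.exp_le_exp.mpr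
  have hkey : 2 * (eγ δ * eX δ z) ≤ eY δ z := by
    unfold eX eY
    rw [← mul_div_assoc, ← mul_div_assoc]
    apply div_le_div_of_nonneg_right _ (by positivity)
    have hu : 7.9 * δ ≤ 1 - ‖z‖ ^ 2 := by nlinarith
    have h1 := vu_ineq (γ := eγ δ) hδ0 hv1 hv2 hγ1 hu
    have h2 : 0 ≤ 6.5 * δ * (1 - ‖z‖ ^ 2) - 34 * δ ^ 2 := by nlinarith
    have h3 : 1 - eb δ ^ 2 * ‖z‖ ^ 2 ≤ (1 - ‖z‖ ^ 2) + (1 - (1 - 5 * δ) ^ 2) := by
      have : eb δ = 1 - 5 * δ := rfl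
      rw [this]
      have h4 : 0 ≤ (1 - (1 - 5 * δ) ^ 2) * (1 - ‖z‖ ^ 2) := by
        apply mul_nonneg <;> nlinarith
      nlinarith
    have h5 : 0 < eγ δ := hγ0
    have h6 : 2 * (eγ δ * (1 - eb δ ^ 2 * ‖z‖ ^ 2)) ≤
        2 * eγ δ * ((1 - ‖z‖ ^ 2) + (1 - (1 - 5 * δ) ^ 2)) := by nlinarith
    have h7 : (1 - eb δ ^ 2) * (1 - ‖z‖ ^ 2) = (1 - (1 - 5 * δ) ^ 2) * (1 - ‖z‖ ^ 2) := rfl
    rw [h7]
    linarith
  nlinarith

/-- The loss in the layer. -/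
theorem ex_layer {p δ : ℝ} (hp : 0 < p) (hδ0 : 0 < δ) (hδ : δ ≤ 1 / 300000) {z : ℂ}
    (hz1 : 1 - 4 * δ < ‖z‖) (hz : ‖z‖ < 1) :
    -(30.6 * p * δ ^ 2 * ((2000 * δ)⁻¹ ^ 2 * (1 / ‖1 - (ea δ : ℂ) * z‖ ^ 2) +
      16 * (1 / ‖1 - ((-eb δ : ℝ) : ℂ) * z‖ ^ 2))) ≤
      ‖ef p δ z‖ ^ p - ‖eg p δ z‖ ^ p := by
  obtain ⟨ha0, ha1, hb0, hb1⟩ := params hδ0 hδ
  obtain ⟨hv1, hv2, hγ0, hγ1⟩ := gamma_bounds hδ0 hδ
  have hz0 := norm_nonneg z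
  obtain ⟨hY0, hY1⟩ := eY_bounds hδ0 hδ hz.le
  have hX0 := eX_nonneg hδ0 hδ hz.le
  have hγ0' : 0 < eγ δ := hγ0
  have hγ1' : eγ δ ≤ 1.7 * δ := hγ1
  rw [ef_norm hp hδ0 hδ hz.le, eg_norm hp hδ0 hδ hz.le, ← mul_sub]
  set u : ℝ := ‖1 - (ea δ : ℂ) * z‖ with hu
  have hb' : 1 - ((-eb δ : ℝ) : ℂ) * z = 1 + (eb δ : ℂ) * z := by push_cast; ring
  rw [hb']
  set v : ℝ := ‖1 + (eb δ : ℂ) * z‖ with hv
  have hu0 : 2000 * δ ≤ u := by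
    have := one_sub_norm ha0 ha1 hz.le
    have h1 : ea δ = 1 - 2000 * δ := rfl
    rw [hu]; rw [h1] at this ⊢; linarith
  have hupos : 0 < u := by linarith
  have hvpos : 0 < v := norm_pos_iff.mpr (one_add_ne hb0 hb1 hz.le)
  have h1 : -(p * (eγ δ * eX δ z)) ≤ Real.exp (-(p * (eγ δ * eX δ z))) - (1 - eY δ z) ^ (p / 2) := by
    have h2 := Real.add_one_le_exp (-(p * (eγ δ * eX δ z)))
    have h3 : (1 - eY δ z) ^ (p / 2) ≤ 1 := Real.rpow_le_one (by linarith) (by linarith) (by positivity)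
    linarith
  have hXle : eX δ z ≤ 18 * δ / v ^ 2 := by
    unfold eX
    rw [← hv]
    apply div_le_div_of_nonneg_right _ (by positivity)
    have : eb δ = 1 - 5 * δ := rfl
    rw [this]
    have h4 : (1 - 9 * δ) ≤ (1 - 5 * δ) * ‖z‖ := by nlinarith
    have h5 : (1 - 9 * δ) ^ 2 ≤ ((1 - 5 * δ) * ‖z‖) ^ 2 := by
      have : 0 ≤ 1 - 9 * δ := by linarith
      gcongr
    nlinarith
  -- separation of the two singularities
  have hsep : (u ^ 4)⁻¹ * (1 / v ^ 2) ≤ (2000 * δ)⁻¹ ^ 2 * (1 / u ^ 2) + 16 * (1 / v ^ 2) := by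
    have hiv : 0 < 1 / v ^ 2 := by positivity
    rcases le_or_gt (1 / 2) u with h6 | h6
    · have h7 : (u ^ 4)⁻¹ ≤ 16 := by
        rw [inv_le_comm₀ (by positivity) (by norm_num)]
        have : (1 / 2 : ℝ) ^ 4 ≤ u ^ 4 := by gcongr
        linarith
      have h8 : (u ^ 4)⁻¹ * (1 / v ^ 2) ≤ 16 * (1 / v ^ 2) := by gcongr
      have h9 : 0 ≤ (2000 * δ)⁻¹ ^ 2 * (1 / u ^ 2) := by positivity
      linarith
    · have h10 : 1 ≤ v := by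
        -- a + b ≤ b u + a v
        have h11 : ea δ + eb δ ≤ eb δ * u + ea δ * v := by
          have h12 : ((ea δ + eb δ : ℝ) : ℂ) = (eb δ : ℂ) * (1 - (ea δ : ℂ) * z) +
              (ea δ : ℂ) * (1 + (eb δ : ℂ) * z) := by push_cast; ring
          have h13 : ‖((ea δ + eb δ : ℝ) : ℂ)‖ ≤ ‖(eb δ : ℂ) * (1 - (ea δ : ℂ) * z)‖ +
              ‖(ea δ : ℂ) * (1 + (eb δ : ℂ) * z)‖ := by
            rw [h12]; exact norm_add_le _ _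
          rw [norm_mul, norm_mul, Complex.norm_real, Complex.norm_real, Complex.norm_real,
            Real.norm_eq_abs, Real.norm_eq_abs, Real.norm_eq_abs, abs_of_nonneg ha0,
            abs_of_nonneg hb0, abs_of_nonneg (by linarith)] at h13
          exact h13
        have h14 : 1 / 2 * eb δ ≥ eb δ * u := by nlinarith
        have h15 : ea δ ≥ 1 / 2 := by
          have : ea δ = 1 - 2000 * δ := rfl
          rw [this]; linarith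
        have h16 : eb δ ≥ 1 / 2 := by
          have : eb δ = 1 - 5 * δ := rfl
          rw [this]; linarith
        by_contra hcon
        push Not at hcon
        have h17 : ea δ * v ≤ ea δ * 1 := by gcongr
        nlinarith
      have h18 : 1 / v ^ 2 ≤ 1 := by
        rw [div_le_one (by positivity)]
        nlinarith
      have h19 : (u ^ 4)⁻¹ ≤ (2000 * δ)⁻¹ ^ 2 * (1 / u ^ 2) := by
        have h20 : (u ^ 4)⁻¹ = u⁻¹ ^ 2 * (1 / u ^ 2) := by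
          field_simp
        rw [h20]
        gcongr
      have h21 : (u ^ 4)⁻¹ * (1 / v ^ 2) ≤ (u ^ 4)⁻¹ * 1 := by gcongr
      linarith
  have h22 : -(p * (eγ δ * eX δ z)) * (u ^ 4)⁻¹ ≤
      (u ^ 4)⁻¹ * (Real.exp (-(p * (eγ δ * eX δ z))) - (1 - eY δ z) ^ (p / 2)) := by
    rw [mul_comm]
    apply mul_le_mul_of_nonneg_left h1 (by positivity)
  refine le_trans ?_ h22
  rw [neg_mul, neg_le_neg_iff]
  calc p * (eγ δ * eX δ z) * (u ^ 4)⁻¹ ≤ p * (1.7 * δ * (18 * δ / v ^ 2)) * (u ^ 4)⁻¹ := by gcongr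
    _ = 30.6 * p * δ ^ 2 * ((u ^ 4)⁻¹ * (1 / v ^ 2)) := by ring
    _ ≤ _ := by gcongr

/-- The gain in the good ball. -/
theorem ex_good {p δ : ℝ} (hp : 0 < p) (hδ0 : 0 < δ) (hδ : δ ≤ 1 / 300000)
    (hpδ : p * δ ^ 2 ≤ 1 / 50000) {z : ℂ}
    (hz : z ∈ ball (((1 - 4000 * δ : ℝ)) : ℂ) (1000 * δ)) :
    0.43 * p * δ * (2000 * δ) * ((3.5 * (2000 * δ)) ^ 4)⁻¹ ≤ ‖ef p δ z‖ ^ p - ‖eg p δ z‖ ^ p := by
  obtain ⟨ha0, ha1, hb0, hb1⟩ := params hδ0 hδ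
  obtain ⟨hv1, hv2, hγ0, hγ1⟩ := gamma_bounds hδ0 hδ
  have hd : ‖z - ((1 - 4000 * δ : ℝ) : ℂ)‖ < 1000 * δ := by simpa [dist_eq_norm] using hz
  have hc : ‖((1 - 4000 * δ : ℝ) : ℂ)‖ = 1 - 4000 * δ := by
    rw [Complex.norm_real, Real.norm_eq_abs, abs_of_pos (by linarith)]
  have hzu : ‖z‖ ≤ 1 - 3000 * δ := by
    have := norm_sub_norm_le z ((1 - 4000 * δ : ℝ) : ℂ)
    rw [hc] at this; linarith
  have hzl : 1 - 5000 * δ ≤ ‖z‖ := by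
    have := norm_sub_norm_le ((1 - 4000 * δ : ℝ) : ℂ) z
    rw [hc, ← norm_neg (((1 - 4000 * δ : ℝ) : ℂ) - z), neg_sub] at this; linarith
  have hz1 : ‖z‖ ≤ 1 := by linarith
  have hz0 := norm_nonneg z
  obtain ⟨hY0, hY1⟩ := eY_bounds hδ0 hδ hz1
  have hX0 := eX_nonneg hδ0 hδ hz1
  have hγ0' : 0 < eγ δ := hγ0
  rw [ef_norm hp hδ0 hδ hz1, eg_norm hp hδ0 hδ hz1, ← mul_sub]
  -- the weight
  have hupos : 0 < ‖1 - (ea δ : ℂ) * z‖ := norm_pos_iff.mpr (one_sub_ne ha0 ha1 hz1)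
  have hule : ‖1 - (ea δ : ℂ) * z‖ ≤ 3.5 * (2000 * δ) := by
    have h1 : 1 - (ea δ : ℂ) * z = (((1 - ea δ * (1 - 4000 * δ) : ℝ)) : ℂ) -
        (ea δ : ℂ) * (z - ((1 - 4000 * δ : ℝ) : ℂ)) := by push_cast; ring
    rw [h1]
    refine (norm_sub_le _ _).trans ?_
    have h2 : ea δ = 1 - 2000 * δ := rfl
    have h3 : 1 - ea δ * (1 - 4000 * δ) ≤ 6000 * δ := by rw [h2]; nlinarith
    have h4 : 0 ≤ 1 - ea δ * (1 - 4000 * δ) := by rw [h2]; nlinarith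
    rw [norm_mul, Complex.norm_real, Complex.norm_real, Real.norm_eq_abs, Real.norm_eq_abs,
      abs_of_nonneg h4, abs_of_nonneg ha0]
    have h5 : ea δ * ‖z - ((1 - 4000 * δ : ℝ) : ℂ)‖ ≤ 1 * (1000 * δ) := by gcongr
    linarith
  have hweight : ((3.5 * (2000 * δ)) ^ 4)⁻¹ ≤ (‖1 - (ea δ : ℂ) * z‖ ^ 4)⁻¹ := by gcongr
  -- the denominators
  have hvle : ‖1 + (eb δ : ℂ) * z‖ ≤ 2 := by
    refine (norm_add_le _ _).trans ?_
    rw [norm_one, norm_mul, Complex.norm_real, Real.norm_eq_abs, abs_of_nonneg hb0]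
    nlinarith
  have hvge : 1 ≤ ‖1 + (eb δ : ℂ) * z‖ := by
    have h1 : 1 ≤ (1 + (eb δ : ℂ) * z).re := by
      rw [Complex.add_re, Complex.one_re, Complex.re_ofReal_mul]
      have h2 : 0 ≤ z.re := by
        have h3 := Complex.abs_re_le_norm (z - ((1 - 4000 * δ : ℝ) : ℂ))
        rw [Complex.sub_re, Complex.ofReal_re, abs_le] at h3
        linarith [h3.1]
      nlinarith
    exact h1.trans (Complex.re_le_norm _)
  have hu1 : 3000 * δ ≤ 1 - ‖z‖ ^ 2 := by nlinarith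
  have hu2 : 1 - ‖z‖ ^ 2 ≤ 10000 * δ := by nlinarith
  have hYX : 1.6 * δ * (3000 * δ) ≤ eY δ z - 2 * (eγ δ * eX δ z) := by
    have h1 := vu_ineq (γ := eγ δ) hδ0 hv1 hv2 hγ1 (by linarith : 7.9 * δ ≤ 1 - ‖z‖ ^ 2)
    have h3 : 1 - eb δ ^ 2 * ‖z‖ ^ 2 ≤ (1 - ‖z‖ ^ 2) + (1 - (1 - 5 * δ) ^ 2) := by
      have : eb δ = 1 - 5 * δ := rfl
      rw [this]
      have h4 : 0 ≤ (1 - (1 - 5 * δ) ^ 2) * (1 - ‖z‖ ^ 2) := by
        apply mul_nonneg <;> nlinarith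
      nlinarith
    have h6 : 2 * (eγ δ * (1 - eb δ ^ 2 * ‖z‖ ^ 2)) ≤
        2 * eγ δ * ((1 - ‖z‖ ^ 2) + (1 - (1 - 5 * δ) ^ 2)) := by nlinarith
    have h7 : (1 - eb δ ^ 2) * (1 - ‖z‖ ^ 2) = (1 - (1 - 5 * δ) ^ 2) * (1 - ‖z‖ ^ 2) := rfl
    have h8 : 6.4 * δ * (1 - ‖z‖ ^ 2) ≤ (1 - eb δ ^ 2) * (1 - ‖z‖ ^ 2) -
        2 * (eγ δ * (1 - eb δ ^ 2 * ‖z‖ ^ 2)) := by
      rw [h7]
      have h9 : 34 * δ ^ 2 ≤ 0.1 * δ * (1 - ‖z‖ ^ 2) := by nlinarith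
      linarith
    have h10 : eY δ z - 2 * (eγ δ * eX δ z) = ((1 - eb δ ^ 2) * (1 - ‖z‖ ^ 2) -
        2 * (eγ δ * (1 - eb δ ^ 2 * ‖z‖ ^ 2))) / ‖1 + (eb δ : ℂ) * z‖ ^ 2 := by
      unfold eX eY; ring
    rw [h10, le_div_iff₀ (by positivity)]
    have h11 : ‖1 + (eb δ : ℂ) * z‖ ^ 2 ≤ 2 ^ 2 := by gcongr
    have h12 : 1.6 * δ * (3000 * δ) * ‖1 + (eb δ : ℂ) * z‖ ^ 2 ≤ 1.6 * δ * (3000 * δ) * 2 ^ 2 := by
      gcongr
    refine h12.trans (le_trans ?_ h8)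
    nlinarith
  have hYsmall : p / 2 * eY δ z ≤ 1 := by
    have h1 : eY δ z ≤ 10 * δ * (10000 * δ) := by
      unfold eY
      rw [div_le_iff₀ (by positivity)]
      have h2 : (1 - eb δ ^ 2) * (1 - ‖z‖ ^ 2) ≤ 10 * δ * (10000 * δ) := by
        apply mul_le_mul hv2 hu2 (by linarith) (by positivity)
      have h3 : (1:ℝ) ≤ ‖1 + (eb δ : ℂ) * z‖ ^ 2 := by nlinarith
      have h4 : 0 ≤ 10 * δ * (10000 * δ) := by positivity
      nlinarith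
    have h5 : p / 2 * eY δ z ≤ p / 2 * (10 * δ * (10000 * δ)) := by gcongr
    nlinarith
  have hgain : 0.43 * p * δ * (2000 * δ) ≤
      Real.exp (-(p * (eγ δ * eX δ z))) - (1 - eY δ z) ^ (p / 2) := by
    have h1 := Y_pow_le hp hY1
    have h2 := exp_diff (x := p * (eγ δ * eX δ z)) (y := p / 2 * eY δ z)
    have h3 : 0.36 ≤ Real.exp (-(p / 2 * eY δ z)) := by
      have h4 : Real.exp (-1) ≤ Real.exp (-(p / 2 * eY δ z)) := by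
        apply Real.exp_le_exp.mpr; linarith
      have h5 : (0.36:ℝ) ≤ Real.exp (-1) := by
        have := Real.exp_neg_one_gt_d9; linarith
      linarith
    have h6 : p / 2 * (1.6 * δ * (3000 * δ)) ≤ p / 2 * eY δ z - p * (eγ δ * eX δ z) := by
      have : p / 2 * (1.6 * δ * (3000 * δ)) ≤ p / 2 * (eY δ z - 2 * (eγ δ * eX δ z)) := by gcongr
      nlinarith
    have h7 : 0.36 * (p / 2 * (1.6 * δ * (3000 * δ))) ≤
        Real.exp (-(p / 2 * eY δ z)) * (p / 2 * eY δ z - p * (eγ δ * eX δ z)) := by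
      have h8 : 0 ≤ p / 2 * (1.6 * δ * (3000 * δ)) := by positivity
      exact mul_le_mul h3 h6 h8 (Real.exp_pos _).le
    have h9 : 0.43 * p * δ * (2000 * δ) ≤ 0.36 * (p / 2 * (1.6 * δ * (3000 * δ))) := by
      have : 0 ≤ p * δ ^ 2 := by positivity
      nlinarith
    linarith
  rw [mul_comm]
  have hnn : 0 ≤ 0.43 * p * δ * (2000 * δ) := by positivity
  exact mul_le_mul hweight hgain hnn (by positivity)

end Pool.Agent.MPccab6c
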