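import Mathlib

set_option autoImplicit false

/-! The numerical bound of the constant in the pointwise inequality. -/

open Set Filter Topology

namespace Pool.Agent.MPccab6c

theorem kappa_bound {p δ r x : ℝ} (hp : 100 ≤ p) (hδ0 : 0 < δ) (hδ : δ ≤ 1 / 2)
    (h : 50000 * Real.log p ≤ (p - 1) * δ ^ 2) (hr1 : 1 - 2 * δ / 3 ≤ r) (hr2 : r ≤ 1 - δ / 3)
    (hx0 : 0 ≤ x) (hx : x ≤ 1 - δ) :
    p * Real.exp (-((p - 1) * ((r - (1 - δ)) * (r - x) / 16))) *
      (5 * Real.exp (4 * Real.pi * Real.log 5 / (δ / 3 * (1 - (1 - 1 / Real.log (3 / δ)))) *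
        (1 - x / r) ^ (1 - 1 / Real.log (3 / δ))) / (1 - x / r)) ≤ 4 / 9 * δ := by
  have hr0 : 2 / 3 ≤ r := by linarith
  have hrpos : 0 < r := by linarith
  set l : ℝ := Real.log (3 / δ) with hl
  have hexp1 : Real.exp 1 ≤ 3 := by
    have := Real.exp_one_lt_d9; linarith
  have h3δ : (6:ℝ) ≤ 3 / δ := by
    rw [le_div_iff₀ hδ0]; linarith
  have hl1 : 1 < l := by
    rw [hl, Real.lt_log_iff_exp_lt (by positivity)]
    linarith
  have hl0 : 0 < l := by linarith
  have hlogp : 0 < Real.log p := Real.log_pos (by linarith)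
  -- δ is at least 1 / sqrt p
  have hlogp1 : 1 ≤ Real.log p := by
    rw [Real.le_log_iff_exp_le (by linarith)]; linarith
  have hpδ : 1 ≤ p * δ ^ 2 := by nlinarith [sq_nonneg δ]
  have hllogp : l ≤ Real.log p := by
    rw [hl]
    apply Real.log_le_log (by positivity)
    rw [div_le_iff₀ hδ0]
    -- 3 ≤ p δ ; since (p δ) ^ 2 ≥ p ≥ 100
    have h1 : p ≤ (p * δ) ^ 2 := by nlinarith
    have h2 : 0 ≤ p * δ := by positivity
    nlinarith
  set s : ℝ := 1 - x / r with hs
  have hsr : r - x = r * s := by rw [hs]; field_simp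
  have hs1 : s ≤ 1 := by
    rw [hs]; have : 0 ≤ x / r := by positivity
    linarith
  have hsδ : δ / 3 ≤ s := by
    have h1 : δ / 3 ≤ r - x := by linarith
    rw [hsr] at h1
    have h2 : r ≤ 1 := by linarith
    by_contra hcon
    push Not at hcon
    have h3 : r * s < δ / 3 := by
      rcases le_or_gt s 0 with h4 | h4
      · have : r * s ≤ 0 := by nlinarith
        linarith
      · nlinarith
    linarith
  have hs0 : 0 < s := by linarith
  have hpi : Real.pi ≤ 4 := Real.pi_le_four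
  have hlog5 : Real.log 5 ≤ 2 := by
    rw [Real.log_le_iff_le_exp (by norm_num)]
    have h1 : (2.7:ℝ) < Real.exp 1 := by
      have := Real.exp_one_gt_d9; linarith
    have h2 : Real.exp 2 = Real.exp 1 * Real.exp 1 := by
      rw [← Real.exp_add]; norm_num
    rw [h2]; nlinarith
  have hlog50 : 0 < Real.log 5 := Real.log_pos (by norm_num)
  -- the power
  have hspow : s ^ (1 - 1 / l) ≤ 3 * s := by
    have h1 : s ^ (1 - 1 / l) = s * s ^ (-(1 / l)) := by
      rw [sub_eq_add_neg, Real.rpow_add hs0, Real.rpow_one]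
    have h2 : s ^ (-(1 / l)) ≤ 3 := by
      have h3 : s ^ (-(1 / l)) ≤ (δ / 3) ^ (-(1 / l)) := by
        apply Real.rpow_le_rpow_of_nonpos (by positivity) hsδ
        have : 0 < 1 / l := by positivity
        linarith
      have h4 : (δ / 3) ^ (-(1 / l)) = Real.exp 1 := by
        rw [Real.rpow_def_of_pos (by positivity)]
        congr 1
        have h5 : Real.log (δ / 3) = - l := by
          rw [hl, ← Real.log_inv]; congr 1; field_simp
        rw [h5]; field_simp
      linarith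
    rw [h1]; nlinarith
  have hA : 4 * Real.pi * Real.log 5 / (δ / 3 * (1 - (1 - 1 / l))) * s ^ (1 - 1 / l)
      ≤ 288 * l * s / δ := by
    have h1 : 4 * Real.pi * Real.log 5 / (δ / 3 * (1 - (1 - 1 / l)))
        = 12 * Real.pi * Real.log 5 * l / δ := by
      field_simp
      ring
    rw [h1]
    have hpi0 := Real.pi_pos
    calc 12 * Real.pi * Real.log 5 * l / δ * s ^ (1 - 1 / l)
        ≤ 12 * 4 * 2 * l / δ * (3 * s) := by gcongr
      _ = 288 * l * s / δ := by ring
  have hmain1 : 288 * l * s / δ ≤ (p - 1) * δ * s / 144 := by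
    rw [div_le_iff₀ hδ0]
    have h1 : 50000 * l ≤ (p - 1) * δ ^ 2 := by linarith
    have h2 : 50000 * l * s ≤ (p - 1) * δ ^ 2 * s := by gcongr
    have h3 : 0 < l * s := by positivity
    nlinarith
  have hfirst : (p - 1) * δ * s / 72 ≤ (p - 1) * ((r - (1 - δ)) * (r - x) / 16) := by
    have h1 : δ / 3 ≤ r - (1 - δ) := by linarith
    have h2 : 2 / 3 * s ≤ r - x := by rw [hsr]; gcongr
    have h3 : δ / 3 * (2 / 3 * s) ≤ (r - (1 - δ)) * (r - x) := by
      apply mul_le_mul h1 h2 (by positivity); linarith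
    have h4 : 0 ≤ p - 1 := by linarith
    calc (p - 1) * δ * s / 72 = (p - 1) * (δ / 3 * (2 / 3 * s) / 16) := by ring
      _ ≤ _ := by gcongr
  -- total exponent
  have hexpo : -((p - 1) * ((r - (1 - δ)) * (r - x) / 16)) +
      4 * Real.pi * Real.log 5 / (δ / 3 * (1 - (1 - 1 / l))) * s ^ (1 - 1 / l)
      ≤ -((p - 1) * δ ^ 2 / 432) := by
    have h1 : (p - 1) * δ ^ 2 / 432 ≤ (p - 1) * δ * s / 144 := by
      have h4 : 0 ≤ p - 1 := by linarith
      calc (p - 1) * δ ^ 2 / 432 = (p - 1) * δ * (δ / 3) / 144 := by ring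
        _ ≤ (p - 1) * δ * s / 144 := by gcongr
    linarith
  have hprod : Real.exp (-((p - 1) * ((r - (1 - δ)) * (r - x) / 16))) *
      Real.exp (4 * Real.pi * Real.log 5 / (δ / 3 * (1 - (1 - 1 / l))) * s ^ (1 - 1 / l))
      ≤ Real.exp (-((p - 1) * δ ^ 2 / 432)) := by
    rw [← Real.exp_add]
    exact Real.exp_le_exp.mpr hexpo
  have hbig : 34 * p / δ ^ 2 ≤ Real.exp ((p - 1) * δ ^ 2 / 432) := by
    have h1 : 34 * p / δ ^ 2 ≤ p ^ 3 := by
      rw [div_le_iff₀ (by positivity)]
      have h2 : p ^ 3 * δ ^ 2 = p ^ 2 * (p * δ ^ 2) := by ring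
      rw [h2]
      nlinarith
    have h3 : p ^ 3 = Real.exp (3 * Real.log p) := by
      rw [mul_comm, Real.exp_mul, Real.exp_log (by linarith)]
      norm_cast
    refine h1.trans ?_
    rw [h3]
    apply Real.exp_le_exp.mpr
    linarith
  have hsmall : Real.exp (-((p - 1) * δ ^ 2 / 432)) ≤ δ ^ 2 / (34 * p) := by
    rw [Real.exp_neg]
    rw [inv_le_comm₀ (Real.exp_pos _) (by positivity)]
    refine le_trans (le_of_eq ?_) hbig
    rw [inv_div]
  have hinv : 1 / s ≤ 3 / δ := by
    rw [div_le_div_iff₀ hs0 hδ0]; linarith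
  calc p * Real.exp (-((p - 1) * ((r - (1 - δ)) * (r - x) / 16))) *
      (5 * Real.exp (4 * Real.pi * Real.log 5 / (δ / 3 * (1 - (1 - 1 / l))) *
        s ^ (1 - 1 / l)) / s)
      = 5 * p * (1 / s) * (Real.exp (-((p - 1) * ((r - (1 - δ)) * (r - x) / 16))) *
      Real.exp (4 * Real.pi * Real.log 5 / (δ / 3 * (1 - (1 - 1 / l))) * s ^ (1 - 1 / l))) := by
        ring
    _ ≤ 5 * p * (3 / δ) * (δ ^ 2 / (34 * p)) := by
        have hp0 : 0 < p := by linarith
        gcongr
        exact hprod.trans hsmall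
    _ = 15 / 34 * δ := by
        have hp0 : p ≠ 0 := by linarith
        field_simp
        norm_num
    _ ≤ 4 / 9 * δ := by nlinarith

end Pool.Agent.MPccab6c
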