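import Mathlib

set_option autoImplicit false

/-! Schwarz-Pick type chains for holomorphic self maps of the disc. -/

open Complex Metric

namespace Pool.Agent.MPccab6c

/-- One Schwarz-Pick step for a holomorphic function bounded by one on a disc. -/
theorem sp_step {w : ℂ → ℂ} {z₁ z₂ : ℂ} {R : ℝ} (hR : 0 < R)
    (hw : DifferentiableOn ℂ w (ball z₁ R)) (hb : ∀ z ∈ ball z₁ R, ‖w z‖ ≤ 1)
    (h : ‖z₂ - z₁‖ ≤ R / 4) : ‖w z₂ - w z₁‖ ≤ 2 / 3 * (1 - ‖w z₁‖) := by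
  have h1 : ‖w z₁‖ ≤ 1 := hb z₁ (mem_ball_self hR)
  obtain ⟨l, hl, hlw⟩ : ∃ l : ℂ, ‖l‖ = 1 ∧ l * w z₁ = (‖w z₁‖ : ℂ) := by
    by_cases h0 : w z₁ = 0
    · exact ⟨1, by simp, by simp [h0]⟩
    · refine ⟨(‖w z₁‖ : ℂ) / w z₁, ?_, ?_⟩
      · rw [norm_div, Complex.norm_real, norm_norm, div_self (norm_ne_zero_iff.mpr h0)]
      · rw [div_mul_cancel₀ _ h0]
  have key : ∀ M : ℝ, 1 - ‖w z₁‖ < M → ‖w z₂ - w z₁‖ ≤ 2 / 3 * M := by
    intro M hM
    have hM0 : 0 < M := by linarith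
    set F : ℂ → ℂ := fun z => l * (w (z₁ + z) - w z₁) with hF
    have hd : DifferentiableOn ℂ F (ball 0 R) := by
      have h2 : DifferentiableOn ℂ (fun z => w (z₁ + z)) (ball 0 R) := by
        refine hw.comp (f := fun z => z₁ + z) (by fun_prop) ?_
        intro z hz
        simp only [mem_ball, dist_zero_right] at hz
        simpa [mem_ball, dist_eq_norm] using hz
      exact (h2.sub_const _).const_mul _
    have hmap : Set.MapsTo F (ball 0 R) {z | z.re ≤ M} := by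
      intro z hz
      simp only [mem_ball, dist_zero_right] at hz
      have h3 : z₁ + z ∈ ball z₁ R := by simpa [mem_ball, dist_eq_norm] using hz
      have h4 : (l * w (z₁ + z)).re ≤ 1 := by
        refine (Complex.re_le_norm _).trans ?_
        rw [norm_mul, hl, one_mul]
        exact hb _ h3
      have h5 : (F z).re = (l * w (z₁ + z)).re - ‖w z₁‖ := by
        rw [hF]
        simp only
        rw [mul_sub, hlw, Complex.sub_re, Complex.ofReal_re]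
      show (F z).re ≤ M
      rw [h5]; linarith
    have hz : z₂ - z₁ ∈ ball (0:ℂ) R := by
      simp only [mem_ball, dist_zero_right]; linarith
    have hF0 : F 0 = 0 := by simp [hF]
    have h6 := Complex.borelCaratheodory_zero hM0 hd hmap hR hz hF0
    have h7 : ‖F (z₂ - z₁)‖ = ‖w z₂ - w z₁‖ := by
      rw [hF]; simp only
      rw [norm_mul, hl, one_mul]; congr 2; ring_nf
    rw [h7] at h6
    refine h6.trans ?_
    have h8 : 0 < R - ‖z₂ - z₁‖ := by linarith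
    rw [div_le_iff₀ h8]
    have h9 : (0:ℝ) ≤ ‖z₂ - z₁‖ := norm_nonneg _
    nlinarith
  by_contra hcon
  push Not at hcon
  have h10 := key (3 / 4 * ‖w z₂ - w z₁‖ + (1 - ‖w z₁‖) / 2) (by linarith)
  linarith

/-- A chain of Schwarz-Pick steps. -/
theorem sp_chain {w : ℂ → ℂ} {R : ℝ} (hR : 0 < R) (z : ℕ → ℂ) (l : ℂ) (hl : ‖l‖ = 1)
    (hl0 : w (z 0) = (‖w (z 0)‖ : ℂ) * l)
    (N : ℕ) (hw : ∀ j ≤ N, DifferentiableOn ℂ w (ball (z j) R))
    (hb : ∀ j ≤ N, ∀ x ∈ ball (z j) R, ‖w x‖ ≤ 1)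
    (h : ∀ j < N, ‖z (j + 1) - z j‖ ≤ R / 4) :
    ‖w (z N) - l‖ ≤ 5 ^ N * (1 - ‖w (z N)‖) := by
  induction N with
  | zero =>
    have h1 : ‖w (z 0)‖ ≤ 1 := hb 0 le_rfl (z 0) (mem_ball_self hR)
    have h2 : w (z 0) - l = ((‖w (z 0)‖ - 1 : ℝ) : ℂ) * l := by
      nth_rewrite 1 [hl0]
      push_cast; ring
    rw [h2, norm_mul, hl, Complex.norm_real, mul_one, pow_zero, one_mul, Real.norm_eq_abs,
      abs_sub_comm, abs_of_nonneg (by linarith)]
  | succ n ih =>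
    have ih' := ih (fun j hj => hw j (by omega)) (fun j hj => hb j (by omega))
      (fun j hj => h j (by omega))
    have hs := sp_step hR (hw n (by omega)) (hb n (by omega)) (h n (by omega))
    have h1 : ‖w (z n)‖ ≤ 1 := hb n (by omega) (z n) (mem_ball_self hR)
    have h2 : ‖w (z (n+1)) - l‖ ≤ ‖w (z (n+1)) - w (z n)‖ + ‖w (z n) - l‖ := by
      simpa using norm_sub_le_norm_sub_add_norm_sub (w (z (n+1))) (w (z n)) l
    have h3 : ‖w (z (n+1))‖ ≤ ‖w (z n)‖ + ‖w (z (n+1)) - w (z n)‖ := by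
      have := norm_sub_norm_le (w (z (n+1))) (w (z n))
      linarith
    have h5 : (1:ℝ) ≤ 5 ^ n := one_le_pow₀ (by norm_num)
    have h6 : 1 - ‖w (z n)‖ ≤ 3 * (1 - ‖w (z (n+1))‖) := by linarith
    have h7 : 0 ≤ 1 - ‖w (z (n+1))‖ := by linarith
    calc ‖w (z (n+1)) - l‖ ≤ 2 / 3 * (1 - ‖w (z n)‖) + 5 ^ n * (1 - ‖w (z n)‖) := by linarith
      _ = (2 / 3 + 5 ^ n) * (1 - ‖w (z n)‖) := by ring
      _ ≤ (2 / 3 + 5 ^ n) * (3 * (1 - ‖w (z (n+1))‖)) := by gcongr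
      _ ≤ 5 ^ (n+1) * (1 - ‖w (z (n+1))‖) := by
        rw [pow_succ]; nlinarith

/-- The chain along a circle of radius `r`. -/
theorem sp_circle {w : ℂ → ℂ} {R r : ℝ} (hR : 0 < R) (hr0 : 0 ≤ r) (hr : r ≤ 1)
    (hw : ∀ x : ℂ, ‖x‖ = r → DifferentiableOn ℂ w (ball x R))
    (hb : ∀ x : ℂ, ‖x‖ = r → ∀ y ∈ ball x R, ‖w y‖ ≤ 1)
    (x₀ : ℂ) (hx₀ : ‖x₀‖ = r) (l : ℂ) (hl : ‖l‖ = 1)
    (hl0 : w x₀ = (‖w x₀‖ : ℂ) * l) (u : ℂ) (hu : ‖u‖ = 1) :
    ‖w (x₀ * u) - l‖ ≤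
      5 * Real.exp (4 * Real.log 5 / R * (Real.pi / 2 * ‖1 - u‖)) * (1 - ‖w (x₀ * u)‖) := by
  set N : ℕ := ⌊4 * |u.arg| / R⌋₊ + 1 with hN
  have hNpos : (0:ℝ) < N := by rw [hN]; positivity
  have hN1 : 4 * |u.arg| / R ≤ N := by
    rw [hN]; push_cast
    exact (Nat.lt_floor_add_one _).le
  have hN2 : (N:ℝ) ≤ 4 * |u.arg| / R + 1 := by
    rw [hN]; push_cast
    have := Nat.floor_le (a := 4 * |u.arg| / R) (by positivity)
    linarith
  set z : ℕ → ℂ := fun j => x₀ * Complex.exp (I * ((j * (u.arg / N) : ℝ) : ℂ)) with hz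
  have hnz : ∀ j, ‖z j‖ = r := by
    intro j
    rw [hz]; simp only
    rw [norm_mul, hx₀, mul_comm I, Complex.norm_exp_ofReal_mul_I, mul_one]
  have hz0 : z 0 = x₀ := by simp [hz]
  have hzN : z N = x₀ * u := by
    rw [hz]; simp only
    congr 1
    have h1 : (N:ℝ) * (u.arg / N) = u.arg := by field_simp
    rw [h1]
    have h2 := Complex.norm_mul_exp_arg_mul_I u
    rw [hu] at h2
    rw [mul_comm I]
    simpa using h2
  have hstep : ∀ j < N, ‖z (j + 1) - z j‖ ≤ R / 4 := by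
    intro j _
    have h1 : z (j+1) - z j = z j * (Complex.exp (I * ((u.arg / N : ℝ) : ℂ)) - 1) := by
      rw [hz]; simp only
      have h2 : I * (((j + 1 : ℕ) * (u.arg / N) : ℝ) : ℂ)
          = I * ((j * (u.arg / N) : ℝ) : ℂ) + I * ((u.arg / N : ℝ) : ℂ) := by
        push_cast; ring
      rw [h2, Complex.exp_add]; ring
    rw [h1, norm_mul, hnz j]
    have h3 := Real.norm_exp_I_mul_ofReal_sub_one_le (x := u.arg / N)
    have h4 : ‖u.arg / N‖ ≤ R / 4 := by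
      rw [Real.norm_eq_abs, abs_div, abs_of_pos hNpos, div_le_iff₀ hNpos]
      rw [div_le_iff₀ hR] at hN1
      nlinarith
    calc r * ‖Complex.exp (I * ((u.arg / N : ℝ) : ℂ)) - 1‖ ≤ 1 * (R / 4) := by
          gcongr
          exact h3.trans h4
      _ = R / 4 := one_mul _
  have hl0' : w (z 0) = (‖w (z 0)‖ : ℂ) * l := by rw [hz0]; exact hl0
  have hmain := sp_chain hR z l hl hl0' N (fun j _ => hw _ (hnz j)) (fun j _ => hb _ (hnz j)) hstep
  rw [hzN] at hmain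
  refine hmain.trans ?_
  have h1 : ‖w (x₀ * u)‖ ≤ 1 := by
    rw [← hzN]
    exact hb _ (hnz N) _ (mem_ball_self hR)
  have hang : |u.arg| ≤ Real.pi / 2 * ‖1 - u‖ := by
    have h2 := Complex.angle_le_mul_norm_sub (x := 1) (y := u) (by simp) hu
    have hu0 : u ≠ 0 := by
      intro h; rw [h] at hu; simp at hu
    rwa [Complex.angle_one_left hu0] at h2
  have hlog : 0 < Real.log 5 := Real.log_pos (by norm_num)
  have h5 : (5:ℝ) ^ N ≤ 5 * Real.exp (4 * Real.log 5 / R * (Real.pi / 2 * ‖1 - u‖)) := by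
    have h6 : (5:ℝ) ^ N = Real.exp (N * Real.log 5) := by
      rw [mul_comm, Real.exp_mul, Real.exp_log (by norm_num)]
      simp
    rw [h6]
    have h7 : (5:ℝ) * Real.exp (4 * Real.log 5 / R * (Real.pi / 2 * ‖1 - u‖))
        = Real.exp (Real.log 5 + 4 * Real.log 5 / R * (Real.pi / 2 * ‖1 - u‖)) := by
      rw [Real.exp_add, Real.exp_log (by norm_num)]
    rw [h7]
    apply Real.exp_le_exp.mpr
    calc (N:ℝ) * Real.log 5 ≤ (4 * |u.arg| / R + 1) * Real.log 5 := by gcongr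
      _ ≤ (4 * (Real.pi / 2 * ‖1 - u‖) / R + 1) * Real.log 5 := by gcongr
      _ = _ := by ring
  gcongr

end Pool.Agent.MPccab6c
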