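import Mathlib
import Pool.Agent.Lib.MP_ccab6c_rate.SchwarzPick
import Pool.Agent.Lib.MP_ccab6c_rate.Decomp

set_option autoImplicit false

/-! The pointwise inequality: the excess of `|f| ^ p` over `|g| ^ p` at a point is controlled by
circle averages. -/

open Complex Metric Set Filter Topology

namespace Pool.Agent.MPccab6c

/-- Cauchy estimate by circle averages. -/
theorem cauchy_avg {F : ℂ → ℂ} {H : ℂ → ℝ} {r : ℝ} (hr : 0 < r)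
    (hF : DiffContOnCl ℂ F (ball 0 r)) (hH : CircleIntegrable H 0 r)
    (hFH : ∀ z : ℂ, ‖z‖ = r → ‖F z‖ ≤ H z) {z : ℂ} (hz : ‖z‖ < r) :
    ‖F z‖ ≤ 1 / (1 - ‖z‖ / r) * Real.circleAverage H 0 r := by
  have hzb : z ∈ ball (0:ℂ) r := by simpa using hz
  have h1 := hF.two_pi_i_inv_smul_circleIntegral_sub_inv_smul hzb
  have hrz : 0 < r - ‖z‖ := by linarith
  rw [← h1, norm_smul, circleIntegral, norm_inv]
  have h2 : ‖(2 * (Real.pi:ℂ) * I)‖ = 2 * Real.pi := by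
    rw [norm_mul, norm_mul, Complex.norm_I, Complex.norm_real, Real.norm_eq_abs,
      abs_of_pos Real.pi_pos]
    simp
  rw [h2, Real.circleAverage_def]
  have h3 : ‖∫ θ in (0:ℝ)..2 * Real.pi, deriv (circleMap 0 r) θ •
      ((circleMap 0 r θ - z)⁻¹ • F (circleMap 0 r θ))‖ ≤
      ∫ θ in (0:ℝ)..2 * Real.pi, 1 / (1 - ‖z‖ / r) * H (circleMap 0 r θ) := by
    refine intervalIntegral.norm_integral_le_of_norm_le (by positivity) ?_ ?_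
    · refine Filter.Eventually.of_forall ?_
      intro θ _
      have h4 : ‖circleMap (0:ℂ) r θ‖ = r := by simp [abs_of_pos hr]
      rw [norm_smul, norm_smul, norm_inv, deriv_circleMap, norm_mul, Complex.norm_I, mul_one, h4]
      have h5 : r - ‖z‖ ≤ ‖circleMap 0 r θ - z‖ := by
        have := norm_sub_norm_le (circleMap 0 r θ) z
        rw [h4] at this; exact this
      have h6 : 1 / (1 - ‖z‖ / r) = r * (r - ‖z‖)⁻¹ := by
        field_simp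
      rw [h6, mul_assoc]
      have h7 : 0 ≤ H (circleMap 0 r θ) := (norm_nonneg _).trans (hFH _ h4)
      gcongr
      exact hFH _ h4
    · exact hH.const_mul _
  rw [intervalIntegral.integral_const_mul] at h3
  rw [smul_eq_mul]
  calc (2 * Real.pi)⁻¹ * _ ≤ (2 * Real.pi)⁻¹ * (1 / (1 - ‖z‖ / r) *
        ∫ θ in (0:ℝ)..2 * Real.pi, H (circleMap 0 r θ)) := by gcongr
    _ = _ := by ring

/-- A lower bound of the real part of a power. -/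
theorem re_cpow_lower {u : ℂ} {β : ℝ} (hβ0 : 0 < β) (hβ1 : β ≤ 1) (hu : 0 ≤ u.re) :
    (1 - β) * ‖u‖ ^ β ≤ (u ^ (β:ℂ)).re := by
  by_cases h0 : u = 0
  · subst h0
    have h1 : (β:ℂ) ≠ 0 := by exact_mod_cast hβ0.ne'
    rw [Complex.zero_cpow h1, norm_zero, Real.zero_rpow hβ0.ne']
    simp
  · have harg : |u.arg| ≤ Real.pi / 2 := Complex.abs_arg_le_pi_div_two_iff.mpr hu
    have h1 : (u ^ (β:ℂ)).re = ‖u‖ ^ β * Real.cos (β * u.arg) := by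
      have hn : 0 < ‖u‖ := norm_pos_iff.mpr h0
      rw [Complex.cpow_def_of_ne_zero h0, Complex.log, Complex.exp_re]
      have h2 : (((Real.log ‖u‖ : ℂ) + u.arg * I) * (β:ℂ)).re = Real.log ‖u‖ * β := by
        simp
      have h3 : (((Real.log ‖u‖ : ℂ) + u.arg * I) * (β:ℂ)).im = β * u.arg := by
        simp; ring
      rw [h2, h3, Real.rpow_def_of_pos hn]
    rw [h1, mul_comm]
    have h4 : 1 - β ≤ Real.cos (β * u.arg) := by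
      rw [← Real.cos_abs, abs_mul, abs_of_pos hβ0]
      have h5 : β * |u.arg| ≤ Real.pi / 2 := by
        have : 0 ≤ |u.arg| := abs_nonneg _
        nlinarith [Real.pi_pos]
      have h6 := Real.one_sub_mul_le_cos (x := β * |u.arg|) (by positivity) h5
      refine le_trans ?_ h6
      have h7 : 2 / Real.pi * (β * |u.arg|) ≤ 2 / Real.pi * (β * (Real.pi / 2)) := by gcongr
      have h8 : 2 / Real.pi * (β * (Real.pi / 2)) = β := by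
        field_simp
      linarith
    gcongr

/-- The elementary inequality between two Blaschke type denominators. -/
theorem blaschke_ineq {c r : ℝ} (hc : 0 < c) (hcr : c < r) (hr1 : r ≤ 1) {b z : ℂ}
    (hb : ‖b‖ ≤ c) (hz : ‖z‖ ≤ c) :
    ‖(((c + r) / 2 : ℝ) : ℂ) ^ 2 - (starRingEnd ℂ) b * z‖ / ((c + r) / 2) ≤
      ‖(r : ℂ) ^ 2 - (starRingEnd ℂ) b * z‖ / r * Real.exp (-((r - c) * (r - ‖z‖) / 16)) := by
  set e : ℝ := (c + r) / 2 with he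
  set ξ : ℂ := (starRingEnd ℂ) b * z with hξ
  have hr0 : 0 < r := by linarith
  have he0 : 0 < e := by rw [he]; linarith
  have hce : c < e := by rw [he]; linarith
  have her : e < r := by rw [he]; linarith
  have hz0 : 0 ≤ ‖z‖ := norm_nonneg _
  have hξn : ‖ξ‖ = ‖b‖ * ‖z‖ := by rw [hξ, norm_mul, Complex.norm_conj]
  have hξ1 : ‖ξ‖ ≤ e * ‖z‖ := by
    rw [hξn]; gcongr; linarith
  have hexp : ∀ t : ℝ, ‖(t:ℂ) ^ 2 - ξ‖ ^ 2 = t ^ 4 - 2 * t ^ 2 * ξ.re + ‖ξ‖ ^ 2 := by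
    intro t
    rw [Complex.sq_norm, Complex.sq_norm, Complex.normSq_apply, Complex.normSq_apply]
    have h1 : ((t:ℂ) ^ 2 - ξ).re = t ^ 2 - ξ.re := by
      rw [← Complex.ofReal_pow, Complex.sub_re, Complex.ofReal_re]
    have h2 : ((t:ℂ) ^ 2 - ξ).im = - ξ.im := by
      rw [← Complex.ofReal_pow, Complex.sub_im, Complex.ofReal_im]; ring
    rw [h1, h2]; ring
  have hid : e ^ 2 * ‖(r:ℂ) ^ 2 - ξ‖ ^ 2 - r ^ 2 * ‖(e:ℂ) ^ 2 - ξ‖ ^ 2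
      = (r ^ 2 - e ^ 2) * (e ^ 2 * r ^ 2 - ‖ξ‖ ^ 2) := by
    rw [hexp, hexp]; ring
  have hzr : ‖z‖ < r := by linarith
  have hup : ‖(r:ℂ) ^ 2 - ξ‖ ≤ 2 * r := by
    have h1 : ‖(r:ℂ) ^ 2 - ξ‖ ≤ ‖(r:ℂ) ^ 2‖ + ‖ξ‖ := norm_sub_le _ _
    rw [norm_pow, Complex.norm_real, Real.norm_eq_abs, abs_of_pos hr0] at h1
    have h2 : ‖ξ‖ ≤ r * r := by
      refine hξ1.trans ?_
      gcongr
    nlinarith
  have hlow : e ^ 2 * r ^ 2 * ((r - e) * (r - ‖z‖)) ≤ (r ^ 2 - e ^ 2) * (e ^ 2 * r ^ 2 - ‖ξ‖ ^ 2) := by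
    have h1 : ‖ξ‖ ^ 2 ≤ e ^ 2 * ‖z‖ ^ 2 := by
      rw [← mul_pow]; gcongr
    have h2 : e ^ 2 * (r * (r - ‖z‖)) ≤ e ^ 2 * r ^ 2 - ‖ξ‖ ^ 2 := by
      have h3 : r * (r - ‖z‖) ≤ r ^ 2 - ‖z‖ ^ 2 := by nlinarith
      have h4 : e ^ 2 * (r * (r - ‖z‖)) ≤ e ^ 2 * (r ^ 2 - ‖z‖ ^ 2) := by gcongr
      have h5 : e ^ 2 * r ^ 2 ≤ e ^ 2 * r ^ 2 := le_refl _
      nlinarith
    have h6 : r * (r - e) ≤ r ^ 2 - e ^ 2 := by nlinarith
    have h7 : 0 ≤ r * (r - e) := by nlinarith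
    have h8 : 0 ≤ e ^ 2 * (r * (r - ‖z‖)) := by
      have : 0 ≤ r - ‖z‖ := by linarith
      positivity
    calc e ^ 2 * r ^ 2 * ((r - e) * (r - ‖z‖)) = (r * (r - e)) * (e ^ 2 * (r * (r - ‖z‖))) := by ring
      _ ≤ (r ^ 2 - e ^ 2) * (e ^ 2 * r ^ 2 - ‖ξ‖ ^ 2) := by
        apply mul_le_mul h6 h2 h8
        nlinarith
  set x : ℝ := (r - c) * (r - ‖z‖) / 8 with hx
  have hre : r - e = (r - c) / 2 := by rw [he]; ring
  have hmain : (r * ‖(e:ℂ) ^ 2 - ξ‖) ^ 2 ≤ (e * ‖(r:ℂ) ^ 2 - ξ‖ * Real.exp (-(x / 2))) ^ 2 := by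
    have h1 : (e * ‖(r:ℂ) ^ 2 - ξ‖ * Real.exp (-(x / 2))) ^ 2
        = e ^ 2 * ‖(r:ℂ) ^ 2 - ξ‖ ^ 2 * Real.exp (-x) := by
      rw [mul_pow, mul_pow, ← Real.exp_nat_mul]
      congr 2
      push_cast; ring
    rw [h1]
    have h2 : 1 - x ≤ Real.exp (-x) := by
      have := Real.add_one_le_exp (-x); linarith
    have h3 : e ^ 2 * ‖(r:ℂ) ^ 2 - ξ‖ ^ 2 * (1 - x) ≤ e ^ 2 * ‖(r:ℂ) ^ 2 - ξ‖ ^ 2 * Real.exp (-x) := by
      gcongr
    refine le_trans ?_ h3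
    have h4 : e ^ 2 * ‖(r:ℂ) ^ 2 - ξ‖ ^ 2 * x ≤ e ^ 2 * r ^ 2 * ((r - e) * (r - ‖z‖)) := by
      have h5 : ‖(r:ℂ) ^ 2 - ξ‖ ^ 2 ≤ (2 * r) ^ 2 := by gcongr
      have h6 : 0 ≤ x := by
        have h7 : 0 ≤ (r - c) := by linarith
        have h8 : 0 ≤ r - ‖z‖ := by linarith
        positivity
      calc e ^ 2 * ‖(r:ℂ) ^ 2 - ξ‖ ^ 2 * x ≤ e ^ 2 * (2 * r) ^ 2 * x := by gcongr
        _ = e ^ 2 * r ^ 2 * ((r - e) * (r - ‖z‖)) := by rw [hre, hx]; ring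
    nlinarith
  have h5 : r * ‖(e:ℂ) ^ 2 - ξ‖ ≤ e * ‖(r:ℂ) ^ 2 - ξ‖ * Real.exp (-(x / 2)) := by
    have h6 : 0 ≤ e * ‖(r:ℂ) ^ 2 - ξ‖ * Real.exp (-(x / 2)) := by positivity
    exact le_of_sq_le_sq hmain h6
  have h7 : x / 2 = (r - c) * (r - ‖z‖) / 16 := by rw [hx]; ring
  rw [← h7, div_le_iff₀ he0]
  have h8 : ‖(r:ℂ) ^ 2 - ξ‖ / r * Real.exp (-(x / 2)) * e
      = (e * ‖(r:ℂ) ^ 2 - ξ‖ * Real.exp (-(x / 2))) / r := by ring
  rw [h8, le_div_iff₀ hr0]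
  linarith

end Pool.Agent.MPccab6c
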