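import Mathlib
import Pool.Agent.Lib.MP_ccab6c_rate.Pointwise

set_option autoImplicit false

/-! The pointwise inequality: the excess of `|f| ^ p` over `|g| ^ p` at a point is controlled by
circle averages. -/

open Complex Metric Set Filter Topology

namespace Pool.Agent.MPccab6c

/-- Decomposition of `g` adapted to a zero `b`: an outer part `O` with a logarithm, and the value
`k = (z - b) k₂ r / (r² - conj b z)` of modulus one on the circle. -/
theorem decomp_zero {f g : ℂ → ℂ} {c r : ℝ} (hc : 0 < c) (hcr : c < r) (hr1 : r < 1)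
    (hf : DifferentiableOn ℂ f (ball 0 1)) (hg : DifferentiableOn ℂ g (ball 0 1))
    (hfg : ∀ z : ℂ, c < ‖z‖ → ‖z‖ < 1 → ‖f z‖ ≤ ‖g z‖)
    (hne : ∀ z ∈ ball (0:ℂ) 1, ∀ᶠ x in 𝓝[≠] z, g x ≠ 0)
    (hgr : ∀ z : ℂ, ‖z‖ = r → g z ≠ 0) {b : ℂ} (hb : ‖b‖ ≤ c) (hgb : g b = 0) :
    ∃ L h k : ℂ → ℂ, DiffContOnCl ℂ L (ball 0 r) ∧ DiffContOnCl ℂ h (ball 0 r) ∧
      DiffContOnCl ℂ k (ball 0 r) ∧
      (∀ z : ℂ, ‖z‖ ≤ r → f z = Complex.exp (L z) * h z) ∧
      (∀ z : ℂ, ‖z‖ ≤ r → g z = Complex.exp (L z) * k z) ∧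
      (∀ z : ℂ, ‖z‖ = r → ‖k z‖ = 1) ∧
      (∀ z : ℂ, ‖z‖ ≤ c → ‖h z‖ ≤ Real.exp (-((r - c) * (r - ‖z‖) / 16))) := by
  have hr0 : 0 < r := by linarith
  have hbU : b ∈ ball (0:ℂ) 1 := by simp only [mem_ball, dist_zero_right]; linarith
  set g₂ : ℂ → ℂ := dslope g b with hg₂
  have hg₂d : DifferentiableOn ℂ g₂ (ball 0 1) :=
    (Complex.differentiableOn_dslope (isOpen_ball.mem_nhds hbU)).mpr hg
  have hgg₂ : ∀ z, g z = (z - b) * g₂ z := by
    intro z
    have := sub_smul_dslope g b z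
    rw [smul_eq_mul, hgb, sub_zero] at this
    exact this.symm
  have hne₂ : ∀ z ∈ ball (0:ℂ) 1, ∀ᶠ x in 𝓝[≠] z, g₂ x ≠ 0 := by
    intro z hz
    filter_upwards [hne z hz] with x hx hx2
    exact hx (by rw [hgg₂ x, hx2, mul_zero])
  have hgr₂ : ∀ z : ℂ, ‖z‖ = r → g₂ z ≠ 0 := by
    intro z hz h
    exact hgr z hz (by rw [hgg₂ z, h, mul_zero])
  obtain ⟨O, k₂, hO, hk₂, hO0, hgO, hk1⟩ := blaschke_decomp hr0 hr1 _ g₂ hg₂d hne₂ le_rfl hgr₂
  -- the modulus of `k₂` is at most one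
  have hcl : closure (ball (0:ℂ) r) = closedBall 0 r := closure_ball 0 hr0.ne'
  have hfr : frontier (ball (0:ℂ) r) = sphere 0 r := frontier_ball 0 hr0.ne'
  have hk₂le : ∀ z : ℂ, ‖z‖ ≤ r → ‖k₂ z‖ ≤ 1 := by
    intro z hz
    refine Complex.norm_le_of_forall_mem_frontier_norm_le isBounded_ball hk₂ ?_ ?_
    · intro x hx
      rw [hfr] at hx
      exact (hk1 x (by simpa using hx)).le
    · rw [hcl]; simpa using hz
  have hden : ∀ t : ℝ, c < t → ∀ z : ℂ, ‖z‖ ≤ t → (t:ℂ) ^ 2 - (starRingEnd ℂ) b * z ≠ 0 := by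
    intro t ht z hz h
    have ht0 : 0 < t := by linarith
    have h1 : (t:ℂ) ^ 2 = (starRingEnd ℂ) b * z := sub_eq_zero.mp h
    have h2 : ‖(t:ℂ) ^ 2‖ = ‖(starRingEnd ℂ) b * z‖ := by rw [h1]
    rw [norm_pow, Complex.norm_real, Real.norm_eq_abs, abs_of_pos ht0, norm_mul,
      Complex.norm_conj] at h2
    have h3 : ‖b‖ * ‖z‖ < t ^ 2 := by
      have h4 : ‖b‖ * ‖z‖ ≤ c * t := by gcongr
      nlinarith
    linarith
  have hrC : (r:ℂ) ≠ 0 := by exact_mod_cast hr0.ne'
  -- extend the region where `O` does not vanish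
  obtain ⟨ε, hε, hεO⟩ : ∃ ε > 0, ∀ z ∈ ball (0:ℂ) (r + ε),
      z ∈ ball (0:ℂ) 1 ∧ O z ≠ 0 ∧ (r:ℂ) ^ 2 - (starRingEnd ℂ) b * z ≠ 0 := by
    have hopen : IsOpen (ball (0:ℂ) 1 ∩ {z | z ∈ ball (0:ℂ) 1 ∧ O z ≠ 0} ∩
        {z | (r:ℂ) ^ 2 - (starRingEnd ℂ) b * z ≠ 0}) := by
      refine (isOpen_ball.inter ?_).inter ?_
      · exact hO.continuousOn.isOpen_inter_preimage isOpen_ball isOpen_ne
      · exact isOpen_ne.preimage (f := fun z => (r:ℂ) ^ 2 - (starRingEnd ℂ) b * z) (by fun_prop)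
    have hsub : closedBall (0:ℂ) r ⊆ ball (0:ℂ) 1 ∩ {z | z ∈ ball (0:ℂ) 1 ∧ O z ≠ 0} ∩
        {z | (r:ℂ) ^ 2 - (starRingEnd ℂ) b * z ≠ 0} := by
      intro z hz
      have h1 : z ∈ ball (0:ℂ) 1 := closedBall_subset_ball hr1 hz
      exact ⟨⟨h1, h1, hO0 z (by simpa using hz)⟩, hden r hcr z (by simpa using hz)⟩
    obtain ⟨ε, hε, hsub2⟩ := (isCompact_closedBall (0:ℂ) r).exists_thickening_subset_open hopen hsub
    refine ⟨ε, hε, fun z hz => ?_⟩
    have h1 : z ∈ thickening ε (closedBall (0:ℂ) r) := by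
      rw [thickening_closedBall hε hr0.le, add_comm]
      exact hz
    have h2 := hsub2 h1
    exact ⟨h2.1.1, h2.1.2.2, h2.2⟩
  set O₁ : ℂ → ℂ := fun z => O z * (((r:ℂ) ^ 2 - (starRingEnd ℂ) b * z) / r) with hO₁
  have hO₁d : DifferentiableOn ℂ O₁ (ball 0 (r + ε)) := by
    refine (hO.mono fun z hz => (hεO z hz).1).mul (by fun_prop)
  have hO₁0 : ∀ z ∈ ball (0:ℂ) (r + ε), O₁ z ≠ 0 := by
    intro z hz
    exact mul_ne_zero (hεO z hz).2.1 (div_ne_zero (hεO z hz).2.2 hrC)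
  obtain ⟨L, hL, hLO⟩ := log_exists (by linarith) hO₁d hO₁0
  have hcb : closedBall (0:ℂ) r ⊆ ball (0:ℂ) (r + ε) := closedBall_subset_ball (by linarith)
  have hmem : ∀ z : ℂ, ‖z‖ ≤ r → z ∈ ball (0:ℂ) (r + ε) := by
    intro z hz
    exact hcb (by simpa using hz)
  have hB : DiffContOnCl ℂ (fun z : ℂ => (r:ℂ) * (z - b) /
      ((r:ℂ) ^ 2 - (starRingEnd ℂ) b * z)) (ball 0 r) := by
    refine ⟨?_, ?_⟩
    · refine DifferentiableOn.div (by fun_prop) (by fun_prop) ?_
      intro z hz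
      exact hden r hcr z (by simpa using (ball_subset_closedBall hz))
    · rw [hcl]
      refine ContinuousOn.div (by fun_prop) (by fun_prop) ?_
      intro z hz
      exact hden r hcr z (by simpa using hz)
  have hh : DifferentiableOn ℂ (fun z => f z / O₁ z) (ball 0 (r + ε)) :=
    (hf.mono fun z hz => (hεO z hz).1).div hO₁d hO₁0
  refine ⟨L, fun z => f z / O₁ z, fun z => k₂ z * ((r:ℂ) * (z - b) /
      ((r:ℂ) ^ 2 - (starRingEnd ℂ) b * z)), hL.diffContOnCl_ball hcb, hh.diffContOnCl_ball hcb,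
      hk₂.smul hB, ?_, ?_, ?_, ?_⟩
  · intro z hz
    rw [hLO z (hmem z hz)]
    have := hO₁0 z (hmem z hz)
    field_simp
  · intro z hz
    rw [hLO z (hmem z hz), hgg₂ z, hgO z hz, hO₁]
    simp only
    have haux : ∀ A s x o k : ℂ, A ≠ 0 → s ≠ 0 → x * (o * k) = o * (A / s) * (k * (s * x / A)) := by
      intro A s x o k hA hs
      field_simp
    exact haux _ _ _ _ _ (hden r hcr z hz) hrC
  · intro z hz
    rw [norm_mul, hk1 z hz, one_mul]
    have h2 : ((r:ℂ) ^ 2 - (starRingEnd ℂ) b * z) = (starRingEnd ℂ) (z - b) * z := by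
      rw [map_sub, sub_mul, ← Complex.normSq_eq_conj_mul_self, Complex.normSq_eq_norm_sq, hz]
      push_cast; ring
    rw [h2, norm_div, norm_mul, norm_mul, Complex.norm_conj, hz, Complex.norm_real,
      Real.norm_eq_abs, abs_of_pos hr0]
    have h3 : z - b ≠ 0 := by
      intro h
      have : z = b := sub_eq_zero.mp h
      rw [this] at hz; linarith
    have h4 : ‖z - b‖ ≠ 0 := norm_ne_zero_iff.mpr h3
    field_simp
  · intro z hz
    -- maximum principle on the intermediate circle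
    set e : ℝ := (c + r) / 2 with he
    have he0 : 0 < e := by rw [he]; linarith
    have hce : c < e := by rw [he]; linarith
    have her : e < r := by rw [he]; linarith
    have heC : (e:ℂ) ≠ 0 := by exact_mod_cast he0.ne'
    have hcle : closure (ball (0:ℂ) e) = closedBall 0 e := closure_ball 0 he0.ne'
    have hfre : frontier (ball (0:ℂ) e) = sphere 0 e := frontier_ball 0 he0.ne'
    have hΦ : DiffContOnCl ℂ (fun x => f x * e / (O x * ((e:ℂ) ^ 2 - (starRingEnd ℂ) b * x)))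
        (ball 0 e) := by
      have h1 : ContinuousOn f (closedBall (0:ℂ) e) :=
        hf.continuousOn.mono (closedBall_subset_ball (by linarith))
      have h2 : ContinuousOn O (closedBall (0:ℂ) e) :=
        hO.continuousOn.mono (closedBall_subset_ball (by linarith))
      refine ⟨?_, ?_⟩
      · refine DifferentiableOn.div ((hf.mono (ball_subset_ball (by linarith))).mul_const _)
          ((hO.mono (ball_subset_ball (by linarith))).mul (by fun_prop)) ?_
        intro x hx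
        have hx' : ‖x‖ ≤ e := by simpa using (ball_subset_closedBall hx)
        exact mul_ne_zero (hO0 x (by linarith)) (hden e hce x hx')
      · rw [hcle]
        refine ContinuousOn.div (h1.mul_const _) (h2.mul (by fun_prop)) ?_
        intro x hx
        have hx' : ‖x‖ ≤ e := by simpa using hx
        exact mul_ne_zero (hO0 x (by linarith)) (hden e hce x hx')
    have hmax : ‖f z * e / (O z * ((e:ℂ) ^ 2 - (starRingEnd ℂ) b * z))‖ ≤ 1 := by
      refine Complex.norm_le_of_forall_mem_frontier_norm_le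
        (f := fun x => f x * e / (O x * ((e:ℂ) ^ 2 - (starRingEnd ℂ) b * x)))
        isBounded_ball hΦ ?_ ?_
      · intro x hx
        rw [hfre] at hx
        have hxe : ‖x‖ = e := by simpa using hx
        have h2 : ((e:ℂ) ^ 2 - (starRingEnd ℂ) b * x) = (starRingEnd ℂ) (x - b) * x := by
          rw [map_sub, sub_mul, ← Complex.normSq_eq_conj_mul_self, Complex.normSq_eq_norm_sq, hxe]
          push_cast; ring
        have hOx : 0 < ‖O x‖ := norm_pos_iff.mpr (hO0 x (by linarith))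
        have h3 : x - b ≠ 0 := by
          intro h
          have : x = b := sub_eq_zero.mp h
          rw [this] at hxe; linarith
        have h4 : 0 < ‖x - b‖ := norm_pos_iff.mpr h3
        have h5 : ‖f x‖ ≤ ‖x - b‖ * ‖O x‖ := by
          refine (hfg x (by linarith) (by linarith)).trans ?_
          rw [hgg₂ x, hgO x (by linarith), norm_mul, norm_mul]
          have h6 := hk₂le x (by linarith)
          have h7 : ‖O x‖ * ‖k₂ x‖ ≤ ‖O x‖ * 1 := by gcongr
          rw [mul_one] at h7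
          gcongr
        rw [h2, norm_div, norm_mul, norm_mul, norm_mul, Complex.norm_conj, hxe, Complex.norm_real,
          Real.norm_eq_abs, abs_of_pos he0, div_le_one (by positivity)]
        nlinarith
      · rw [hcle]
        have : ‖z‖ ≤ e := by linarith
        simpa using this
    have hOz : 0 < ‖O z‖ := norm_pos_iff.mpr (hO0 z (by linarith))
    have hez : 0 < ‖(e:ℂ) ^ 2 - (starRingEnd ℂ) b * z‖ :=
      norm_pos_iff.mpr (hden e hce z (by linarith))
    have hrz : 0 < ‖(r:ℂ) ^ 2 - (starRingEnd ℂ) b * z‖ :=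
      norm_pos_iff.mpr (hden r hcr z (by linarith))
    rw [norm_div, norm_mul, norm_mul, Complex.norm_real, Real.norm_eq_abs, abs_of_pos he0,
      div_le_one (by positivity)] at hmax
    have h1 : ‖f z‖ ≤ ‖O z‖ * (‖(e:ℂ) ^ 2 - (starRingEnd ℂ) b * z‖ / e) := by
      rw [mul_div_assoc', le_div_iff₀ he0]
      exact hmax
    have h2 := blaschke_ineq hc hcr hr1.le hb hz
    rw [← he] at h2
    simp only
    rw [norm_div, hO₁]
    simp only
    rw [norm_mul, norm_div, Complex.norm_real, Real.norm_eq_abs, abs_of_pos hr0,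
      div_le_iff₀ (by positivity)]
    calc ‖f z‖ ≤ ‖O z‖ * (‖(e:ℂ) ^ 2 - (starRingEnd ℂ) b * z‖ / e) := h1
      _ ≤ ‖O z‖ * (‖(r:ℂ) ^ 2 - (starRingEnd ℂ) b * z‖ / r *
          Real.exp (-((r - c) * (r - ‖z‖) / 16))) := by gcongr
      _ = _ := by ring

end Pool.Agent.MPccab6c
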