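import Mathlib
import Pool.Agent.Lib.MP_ccab6c_rate.Pointwise2

set_option autoImplicit false

/-! The pointwise inequality: the excess of `|f| ^ p` over `|g| ^ p` at a point is controlled by
circle averages. -/

open Complex Metric Set Filter Topology

namespace Pool.Agent.MPccab6c

theorem rpow_sub_le {a b p : ℝ} (hb : 0 ≤ b) (hba : b ≤ a) (hp : 1 ≤ p) :
    a ^ p - b ^ p ≤ p * a ^ (p - 1) * (a - b) := by
  rcases eq_or_lt_of_le (hb.trans hba) with h0 | h0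
  · have hb0 : b = 0 := by linarith
    rw [← h0, hb0]; simp
  · have h1 := one_add_mul_self_le_rpow_one_add (s := b / a - 1) (p := p)
      (by have : 0 ≤ b / a := by positivity
          linarith) hp
    have h2 : (1 + (b / a - 1)) ^ p = b ^ p / a ^ p := by
      rw [← Real.div_rpow hb h0.le]; congr 1; ring
    rw [h2, le_div_iff₀ (Real.rpow_pos_of_pos h0 p)] at h1
    have h3 : a ^ p = a ^ (p - 1) * a := by
      rw [← Real.rpow_add_one h0.ne']; congr 1; ring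
    have h4 : (1 + p * (b / a - 1)) * a ^ p = a ^ p + p * a ^ (p - 1) * (b - a) := by
      rw [h3]; field_simp
    rw [h4] at h1
    nlinarith

theorem le_two_mul_rpow {x β : ℝ} (hx0 : 0 ≤ x) (hx2 : x ≤ 2) (hβ0 : 0 < β) (hβ1 : β < 1) :
    x ≤ 2 * x ^ β := by
  rcases eq_or_lt_of_le hx0 with h0 | h0
  · rw [← h0, Real.zero_rpow hβ0.ne']; simp
  · have h1 : x = x ^ (1 - β) * x ^ β := by
      rw [← Real.rpow_add h0]; simp
    have h2 : x ^ (1 - β) ≤ 2 := by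
      calc x ^ (1 - β) ≤ 2 ^ (1 - β) := by
            apply Real.rpow_le_rpow hx0 hx2; linarith
        _ ≤ 2 ^ (1:ℝ) := by
            apply Real.rpow_le_rpow_of_exponent_le (by norm_num); linarith
        _ = 2 := by simp
    have h3 : 0 ≤ x ^ β := Real.rpow_nonneg hx0 _
    calc x = x ^ (1 - β) * x ^ β := h1
      _ ≤ 2 * x ^ β := by gcongr

/-- The pointwise inequality. -/
theorem main_pointwise {f g w : ℂ → ℂ} {c r R p β : ℝ} (hc : 0 < c) (hcr : c < r) (hr1 : r < 1)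
    (hR : 0 < R) (hRc : c ≤ r - R) (hR1 : r + R ≤ 1) (hp : 1 ≤ p) (hβ0 : 0 < β) (hβ1 : β < 1)
    (hf : DifferentiableOn ℂ f (ball 0 1)) (hg : DifferentiableOn ℂ g (ball 0 1))
    (hfg : ∀ z : ℂ, c < ‖z‖ → ‖z‖ < 1 → ‖f z‖ ≤ ‖g z‖)
    (hne : ∀ z ∈ ball (0:ℂ) 1, ∀ᶠ x in 𝓝[≠] z, g x ≠ 0)
    (hw : DifferentiableOn ℂ w {z : ℂ | c < ‖z‖ ∧ ‖z‖ < 1})
    (hw1 : ∀ z : ℂ, c < ‖z‖ → ‖z‖ < 1 → ‖w z‖ ≤ 1)
    (hfw : ∀ z : ℂ, c < ‖z‖ → ‖z‖ < 1 → f z = w z * g z)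
    (hgr : ∀ z : ℂ, ‖z‖ = r → g z ≠ 0) {b : ℂ} (hb : ‖b‖ ≤ c) (hgb : g b = 0)
    {z : ℂ} (hz : ‖z‖ ≤ c) :
    ‖f z‖ ^ p - ‖g z‖ ^ p ≤ p * Real.exp (-((p - 1) * ((r - c) * (r - ‖z‖) / 16))) *
      (5 * Real.exp (4 * Real.pi * Real.log 5 / (R * (1 - β)) * (1 - ‖z‖ / r) ^ β) /
        (1 - ‖z‖ / r)) *
      Real.circleAverage (fun x => ‖g x‖ ^ p - ‖f x‖ ^ p) 0 r := by
  have hr0 : 0 < r := by linarith
  have hzr : ‖z‖ < r := by linarith
  obtain ⟨L, h, k, hL, hh, hk, hfL, hgL, hk1, hhb⟩ :=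
    decomp_zero hc hcr hr1 hf hg hfg hne hgr hb hgb
  -- pointwise facts on the circle
  have hcirc : ∀ x : ℂ, ‖x‖ = r → ‖f x‖ ≤ ‖g x‖ := fun x hx => hfg x (by linarith) (by linarith)
  have hH : CircleIntegrable (fun x => ‖g x‖ ^ p - ‖f x‖ ^ p) 0 r := by
    apply ContinuousOn.circleIntegrable hr0.le
    have h1 : sphere (0:ℂ) r ⊆ ball 0 1 := by
      intro x hx
      have : ‖x‖ = r := by simpa using hx
      simp only [mem_ball, dist_zero_right]; linarith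
    refine ContinuousOn.sub ?_ ?_
    · exact (hg.continuousOn.mono h1).norm.rpow_const (fun x _ => Or.inr (by linarith))
    · exact (hf.continuousOn.mono h1).norm.rpow_const (fun x _ => Or.inr (by linarith))
  have hHnn : 0 ≤ Real.circleAverage (fun x => ‖g x‖ ^ p - ‖f x‖ ^ p) 0 r := by
    apply Real.circleAverage_nonneg_of_nonneg
    intro x hx
    rw [abs_of_pos hr0] at hx
    have hx' : ‖x‖ = r := by simpa using hx
    have : ‖f x‖ ^ p ≤ ‖g x‖ ^ p :=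
      Real.rpow_le_rpow (norm_nonneg _) (hcirc x hx') (by linarith)
    linarith
  have hs0 : 0 < 1 - ‖z‖ / r := by
    have : ‖z‖ / r < 1 := (div_lt_one hr0).mpr hzr
    linarith
  set s : ℝ := 1 - ‖z‖ / r with hs
  have hRHS : 0 ≤ p * Real.exp (-((p - 1) * ((r - c) * (r - ‖z‖) / 16))) *
      (5 * Real.exp (4 * Real.pi * Real.log 5 / (R * (1 - β)) * s ^ β) / s) *
      Real.circleAverage (fun x => ‖g x‖ ^ p - ‖f x‖ ^ p) 0 r := by
    have : 0 ≤ p := by linarith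
    positivity
  rcases le_total ‖f z‖ ‖g z‖ with hle | hle
  · have : ‖f z‖ ^ p ≤ ‖g z‖ ^ p := Real.rpow_le_rpow (norm_nonneg _) hle (by linarith)
    linarith
  -- the base point on the circle
  obtain ⟨x₀, hx₀r, hx₀z⟩ : ∃ x₀ : ℂ, ‖x₀‖ = r ∧ z / x₀ = ((‖z‖ / r : ℝ) : ℂ) := by
    by_cases hz0 : z = 0
    · exact ⟨(r:ℂ), by simp [abs_of_pos hr0], by simp [hz0]⟩
    · have hzn : ‖z‖ ≠ 0 := norm_ne_zero_iff.mpr hz0
      refine ⟨(r:ℂ) * (z / ‖z‖), ?_, ?_⟩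
      · rw [norm_mul, norm_div, Complex.norm_real, Complex.norm_real, norm_norm, div_self hzn,
          mul_one, Real.norm_eq_abs, abs_of_pos hr0]
      · have hrC : (r:ℂ) ≠ 0 := by exact_mod_cast hr0.ne'
        have hznC : (‖z‖:ℂ) ≠ 0 := by exact_mod_cast hzn
        push_cast
        field_simp
  have hx₀0 : x₀ ≠ 0 := by
    intro h'; rw [h', norm_zero] at hx₀r; linarith
  obtain ⟨l, hl, hlw⟩ : ∃ l : ℂ, ‖l‖ = 1 ∧ w x₀ = (‖w x₀‖ : ℂ) * l := by
    by_cases h0 : w x₀ = 0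
    · exact ⟨1, by simp, by simp [h0]⟩
    · have h1 : (‖w x₀‖ : ℂ) ≠ 0 := by exact_mod_cast (norm_ne_zero_iff.mpr h0)
      refine ⟨w x₀ / (‖w x₀‖ : ℂ), ?_, ?_⟩
      · rw [norm_div, Complex.norm_real, norm_norm, div_self (norm_ne_zero_iff.mpr h0)]
      · field_simp
  set A : ℝ := 4 * Real.pi * Real.log 5 / (R * (1 - β)) with hA
  have hlog : 0 < Real.log 5 := Real.log_pos (by norm_num)
  have hβ' : 0 < 1 - β := by linarith
  have hA0 : 0 < A := by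
    have := Real.pi_pos
    positivity
  -- the auxiliary analytic function
  set F : ℂ → ℂ := fun x => Complex.exp ((p:ℂ) * L x) * (h x - l * k x) *
    Complex.exp (-((A:ℂ) * (1 - x / x₀) ^ (β:ℂ))) with hF
  have hcl : closure (ball (0:ℂ) r) = closedBall 0 r := closure_ball 0 hr0.ne'
  have hpow : DiffContOnCl ℂ (fun x : ℂ => (1 - x / x₀) ^ (β:ℂ)) (ball 0 r) := by
    refine ⟨?_, ?_⟩
    · intro x hx
      have hx' : ‖x‖ < r := by simpa using hx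
      have h1 : 0 < (1 - x / x₀).re := by
        have h2 : (x / x₀).re ≤ ‖x / x₀‖ := Complex.re_le_norm _
        rw [norm_div, hx₀r] at h2
        have h3 : ‖x‖ / r < 1 := (div_lt_one hr0).mpr hx'
        rw [Complex.sub_re, Complex.one_re]; linarith
      have h4 : DifferentiableAt ℂ (fun x : ℂ => 1 - x / x₀) x := by fun_prop
      exact (h4.cpow_const (Or.inl h1)).differentiableWithinAt
    · rw [hcl]
      intro x hx
      have hx' : ‖x‖ ≤ r := by simpa using hx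
      have h1 : 0 ≤ (1 - x / x₀).re := by
        have h2 : (x / x₀).re ≤ ‖x / x₀‖ := Complex.re_le_norm _
        rw [norm_div, hx₀r] at h2
        have h3 : ‖x‖ / r ≤ 1 := (div_le_one hr0).mpr hx'
        rw [Complex.sub_re, Complex.one_re]; linarith
      have h5 : ContinuousAt (fun y : ℂ => y ^ (β:ℂ)) (1 - x / x₀) :=
        Complex.continuousAt_cpow_const_of_re_pos (Or.inl h1) (by simpa using hβ0)
      have h6 : ContinuousAt (fun x : ℂ => 1 - x / x₀) x := by fun_prop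
      exact (ContinuousAt.comp (f := fun x : ℂ => 1 - x / x₀) h5 h6).continuousWithinAt
  have hexpd : ∀ {G : ℂ → ℂ}, DiffContOnCl ℂ G (ball 0 r) →
      DiffContOnCl ℂ (fun x => Complex.exp (G x)) (ball 0 r) := by
    intro G hG
    exact ⟨hG.differentiableOn.cexp, hG.continuousOn.cexp⟩
  have hFd : DiffContOnCl ℂ F (ball 0 r) := by
    have h1 : DiffContOnCl ℂ (fun x => Complex.exp ((p:ℂ) * L x)) (ball 0 r) :=
      hexpd (hL.const_smul (p:ℂ))
    have h2 : DiffContOnCl ℂ (fun x => h x - l * k x) (ball 0 r) := hh.sub (hk.const_smul l)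
    have h3 : DiffContOnCl ℂ (fun x => Complex.exp (-((A:ℂ) * (1 - x / x₀) ^ (β:ℂ)))) (ball 0 r) :=
      hexpd (hpow.const_smul (A:ℂ)).neg
    exact (h1.smul h2).smul h3
  have hgnorm : ∀ x : ℂ, ‖x‖ = r → ‖Complex.exp ((p:ℂ) * L x)‖ = ‖g x‖ ^ p := by
    intro x hx
    rw [hgL x hx.le, norm_mul, hk1 x hx, mul_one, Complex.norm_exp, Complex.norm_exp]
    rw [← Real.exp_mul]
    congr 1
    simp [mul_comm]
  have hFH : ∀ x : ℂ, ‖x‖ = r → ‖F x‖ ≤ 5 * (‖g x‖ ^ p - ‖f x‖ ^ p) := by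
    intro x hx
    set u : ℂ := x / x₀ with hu
    have hu1 : ‖u‖ = 1 := by rw [hu, norm_div, hx, hx₀r, div_self hr0.ne']
    have hxu : x₀ * u = x := by rw [hu]; field_simp
    have hchain := sp_circle (w := w) hR hr0.le hr1.le
      (fun y hy => hw.mono (fun t ht => by
        have ht' : ‖t - y‖ < R := by simpa [dist_eq_norm] using ht
        have h1 : ‖y‖ - ‖t‖ ≤ ‖t - y‖ := by
          rw [← norm_neg (t - y)]; simpa using norm_sub_norm_le y t
        have h2 : ‖t‖ - ‖y‖ ≤ ‖t - y‖ := norm_sub_norm_le t y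
        exact ⟨by linarith, by linarith⟩))
      (fun y hy t ht => by
        have ht' : ‖t - y‖ < R := by simpa [dist_eq_norm] using ht
        have h1 : ‖y‖ - ‖t‖ ≤ ‖t - y‖ := by
          rw [← norm_neg (t - y)]; simpa using norm_sub_norm_le y t
        have h2 : ‖t‖ - ‖y‖ ≤ ‖t - y‖ := norm_sub_norm_le t y
        exact hw1 t (by linarith) (by linarith))
      x₀ hx₀r l hl hlw u hu1
    rw [hxu] at hchain
    have hw1x : ‖w x‖ ≤ 1 := hw1 x (by linarith) (by linarith)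
    have hgx : g x ≠ 0 := hgr x hx
    have hgxn : 0 < ‖g x‖ := norm_pos_iff.mpr hgx
    have hhk : ‖h x - l * k x‖ = ‖w x - l‖ := by
      have h1 : Complex.exp (L x) * h x = Complex.exp (L x) * (w x * k x) := by
        rw [← hfL x hx.le, hfw x (by linarith) (by linarith)]
        nth_rewrite 1 [hgL x hx.le]
        ring
      have h2 : h x = w x * k x := mul_left_cancel₀ (Complex.exp_ne_zero _) h1
      rw [h2, ← sub_mul, norm_mul, hk1 x hx, mul_one]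
    have hre : (1 - β) * ‖1 - u‖ ^ β ≤ ((1 - u) ^ (β:ℂ)).re := by
      apply re_cpow_lower hβ0 hβ1.le
      have h2 : u.re ≤ ‖u‖ := Complex.re_le_norm _
      rw [Complex.sub_re, Complex.one_re]; linarith
    have hn2 : ‖1 - u‖ ≤ 2 := by
      refine (norm_sub_le _ _).trans ?_
      rw [hu1, norm_one]; norm_num
    have hexp2 : 4 * Real.log 5 / R * (Real.pi / 2 * ‖1 - u‖) ≤ A * ((1 - u) ^ (β:ℂ)).re := by
      have h1 : ‖1 - u‖ ≤ 2 * ‖1 - u‖ ^ β := le_two_mul_rpow (norm_nonneg _) hn2 hβ0 hβ1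
      have h2 : ‖1 - u‖ ^ β ≤ ((1 - u) ^ (β:ℂ)).re / (1 - β) := by
        rw [le_div_iff₀ hβ']; linarith
      calc 4 * Real.log 5 / R * (Real.pi / 2 * ‖1 - u‖)
          ≤ 4 * Real.log 5 / R * (Real.pi / 2 * (2 * (((1 - u) ^ (β:ℂ)).re / (1 - β)))) := by
            have := Real.pi_pos
            gcongr
            linarith
        _ = A * ((1 - u) ^ (β:ℂ)).re := by rw [hA]; field_simp
    have hFn : ‖F x‖ = ‖g x‖ ^ p * ‖w x - l‖ * Real.exp (-(A * ((1 - u) ^ (β:ℂ)).re)) := by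
      rw [hF]; simp only
      rw [norm_mul, norm_mul, hgnorm x hx, hhk, ← hu, Complex.norm_exp]
      congr 2
      simp
    rw [hFn]
    have hfx : ‖f x‖ ^ p = ‖w x‖ ^ p * ‖g x‖ ^ p := by
      rw [hfw x (by linarith) (by linarith), norm_mul, Real.mul_rpow (norm_nonneg _) (norm_nonneg _)]
    rw [hfx]
    have hwp : ‖w x‖ ^ p ≤ ‖w x‖ := by
      calc ‖w x‖ ^ p ≤ ‖w x‖ ^ (1:ℝ) :=
            Real.rpow_le_rpow_of_exponent_ge' (norm_nonneg _) hw1x (by norm_num) hp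
        _ = ‖w x‖ := Real.rpow_one _
    have hgp : 0 < ‖g x‖ ^ p := Real.rpow_pos_of_pos hgxn p
    have hE : Real.exp (4 * Real.log 5 / R * (Real.pi / 2 * ‖1 - u‖)) *
        Real.exp (-(A * ((1 - u) ^ (β:ℂ)).re)) ≤ 1 := by
      rw [← Real.exp_add]
      apply Real.exp_le_one_iff.mpr
      linarith
    calc ‖g x‖ ^ p * ‖w x - l‖ * Real.exp (-(A * ((1 - u) ^ (β:ℂ)).re))
        ≤ ‖g x‖ ^ p * (5 * Real.exp (4 * Real.log 5 / R * (Real.pi / 2 * ‖1 - u‖)) *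
          (1 - ‖w x‖)) * Real.exp (-(A * ((1 - u) ^ (β:ℂ)).re)) := by gcongr
      _ = ‖g x‖ ^ p * (5 * (1 - ‖w x‖)) * (Real.exp (4 * Real.log 5 / R *
          (Real.pi / 2 * ‖1 - u‖)) * Real.exp (-(A * ((1 - u) ^ (β:ℂ)).re))) := by ring
      _ ≤ ‖g x‖ ^ p * (5 * (1 - ‖w x‖)) * 1 := by
          have : 0 ≤ 1 - ‖w x‖ := by linarith
          gcongr
      _ ≤ 5 * (‖g x‖ ^ p - ‖w x‖ ^ p * ‖g x‖ ^ p) := by nlinarith
  have hH5 : CircleIntegrable (fun x : ℂ => 5 * (‖g x‖ ^ p - ‖f x‖ ^ p)) 0 r :=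
    IntervalIntegrable.const_mul hH 5
  have hcauchy := cauchy_avg (H := fun x => 5 * (‖g x‖ ^ p - ‖f x‖ ^ p)) hr0 hFd hH5 hFH hzr
  have havg : Real.circleAverage (fun x => 5 * (‖g x‖ ^ p - ‖f x‖ ^ p)) 0 r
      = 5 * Real.circleAverage (fun x => ‖g x‖ ^ p - ‖f x‖ ^ p) 0 r := by
    have := Real.circleAverage_fun_smul (a := (5:ℝ)) (f := fun x => ‖g x‖ ^ p - ‖f x‖ ^ p)
      (c := (0:ℂ)) (R := r)
    simpa [smul_eq_mul] using this
  rw [← hs] at hcauchy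
  have hcauchy2 : ‖F z‖ ≤ 1 / s * (5 * Real.circleAverage (fun x => ‖g x‖ ^ p - ‖f x‖ ^ p) 0 r) := by
    rw [← havg]; exact hcauchy
  have hFz : ‖F z‖ = ‖Complex.exp (L z)‖ ^ p * ‖h z - l * k z‖ * Real.exp (-(A * s ^ β)) := by
    rw [hF]; simp only
    rw [norm_mul, norm_mul, hx₀z]
    have h1 : (1 - ((‖z‖ / r : ℝ) : ℂ)) = ((s : ℝ) : ℂ) := by rw [hs]; push_cast; ring
    rw [h1, ← Complex.ofReal_cpow hs0.le, Complex.norm_exp, Complex.norm_exp, Complex.norm_exp,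
      ← Real.exp_mul]
    congr 2
    · congr 1
      simp [mul_comm]
    · simp
  -- the excess at z
  have hp0 : 0 < p := by linarith
  set Oz : ℝ := ‖Complex.exp (L z)‖ with hOz
  have hOz0 : 0 < Oz := norm_pos_iff.mpr (Complex.exp_ne_zero _)
  set M : ℝ := Real.exp (-((r - c) * (r - ‖z‖) / 16)) with hM
  have hM0 : 0 < M := Real.exp_pos _
  have hhz : ‖h z‖ ≤ M := hhb z hz
  have hfz : ‖f z‖ = Oz * ‖h z‖ := by rw [hfL z hzr.le, norm_mul]
  have hgz : g z = Complex.exp (L z) * k z := hgL z hzr.le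
  have h1 : ‖f z‖ ^ p - ‖g z‖ ^ p ≤ p * ‖f z‖ ^ (p - 1) * (‖f z‖ - ‖g z‖) :=
    rpow_sub_le (norm_nonneg _) hle hp
  have h2 : ‖f z‖ - ‖g z‖ ≤ Oz * ‖h z - l * k z‖ := by
    have h3 : ‖f z‖ - ‖l * g z‖ ≤ ‖f z - l * g z‖ := norm_sub_norm_le _ _
    rw [norm_mul, hl, one_mul] at h3
    refine h3.trans (le_of_eq ?_)
    rw [hfL z hzr.le, hgz, hOz, ← norm_mul]
    congr 1; ring
  have h4 : ‖f z‖ ^ (p - 1) ≤ (Oz * M) ^ (p - 1) := by
    apply Real.rpow_le_rpow (norm_nonneg _) _ (by linarith)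
    rw [hfz]; gcongr
  have h5 : (Oz * M) ^ (p - 1) = Oz ^ (p - 1) *
      Real.exp (-((p - 1) * ((r - c) * (r - ‖z‖) / 16))) := by
    rw [Real.mul_rpow hOz0.le hM0.le, hM, ← Real.exp_mul]
    congr 2; ring
  have h6 : Oz ^ (p - 1) * Oz = Oz ^ p := by
    rw [← Real.rpow_add_one hOz0.ne']; congr 1; ring
  have h7 : Oz ^ p * ‖h z - l * k z‖ = ‖F z‖ * Real.exp (A * s ^ β) := by
    rw [hFz, mul_assoc, mul_assoc, ← Real.exp_add]
    have : -(A * s ^ β) + A * s ^ β = 0 := by ring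
    rw [this, Real.exp_zero, mul_one]
  set E₁ : ℝ := Real.exp (-((p - 1) * ((r - c) * (r - ‖z‖) / 16))) with hE₁
  calc ‖f z‖ ^ p - ‖g z‖ ^ p ≤ p * ‖f z‖ ^ (p - 1) * (‖f z‖ - ‖g z‖) := h1
    _ ≤ p * (Oz * M) ^ (p - 1) * (Oz * ‖h z - l * k z‖) := by
        have h8 : 0 ≤ ‖f z‖ - ‖g z‖ := by linarith
        gcongr
    _ = p * E₁ * (Oz ^ p * ‖h z - l * k z‖) := by rw [h5, ← h6]; ring
    _ = p * E₁ * (‖F z‖ * Real.exp (A * s ^ β)) := by rw [h7]
    _ ≤ p * E₁ * ((1 / s * (5 * Real.circleAverage (fun x => ‖g x‖ ^ p - ‖f x‖ ^ p) 0 r)) *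
        Real.exp (A * s ^ β)) := by gcongr
    _ = _ := by ring

end Pool.Agent.MPccab6c
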