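import Mathlib
import Pool.Agent.Lib.MP_ccab6c_rate.Pointwise3
import Pool.Agent.Lib.MP_ccab6c_rate.Polar
import Pool.Agent.Lib.MP_ccab6c_rate.Kappa

set_option autoImplicit false

/-! Large exponents: every radius `1 - δ` with `(p - 1) δ² ≥ 50000 log p` is admissible. -/

open Complex Metric Set Filter Topology MeasureTheory

namespace Pool.Agent.MPccab6c

/-- The pointwise bound integrated over the window of radii. -/
theorem window_bound {f g : ℂ → ℂ} {p δ : ℝ} (hp : 100 ≤ p) (hδ0 : 0 < δ) (hδ : δ ≤ 1 / 2)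
    (hh : 50000 * Real.log p ≤ (p - 1) * δ ^ 2)
    (hf : DifferentiableOn ℂ f (ball 0 1)) (hg : DifferentiableOn ℂ g (ball 0 1))
    (hfg : ∀ z : ℂ, 1 - δ < ‖z‖ → ‖z‖ < 1 → ‖f z‖ ≤ ‖g z‖)
    (hne : ∀ z ∈ ball (0:ℂ) 1, ∀ᶠ x in 𝓝[≠] z, g x ≠ 0)
    {b : ℂ} (hb : ‖b‖ ≤ 1 - δ) (hgb : g b = 0) {z : ℂ} (hz : ‖z‖ ≤ 1 - δ) :
    ‖f z‖ ^ p - ‖g z‖ ^ p ≤ 4 / 3 * ∫ ρ in (1 - 2 * δ / 3)..(1 - δ / 3),
      Real.circleAverage (fun x => ‖g x‖ ^ p - ‖f x‖ ^ p) 0 ρ := by
  have hU : IsOpen {z : ℂ | 1 - δ < ‖z‖ ∧ ‖z‖ < 1} :=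
    (isOpen_lt continuous_const continuous_norm).inter (isOpen_lt continuous_norm continuous_const)
  have hUb : {z : ℂ | 1 - δ < ‖z‖ ∧ ‖z‖ < 1} ⊆ ball (0:ℂ) 1 := by
    intro x hx; simpa using hx.2
  obtain ⟨w, hw, hw1, hfw⟩ := quot_exists hU (hf.mono hUb) (hg.mono hUb)
    (fun z hz => hfg z hz.1 hz.2) (fun z hz => hne z (hUb hz))
  set l : ℝ := Real.log (3 / δ) with hl
  have hl1 : 1 < l := by
    rw [hl, Real.lt_log_iff_exp_lt (by positivity)]
    have h1 := Real.exp_one_lt_d9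
    have h2 : (6:ℝ) ≤ 3 / δ := by
      rw [le_div_iff₀ hδ0]; linarith
    linarith
  have hl0 : 0 < l := by linarith
  have hβ0 : 0 < 1 - 1 / l := by
    have : 1 / l < 1 := by rw [div_lt_one hl0]; exact hl1
    linarith
  have hβ1 : 1 - 1 / l < 1 := by
    have : 0 < 1 / l := by positivity
    linarith
  -- the finite set of bad radii
  have hfin : {x : ℂ | x ∈ closedBall (0:ℂ) (1 - δ / 3) ∧ g x = 0}.Finite :=
    zeros_finite (isCompact_closedBall _ _)
      (fun x hx => hne x (closedBall_subset_ball (by linarith) hx))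
  set bad : Set ℝ := (fun x : ℂ => ‖x‖) '' {x : ℂ | x ∈ closedBall (0:ℂ) (1 - δ / 3) ∧ g x = 0} with hbad
  have hbadfin : bad.Finite := hfin.image _
  have hHcont : ContinuousOn (fun x : ℂ => ‖g x‖ ^ p - ‖f x‖ ^ p) (ball 0 1) := by
    refine ContinuousOn.sub ?_ ?_
    · exact hg.continuousOn.norm.rpow_const (fun x _ => Or.inr (by linarith))
    · exact hf.continuousOn.norm.rpow_const (fun x _ => Or.inr (by linarith))
  have hAcont : ContinuousOn (fun ρ : ℝ => Real.circleAverage (fun x : ℂ => ‖g x‖ ^ p - ‖f x‖ ^ p) 0 ρ)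
      (Icc (1 - 2 * δ / 3) (1 - δ / 3)) := by
    apply _root_.Real.ContinuousOn.circleAverage
    · apply hHcont.mono
      intro x hx
      have hx' : ‖x - 0‖ ∈ Icc (1 - 2 * δ / 3) (1 - δ / 3) := hx
      rw [sub_zero] at hx'
      simp only [mem_ball, dist_zero_right]
      linarith [hx'.2]
    · intro r hr; linarith [hr.1]
  have hpt : ∀ r ∈ Icc (1 - 2 * δ / 3) (1 - δ / 3), r ∉ bad →
      ‖f z‖ ^ p - ‖g z‖ ^ p ≤ 4 / 9 * δ *
        Real.circleAverage (fun x => ‖g x‖ ^ p - ‖f x‖ ^ p) 0 r := by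
    intro r hr hrb
    have hgr : ∀ x : ℂ, ‖x‖ = r → g x ≠ 0 := by
      intro x hx hgx
      apply hrb
      refine ⟨x, ⟨?_, hgx⟩, hx⟩
      simp only [mem_closedBall, dist_zero_right]; linarith [hr.2]
    have h1 := main_pointwise (f := f) (g := g) (w := w) (c := 1 - δ) (r := r) (R := δ / 3)
      (p := p) (β := 1 - 1 / l) (by linarith) (by linarith [hr.1]) (by linarith [hr.2])
      (by positivity) (by linarith [hr.1]) (by linarith [hr.2]) (by linarith) hβ0 hβ1 hf hg hfg hne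
      hw (fun x h1 h2 => hw1 x ⟨h1, h2⟩) (fun x h1 h2 => hfw x ⟨h1, h2⟩) hgr hb hgb hz
    refine h1.trans ?_
    have h2 := kappa_bound hp hδ0 hδ hh hr.1 hr.2 (norm_nonneg z) hz
    rw [← hl] at h2
    have hnn : 0 ≤ Real.circleAverage (fun x => ‖g x‖ ^ p - ‖f x‖ ^ p) 0 r := by
      apply Real.circleAverage_nonneg_of_nonneg
      intro x hx
      rw [abs_of_pos (by linarith [hr.1])] at hx
      have hx' : ‖x‖ = r := by simpa using hx
      have : ‖f x‖ ^ p ≤ ‖g x‖ ^ p :=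
        Real.rpow_le_rpow (norm_nonneg _) (hfg x (by linarith [hr.1]) (by linarith [hr.2]))
          (by linarith)
      linarith
    exact mul_le_mul_of_nonneg_right h2 hnn
  have hle : (1 - 2 * δ / 3) ≤ (1 - δ / 3) := by linarith
  have hint : IntervalIntegrable (fun ρ : ℝ => 4 / 9 * δ *
      Real.circleAverage (fun x : ℂ => ‖g x‖ ^ p - ‖f x‖ ^ p) 0 ρ) volume
      (1 - 2 * δ / 3) (1 - δ / 3) := by
    apply ContinuousOn.intervalIntegrable
    rw [uIcc_of_le hle]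
    exact continuousOn_const.mul hAcont
  have hmono : ∫ _ρ in (1 - 2 * δ / 3)..(1 - δ / 3), (‖f z‖ ^ p - ‖g z‖ ^ p) ≤
      ∫ ρ in (1 - 2 * δ / 3)..(1 - δ / 3), 4 / 9 * δ *
        Real.circleAverage (fun x : ℂ => ‖g x‖ ^ p - ‖f x‖ ^ p) 0 ρ := by
    apply intervalIntegral.integral_mono_ae_restrict hle (by simp) hint
    have hae : ∀ᵐ ρ : ℝ, ρ ∉ bad := by
      have := hbadfin.measure_zero (volume : Measure ℝ)
      exact measure_eq_zero_iff_ae_notMem.mp this
    filter_upwards [ae_restrict_mem measurableSet_Icc, ae_restrict_of_ae hae] with ρ h1 h2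
    exact hpt ρ h1 h2
  rw [intervalIntegral.integral_const, intervalIntegral.integral_const_mul, smul_eq_mul] at hmono
  have hw' : (1 - δ / 3) - (1 - 2 * δ / 3) = δ / 3 := by ring
  rw [hw'] at hmono
  have h9 : δ / 3 * (‖f z‖ ^ p - ‖g z‖ ^ p) ≤ δ / 3 * (4 / 3 * ∫ ρ in (1 - 2 * δ / 3)..(1 - δ / 3),
      Real.circleAverage (fun x => ‖g x‖ ^ p - ‖f x‖ ^ p) 0 ρ) := by
    refine hmono.trans (le_of_eq ?_)
    ring
  exact le_of_mul_le_mul_left h9 (by positivity)

/-- The integral inequality on the closed disc of radius `1 - δ` together with a window. -/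
theorem integral_balance {f g : ℂ → ℂ} {p δ : ℝ} (hp : 100 ≤ p) (hδ0 : 0 < δ) (hδ : δ ≤ 1 / 2)
    (hh : 50000 * Real.log p ≤ (p - 1) * δ ^ 2)
    (hf : DifferentiableOn ℂ f (ball 0 1)) (hg : DifferentiableOn ℂ g (ball 0 1))
    (hfg : ∀ z : ℂ, 1 - δ < ‖z‖ → ‖z‖ < 1 → ‖f z‖ ≤ ‖g z‖)
    (hne : ∀ z ∈ ball (0:ℂ) 1, ∀ᶠ x in 𝓝[≠] z, g x ≠ 0)
    {b : ℂ} (hb : ‖b‖ ≤ 1 - δ) (hgb : g b = 0) :
    0 ≤ (∫ z in closedBall (0:ℂ) (1 - δ), (‖g z‖ ^ p - ‖f z‖ ^ p)) +
      ∫ z in {z : ℂ | 1 - 2 * δ / 3 < ‖z‖ ∧ ‖z‖ < 1 - δ / 3}, (‖g z‖ ^ p - ‖f z‖ ^ p) := by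
  set H : ℂ → ℝ := fun x => ‖g x‖ ^ p - ‖f x‖ ^ p with hH
  have hHcont : ContinuousOn H (ball 0 1) := by
    refine ContinuousOn.sub ?_ ?_
    · exact hg.continuousOn.norm.rpow_const (fun x _ => Or.inr (by linarith))
    · exact hf.continuousOn.norm.rpow_const (fun x _ => Or.inr (by linarith))
  have hsub : {z : ℂ | ‖z‖ ∈ Icc (1 - 2 * δ / 3) (1 - δ / 3)} ⊆ ball 0 1 := by
    intro x hx
    have hx' : ‖x‖ ∈ Icc (1 - 2 * δ / 3) (1 - δ / 3) := hx
    simp only [mem_ball, dist_zero_right]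
    linarith [hx'.2]
  have hle : (1 - 2 * δ / 3) ≤ (1 - δ / 3) := by linarith
  have hAcont : ContinuousOn (fun ρ : ℝ => Real.circleAverage H 0 ρ)
      (Icc (1 - 2 * δ / 3) (1 - δ / 3)) := by
    apply _root_.Real.ContinuousOn.circleAverage
    · apply hHcont.mono
      intro x hx
      have hx' : ‖x - 0‖ ∈ Icc (1 - 2 * δ / 3) (1 - δ / 3) := hx
      rw [sub_zero] at hx'
      exact hsub hx'
    · intro r hr; linarith [hr.1]
  have hAnn : ∀ ρ ∈ Icc (1 - 2 * δ / 3) (1 - δ / 3), 0 ≤ Real.circleAverage H 0 ρ := by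
    intro r hr
    apply Real.circleAverage_nonneg_of_nonneg
    intro x hx
    rw [abs_of_pos (by linarith [hr.1])] at hx
    have hx' : ‖x‖ = r := by simpa using hx
    have : ‖f x‖ ^ p ≤ ‖g x‖ ^ p :=
      Real.rpow_le_rpow (norm_nonneg _) (hfg x (by linarith [hr.1]) (by linarith [hr.2]))
        (by linarith)
    rw [hH]; simp only; linarith
  set S : ℝ := ∫ ρ in (1 - 2 * δ / 3)..(1 - δ / 3), Real.circleAverage H 0 ρ with hS
  have hSnn : 0 ≤ S := by
    rw [hS]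
    exact intervalIntegral.integral_nonneg hle hAnn
  -- the window
  rw [annulus_integral (by linarith) hle (hHcont.mono hsub)]
  have hwin : 4 / 3 * Real.pi * S ≤ ∫ ρ in (1 - 2 * δ / 3)..(1 - δ / 3),
      2 * Real.pi * ρ * Real.circleAverage H 0 ρ := by
    rw [hS, ← intervalIntegral.integral_const_mul]
    apply intervalIntegral.integral_mono_on hle
    · apply ContinuousOn.intervalIntegrable
      rw [uIcc_of_le hle]
      exact continuousOn_const.mul hAcont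
    · apply ContinuousOn.intervalIntegrable
      rw [uIcc_of_le hle]
      exact (continuousOn_const.mul continuousOn_id).mul hAcont
    · intro ρ hρ
      have h1 := hAnn ρ hρ
      have h2 : 2 / 3 ≤ ρ := by linarith [hρ.1]
      have hpi := Real.pi_pos
      have h3 : 4 / 3 * Real.pi ≤ 2 * Real.pi * ρ := by nlinarith
      exact mul_le_mul_of_nonneg_right h3 h1
  -- the inner disc
  have hin : -(4 / 3 * S) * Real.pi ≤ ∫ z in closedBall (0:ℂ) (1 - δ), H z := by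
    have hcb : closedBall (0:ℂ) (1 - δ) ⊆ ball 0 1 := closedBall_subset_ball (by linarith)
    have hint : IntegrableOn H (closedBall (0:ℂ) (1 - δ)) :=
      (hHcont.mono hcb).integrableOn_compact (isCompact_closedBall _ _)
    have hfin : volume (closedBall (0:ℂ) (1 - δ)) ≠ ⊤ :=
      (isCompact_closedBall _ _).measure_lt_top.ne
    have h1 : ∫ _z in closedBall (0:ℂ) (1 - δ), (-(4 / 3 * S)) ≤
        ∫ z in closedBall (0:ℂ) (1 - δ), H z := by
      apply setIntegral_mono_on (integrableOn_const hfin) hint measurableSet_closedBall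
      intro z hz
      have hz' : ‖z‖ ≤ 1 - δ := by simpa using hz
      have h2 := window_bound hp hδ0 hδ hh hf hg hfg hne hb hgb hz'
      rw [← hH, ← hS] at h2
      rw [hH]; simp only; linarith
    rw [setIntegral_const, smul_eq_mul] at h1
    have hvol : volume.real (closedBall (0:ℂ) (1 - δ)) ≤ Real.pi := by
      rw [Measure.real, Complex.volume_closedBall]
      have h3 : ENNReal.ofReal (1 - δ) ^ 2 * (NNReal.pi : ENNReal) ≤ (NNReal.pi : ENNReal) := by
        have h4 : ENNReal.ofReal (1 - δ) ≤ 1 := by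
          rw [ENNReal.ofReal_le_one]; linarith
        calc ENNReal.ofReal (1 - δ) ^ 2 * (NNReal.pi : ENNReal) ≤ 1 ^ 2 * (NNReal.pi : ENNReal) := by
              gcongr
          _ = _ := by simp
      have h5 := ENNReal.toReal_mono ENNReal.coe_ne_top h3
      simpa using h5
    have h6 : -(4 / 3 * S) * Real.pi ≤ volume.real (closedBall (0:ℂ) (1 - δ)) * -(4 / 3 * S) := by
      nlinarith [measureReal_nonneg (μ := (volume : Measure ℂ)) (s := closedBall (0:ℂ) (1 - δ))]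
    exact h6.trans h1
  have : -(4 / 3 * S) * Real.pi + 4 / 3 * Real.pi * S = 0 := by ring
  linarith

end Pool.Agent.MPccab6c
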