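import Mathlib
import Pool.Agent.Lib.MP_ccab6c_rate.PartB

set_option autoImplicit false

/-! Large exponents: every radius `1 - δ` with `(p - 1) δ² ≥ 50000 log p` is admissible. -/

open Complex Metric Set Filter Topology MeasureTheory

namespace Pool.Agent.MPccab6c

theorem enorm_rpow_eq {p : ℝ} (hp : 0 ≤ p) (x : ℂ) : ‖x‖ₑ ^ p = ENNReal.ofReal (‖x‖ ^ p) := by
  rw [← ofReal_norm_eq_enorm, ENNReal.ofReal_rpow_of_nonneg (norm_nonneg _) hp]

/-- Lower integral of a power of the norm over a set inside a compact set, as a real integral. -/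
theorem lintegral_eq_ofReal {f : ℂ → ℂ} {p : ℝ} (hp : 0 ≤ p) {S K : Set ℂ} (hS : S ⊆ K)
    (hK : IsCompact K) (hf : ContinuousOn f K) :
    IntegrableOn (fun z => ‖f z‖ ^ p) S ∧
    ∫⁻ z in S, ‖f z‖ₑ ^ p = ENNReal.ofReal (∫ z in S, ‖f z‖ ^ p) := by
  have hc : ContinuousOn (fun z => ‖f z‖ ^ p) K := hf.norm.rpow_const (fun x _ => Or.inr hp)
  have hi : IntegrableOn (fun z => ‖f z‖ ^ p) S := (hc.integrableOn_compact hK).mono_set hS
  refine ⟨hi, ?_⟩
  rw [ofReal_integral_eq_lintegral_ofReal hi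
    (Filter.Eventually.of_forall fun z => Real.rpow_nonneg (norm_nonneg _) _)]
  refine lintegral_congr fun z => ?_
  exact enorm_rpow_eq hp _

/-- The case where `g` has no zero in the small closed disc. -/
theorem le_of_no_zero {f g : ℂ → ℂ} {c : ℝ} (hc0 : 0 < c) (hc1 : c < 1)
    (hf : DifferentiableOn ℂ f (ball 0 1)) (hg : DifferentiableOn ℂ g (ball 0 1))
    (hfg : ∀ z : ℂ, c < ‖z‖ → ‖z‖ < 1 → ‖f z‖ ≤ ‖g z‖)
    (h0 : ∀ z : ℂ, ‖z‖ ≤ c → g z ≠ 0) {z : ℂ} (hz : ‖z‖ ≤ c) : ‖f z‖ ≤ ‖g z‖ := by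
  have hopen : IsOpen (ball (0:ℂ) 1 ∩ {z | g z ≠ 0}) :=
    hg.continuousOn.isOpen_inter_preimage isOpen_ball isOpen_ne
  have hsub : closedBall (0:ℂ) c ⊆ ball (0:ℂ) 1 ∩ {z | g z ≠ 0} := by
    intro x hx
    exact ⟨closedBall_subset_ball hc1 hx, h0 x (by simpa using hx)⟩
  obtain ⟨ε, hε, hsub2⟩ := (isCompact_closedBall (0:ℂ) c).exists_thickening_subset_open hopen hsub
  rw [thickening_closedBall hε hc0.le] at hsub2
  set e : ℝ := c + ε / 2 with he
  have he0 : 0 < e := by rw [he]; linarith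
  have hce : c < e := by rw [he]; linarith
  have hsub3 : closedBall (0:ℂ) e ⊆ ball (0:ℂ) 1 ∩ {z | g z ≠ 0} := by
    refine (closedBall_subset_ball ?_).trans hsub2
    rw [he]; linarith
  have hd : DifferentiableOn ℂ (fun x => f x / g x) (ball (0:ℂ) 1 ∩ {z | g z ≠ 0}) :=
    (hf.mono inter_subset_left).div (hg.mono inter_subset_left) (fun x hx => hx.2)
  have hcl : closure (ball (0:ℂ) e) = closedBall 0 e := closure_ball 0 he0.ne'
  have hfr : frontier (ball (0:ℂ) e) = sphere 0 e := frontier_ball 0 he0.ne'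
  have hdc : DiffContOnCl ℂ (fun x => f x / g x) (ball 0 e) := by
    refine ⟨hd.mono (ball_subset_closedBall.trans hsub3), ?_⟩
    rw [hcl]
    exact hd.continuousOn.mono hsub3
  have h1 : ‖f z / g z‖ ≤ 1 := by
    refine Complex.norm_le_of_forall_mem_frontier_norm_le (f := fun x => f x / g x)
      isBounded_ball hdc ?_ ?_
    · intro x hx
      rw [hfr] at hx
      have hx' : ‖x‖ = e := by simpa using hx
      have hx1 : x ∈ ball (0:ℂ) 1 := (hsub3 (by simp [hx'])).1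
      have hx1' : ‖x‖ < 1 := by simpa using hx1
      show ‖f x / g x‖ ≤ 1
      rw [norm_div]
      exact div_le_one_of_le₀ (hfg x (by linarith) hx1') (norm_nonneg _)
    · rw [hcl]
      have : ‖z‖ ≤ e := by linarith
      simpa using this
  have hgz : 0 < ‖g z‖ := norm_pos_iff.mpr (h0 z hz)
  rw [norm_div, div_le_one hgz] at h1
  exact h1

/-- Either `g` vanishes identically on the disc or its zeros are isolated. -/
theorem zero_or_isolated {g : ℂ → ℂ} (hg : DifferentiableOn ℂ g (ball 0 1)) :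
    (∀ z ∈ ball (0:ℂ) 1, g z = 0) ∨ (∀ z ∈ ball (0:ℂ) 1, ∀ᶠ x in 𝓝[≠] z, g x ≠ 0) := by
  by_cases h : ∀ z ∈ ball (0:ℂ) 1, ∀ᶠ x in 𝓝[≠] z, g x ≠ 0
  · exact Or.inr h
  · left
    push Not at h
    obtain ⟨z₀, hz₀, hfreq⟩ := h
    have han : AnalyticOnNhd ℂ g (ball 0 1) := hg.analyticOnNhd isOpen_ball
    have h2 := han.eqOn_zero_of_preconnected_of_frequently_eq_zero
      (convex_ball (0:ℂ) 1).isPreconnected hz₀ (by
        refine hfreq.mono ?_
        intro x hx
        simpa using hx)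
    intro z hz
    exact h2 hz

/-- Admissibility of `1 - δ`. -/
theorem admissible_of_large {p δ : ℝ} (hp : 100 ≤ p) (hδ0 : 0 < δ) (hδ : δ ≤ 1 / 2)
    (hh : 50000 * Real.log p ≤ (p - 1) * δ ^ 2) (f g : ℂ → ℂ)
    (hf : DifferentiableOn ℂ f (ball 0 1)) (hg : DifferentiableOn ℂ g (ball 0 1))
    (hfg : ∀ z : ℂ, 1 - δ < ‖z‖ → ‖z‖ < 1 → ‖f z‖ ≤ ‖g z‖) :
    ∫⁻ z in ball (0:ℂ) 1, ‖f z‖ₑ ^ p ≤ ∫⁻ z in ball (0:ℂ) 1, ‖g z‖ₑ ^ p := by
  have hp0 : 0 ≤ p := by linarith
  rcases zero_or_isolated hg with hg0 | hne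
  · -- `g` is zero, so `f` is zero
    have hf0 : ∀ z ∈ ball (0:ℂ) 1, f z = 0 := by
      rcases zero_or_isolated hf with h | h
      · exact h
      · exfalso
        have hx : (((1 - δ / 2 : ℝ)) : ℂ) ∈ ball (0:ℂ) 1 := by
          simp only [mem_ball, dist_zero_right, Complex.norm_real, Real.norm_eq_abs]
          rw [abs_of_pos (by linarith)]; linarith
        have h1 := h _ hx
        have h2 : ∀ᶠ x in 𝓝 (((1 - δ / 2 : ℝ)) : ℂ), 1 - δ < ‖x‖ ∧ ‖x‖ < 1 := by
          have hopen : IsOpen {z : ℂ | 1 - δ < ‖z‖ ∧ ‖z‖ < 1} :=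
            (isOpen_lt continuous_const continuous_norm).inter
              (isOpen_lt continuous_norm continuous_const)
          refine hopen.mem_nhds ?_
          show 1 - δ < ‖(((1 - δ / 2 : ℝ)) : ℂ)‖ ∧ ‖(((1 - δ / 2 : ℝ)) : ℂ)‖ < 1
          rw [Complex.norm_real, Real.norm_eq_abs, abs_of_pos (by linarith)]
          constructor <;> linarith
        have h3 : ∀ᶠ x in 𝓝[≠] (((1 - δ / 2 : ℝ)) : ℂ), 1 - δ < ‖x‖ ∧ ‖x‖ < 1 :=
          nhdsWithin_le_nhds h2
        obtain ⟨x, hx1, hx2⟩ := (h1.and h3).exists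
        apply hx1
        have h4 := hfg x hx2.1 hx2.2
        rw [hg0 x (by simpa using hx2.2), norm_zero] at h4
        exact norm_le_zero_iff.mp h4
    refine lintegral_mono_ae ?_
    filter_upwards [ae_restrict_mem measurableSet_ball] with z hz
    rw [hf0 z hz, hg0 z hz]
  by_cases hb : ∃ b : ℂ, ‖b‖ ≤ 1 - δ ∧ g b = 0
  · obtain ⟨b, hb1, hb2⟩ := hb
    have hbal := integral_balance hp hδ0 hδ hh hf hg hfg hne hb1 hb2
    set K : Set ℂ := closedBall (0:ℂ) (1 - δ / 3) with hK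
    set A : Set ℂ := closedBall (0:ℂ) (1 - δ) with hA
    set B : Set ℂ := {z : ℂ | 1 - 2 * δ / 3 < ‖z‖ ∧ ‖z‖ < 1 - δ / 3} with hB
    have hKc : IsCompact K := isCompact_closedBall _ _
    have hK1 : K ⊆ ball (0:ℂ) 1 := closedBall_subset_ball (by linarith)
    have hAK : A ⊆ K := closedBall_subset_closedBall (by linarith)
    have hBK : B ⊆ K := by
      intro x hx
      have hx' : 1 - 2 * δ / 3 < ‖x‖ ∧ ‖x‖ < 1 - δ / 3 := hx
      simp only [hK, mem_closedBall, dist_zero_right]; linarith [hx'.2]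
    have hAm : MeasurableSet A := measurableSet_closedBall
    have hBm : MeasurableSet B := by
      have : IsOpen B := (isOpen_lt continuous_const continuous_norm).inter
        (isOpen_lt continuous_norm continuous_const)
      exact this.measurableSet
    have hdisj : Disjoint A B := by
      rw [Set.disjoint_left]
      intro x hx1 hx2
      have h1 : ‖x‖ ≤ 1 - δ := by simpa [hA] using hx1
      have h2 : 1 - 2 * δ / 3 < ‖x‖ ∧ ‖x‖ < 1 - δ / 3 := hx2
      linarith [h2.1]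
    have hABsub : A ∪ B ⊆ ball (0:ℂ) 1 := union_subset (hAK.trans hK1) (hBK.trans hK1)
    have hsplit : ∀ F : ℂ → ENNReal, ∫⁻ z in ball (0:ℂ) 1, F z =
        (∫⁻ z in A, F z) + (∫⁻ z in B, F z) + ∫⁻ z in ball (0:ℂ) 1 \ (A ∪ B), F z := by
      intro F
      rw [← lintegral_union hBm hdisj,
        ← lintegral_union (measurableSet_ball.diff (hAm.union hBm)) disjoint_sdiff_right,
        union_sdiff_cancel hABsub]
    rw [hsplit, hsplit]
    obtain ⟨hfA, hfA2⟩ := lintegral_eq_ofReal hp0 hAK hKc (hf.continuousOn.mono hK1)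
    obtain ⟨hfB, hfB2⟩ := lintegral_eq_ofReal hp0 hBK hKc (hf.continuousOn.mono hK1)
    obtain ⟨hgA, hgA2⟩ := lintegral_eq_ofReal hp0 hAK hKc (hg.continuousOn.mono hK1)
    obtain ⟨hgB, hgB2⟩ := lintegral_eq_ofReal hp0 hBK hKc (hg.continuousOn.mono hK1)
    rw [hfA2, hfB2, hgA2, hgB2]
    have hnn : ∀ (F : ℂ → ℂ) (S : Set ℂ), 0 ≤ ∫ z in S, ‖F z‖ ^ p := fun F S =>
      integral_nonneg fun z => Real.rpow_nonneg (norm_nonneg _) _
    rw [← ENNReal.ofReal_add (hnn f A) (hnn f B), ← ENNReal.ofReal_add (hnn g A) (hnn g B)]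
    rw [integral_sub hgA hfA, integral_sub hgB hfB] at hbal
    refine add_le_add (ENNReal.ofReal_le_ofReal (by linarith)) ?_
    refine lintegral_mono_ae ?_
    filter_upwards [ae_restrict_mem (measurableSet_ball.diff (hAm.union hBm))] with z hz
    have hz1 : ‖z‖ < 1 := by simpa using hz.1
    have hz2 : 1 - δ < ‖z‖ := by
      by_contra hcon
      push Not at hcon
      exact hz.2 (Or.inl (by simpa [hA] using hcon))
    have h5 : ‖f z‖ₑ ≤ ‖g z‖ₑ := by
      rw [← ofReal_norm_eq_enorm, ← ofReal_norm_eq_enorm]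
      exact ENNReal.ofReal_le_ofReal (hfg z hz2 hz1)
    exact ENNReal.rpow_le_rpow h5 hp0
  · push Not at hb
    refine lintegral_mono_ae ?_
    filter_upwards [ae_restrict_mem measurableSet_ball] with z hz
    have hz1 : ‖z‖ < 1 := by simpa using hz
    have h5 : ‖f z‖ ≤ ‖g z‖ := by
      rcases le_or_gt ‖z‖ (1 - δ) with h6 | h6
      · exact le_of_no_zero (by linarith) (by linarith) hf hg hfg (fun x hx => hb x hx) h6
      · exact hfg z h6 hz1
    have h7 : ‖f z‖ₑ ≤ ‖g z‖ₑ := by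
      rw [← ofReal_norm_eq_enorm, ← ofReal_norm_eq_enorm]
      exact ENNReal.ofReal_le_ofReal h5
    exact ENNReal.rpow_le_rpow h7 hp0

end Pool.Agent.MPccab6c
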