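import Mathlib
import Pool.Agent.Lib.MP_ccab6c_rate.ExB
import Pool.Agent.Lib.MP_ccab6c_rate.PartB2

set_option autoImplicit false

/-! The example showing `1 - c(p) ≥ const / sqrt p`: integration. -/

open Complex Metric Set Filter Topology MeasureTheory

namespace Pool.Agent.MPccab6c

theorem eK_diff {p δ : ℝ} (hδ0 : 0 < δ) (hδ : δ ≤ 1 / 300000) {z : ℂ} (hz : ‖z‖ ≤ 1) :
    DifferentiableAt ℂ (eK p δ) z := by
  obtain ⟨ha0, ha1, _, _⟩ := params hδ0 hδ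
  have h1 : 1 - (ea δ : ℂ) * z ∈ slitPlane := by
    left
    have := one_sub_re ha0 ha1 hz
    linarith
  have h2 : DifferentiableAt ℂ (fun z : ℂ => 1 - (ea δ : ℂ) * z) z := by fun_prop
  exact ((h2.clog h1).const_mul (((4 / p : ℝ) : ℂ))).neg.cexp

theorem ef_diff {p δ : ℝ} (hδ0 : 0 < δ) (hδ : δ ≤ 1 / 300000) {z : ℂ} (hz : ‖z‖ ≤ 1) :
    DifferentiableAt ℂ (ef p δ) z := by
  obtain ⟨_, _, hb0, hb1⟩ := params hδ0 hδ
  have h1 : DifferentiableAt ℂ (fun z : ℂ => (1 - (eb δ : ℂ) * z) / (1 + (eb δ : ℂ) * z)) z := by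
    refine DifferentiableAt.div (by fun_prop) (by fun_prop) ?_
    exact one_add_ne hb0 hb1 hz
  exact (eK_diff hδ0 hδ hz).mul (h1.const_mul (eγ δ : ℂ)).neg.cexp

theorem eg_diff {p δ : ℝ} (hδ0 : 0 < δ) (hδ : δ ≤ 1 / 300000) {z : ℂ} (hz : ‖z‖ ≤ 1) :
    DifferentiableAt ℂ (eg p δ) z := by
  obtain ⟨_, _, hb0, hb1⟩ := params hδ0 hδ
  have h1 : DifferentiableAt ℂ (fun z : ℂ => (z + (eb δ : ℂ)) / (1 + (eb δ : ℂ) * z)) z := by
    refine DifferentiableAt.div (by fun_prop) (by fun_prop) ?_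
    exact one_add_ne hb0 hb1 hz
  exact (eK_diff hδ0 hδ hz).mul h1

/-- The integral over the layer. -/
theorem layer_integral {δ : ℝ} (hδ0 : 0 < δ) (hδ : δ ≤ 1 / 300000) :
    IntegrableOn (fun z : ℂ => (2000 * δ)⁻¹ ^ 2 * (1 / ‖1 - (ea δ : ℂ) * z‖ ^ 2) +
      16 * (1 / ‖1 - ((-eb δ : ℝ) : ℂ) * z‖ ^ 2)) {z : ℂ | 1 - 4 * δ < ‖z‖ ∧ ‖z‖ < 1} ∧
    ∫ z in {z : ℂ | 1 - 4 * δ < ‖z‖ ∧ ‖z‖ < 1},
      ((2000 * δ)⁻¹ ^ 2 * (1 / ‖1 - (ea δ : ℂ) * z‖ ^ 2) +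
      16 * (1 / ‖1 - ((-eb δ : ℝ) : ℂ) * z‖ ^ 2)) ≤
      8 * Real.pi * δ * ((2000 * δ)⁻¹ ^ 3 + 16 / (9.9 * δ)) := by
  obtain ⟨ha0, ha1, hb0, hb1⟩ := params hδ0 hδ
  obtain ⟨hv1, hv2, _, _⟩ := gamma_bounds hδ0 hδ
  set H : ℂ → ℝ := fun z : ℂ => (2000 * δ)⁻¹ ^ 2 * (1 / ‖1 - (ea δ : ℂ) * z‖ ^ 2) +
      16 * (1 / ‖1 - ((-eb δ : ℝ) : ℂ) * z‖ ^ 2) with hH
  have hcont : ContinuousOn H (closedBall 0 1) := by
    refine ContinuousOn.add (continuousOn_const.mul ?_) (continuousOn_const.mul ?_)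
    · refine ContinuousOn.div (by fun_prop) (by fun_prop) ?_
      intro z hz
      have hz' : ‖z‖ ≤ 1 := by simpa using hz
      have := norm_pos_iff.mpr (one_sub_ne ha0 ha1 hz')
      positivity
    · refine ContinuousOn.div (by fun_prop) (by fun_prop) ?_
      intro z hz
      have hz' : ‖z‖ ≤ 1 := by simpa using hz
      have h1 := one_add_ne hb0 hb1 hz'
      have h2 : 1 - ((-eb δ : ℝ) : ℂ) * z = 1 + (eb δ : ℂ) * z := by push_cast; ring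
      rw [h2]
      have := norm_pos_iff.mpr h1
      positivity
  have hsub : {z : ℂ | ‖z‖ ∈ Icc (1 - 4 * δ) 1} ⊆ closedBall 0 1 := by
    intro x hx
    have hx' : ‖x‖ ∈ Icc (1 - 4 * δ) 1 := hx
    simpa using hx'.2
  have hsub2 : {z : ℂ | 1 - 4 * δ < ‖z‖ ∧ ‖z‖ < 1} ⊆ closedBall 0 1 := by
    intro x hx
    have hx' : 1 - 4 * δ < ‖x‖ ∧ ‖x‖ < 1 := hx
    simpa using hx'.2.le
  refine ⟨(hcont.integrableOn_compact (isCompact_closedBall _ _)).mono_set hsub2, ?_⟩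
  have hle : 1 - 4 * δ ≤ 1 := by linarith
  rw [annulus_integral (by linarith) hle (hcont.mono hsub)]
  have hAcont : ContinuousOn (fun ρ : ℝ => Real.circleAverage H 0 ρ) (Icc (1 - 4 * δ) 1) := by
    apply _root_.Real.ContinuousOn.circleAverage
    · apply hcont.mono
      intro x hx
      have hx' : ‖x - 0‖ ∈ Icc (1 - 4 * δ) 1 := hx
      rw [sub_zero] at hx'
      exact hsub hx'
    · intro r hr; linarith [hr.1]
  have hbound : ∀ ρ ∈ Icc (1 - 4 * δ) 1, 2 * Real.pi * ρ * Real.circleAverage H 0 ρ ≤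
      2 * Real.pi * ((2000 * δ)⁻¹ ^ 3 + 16 / (9.9 * δ)) := by
    intro ρ hρ
    have hρ0 : 0 < ρ := by linarith [hρ.1]
    have hρ1 : ρ ≤ 1 := hρ.2
    have h1 := circ_inv_sq (t := ea δ) hρ0 (by rw [abs_of_nonneg ha0]; nlinarith)
    have h2 := circ_inv_sq (t := -eb δ) hρ0 (by rw [abs_neg, abs_of_nonneg hb0]; nlinarith)
    have h3 : Real.circleAverage H 0 ρ = (2000 * δ)⁻¹ ^ 2 * (1 / (1 - ea δ ^ 2 * ρ ^ 2)) +
        16 * (1 / (1 - (-eb δ) ^ 2 * ρ ^ 2)) := by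
      have h4 : CircleIntegrable (fun z : ℂ => (2000 * δ)⁻¹ ^ 2 * (1 / ‖1 - (ea δ : ℂ) * z‖ ^ 2)) 0 ρ :=
        IntervalIntegrable.const_mul h1.1 _
      have h5 : CircleIntegrable (fun z : ℂ => 16 * (1 / ‖1 - ((-eb δ : ℝ) : ℂ) * z‖ ^ 2)) 0 ρ :=
        IntervalIntegrable.const_mul h2.1 _
      rw [hH, Real.circleAverage_fun_add h4 h5, ← h1.2, ← h2.2]
      congr 1
      · exact Real.circleAverage_fun_smul (a := (2000 * δ)⁻¹ ^ 2)
          (f := fun z : ℂ => 1 / ‖1 - (ea δ : ℂ) * z‖ ^ 2)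
      · exact Real.circleAverage_fun_smul (a := (16:ℝ))
          (f := fun z : ℂ => 1 / ‖1 - ((-eb δ : ℝ) : ℂ) * z‖ ^ 2)
    have hρsq : ρ ^ 2 ≤ 1 := by nlinarith
    have h6 : 2000 * δ ≤ 1 - ea δ ^ 2 * ρ ^ 2 := by
      have h7 : ea δ ^ 2 * ρ ^ 2 ≤ ea δ * 1 := by
        apply mul_le_mul _ hρsq (by positivity) ha0
        nlinarith
      have h8 : ea δ = 1 - 2000 * δ := rfl
      rw [h8] at h7 ⊢; linarith
    have h9 : 9.9 * δ ≤ 1 - (-eb δ) ^ 2 * ρ ^ 2 := by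
      have h10 : (-eb δ) ^ 2 * ρ ^ 2 ≤ (eb δ) ^ 2 * 1 := by
        rw [neg_sq]
        gcongr
      have h11 : eb δ = 1 - 5 * δ := rfl
      rw [h11] at h10 ⊢; linarith
    have h12 : Real.circleAverage H 0 ρ ≤ (2000 * δ)⁻¹ ^ 3 + 16 / (9.9 * δ) := by
      rw [h3]
      have h13 : 1 / (1 - ea δ ^ 2 * ρ ^ 2) ≤ (2000 * δ)⁻¹ := by
        rw [one_div]; gcongr
      have h14 : 1 / (1 - (-eb δ) ^ 2 * ρ ^ 2) ≤ 1 / (9.9 * δ) := by gcongr
      calc (2000 * δ)⁻¹ ^ 2 * (1 / (1 - ea δ ^ 2 * ρ ^ 2)) + 16 * (1 / (1 - (-eb δ) ^ 2 * ρ ^ 2))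
          ≤ (2000 * δ)⁻¹ ^ 2 * (2000 * δ)⁻¹ + 16 * (1 / (9.9 * δ)) := by gcongr
        _ = _ := by ring
    have h15 : 0 ≤ Real.circleAverage H 0 ρ := by
      rw [h3]
      have : 0 < 1 - ea δ ^ 2 * ρ ^ 2 := by linarith
      have : 0 < 1 - (-eb δ) ^ 2 * ρ ^ 2 := by linarith
      positivity
    have hpi := Real.pi_pos
    calc 2 * Real.pi * ρ * Real.circleAverage H 0 ρ ≤ 2 * Real.pi * 1 * Real.circleAverage H 0 ρ := by
          gcongr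
      _ ≤ 2 * Real.pi * 1 * ((2000 * δ)⁻¹ ^ 3 + 16 / (9.9 * δ)) := by gcongr
      _ = _ := by ring
  have hmono : ∫ ρ in (1 - 4 * δ)..1, 2 * Real.pi * ρ * Real.circleAverage H 0 ρ ≤
      ∫ _ρ in (1 - 4 * δ)..1, 2 * Real.pi * ((2000 * δ)⁻¹ ^ 3 + 16 / (9.9 * δ)) := by
    apply intervalIntegral.integral_mono_on hle
    · apply ContinuousOn.intervalIntegrable
      rw [uIcc_of_le hle]
      exact (continuousOn_const.mul continuousOn_id).mul hAcont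
    · exact intervalIntegrable_const
    · exact hbound
  refine hmono.trans (le_of_eq ?_)
  rw [intervalIntegral.integral_const, smul_eq_mul]
  ring

/-- The pair of the example violates the integral inequality. -/
theorem ex_violates {p δ : ℝ} (hp : 0 < p) (hδ0 : 0 < δ) (hδ : δ ≤ 1 / 300000)
    (hpδ : p * δ ^ 2 ≤ 1 / 50000) :
    ¬ (∫⁻ z in ball (0:ℂ) 1, ‖ef p δ z‖ₑ ^ p ≤ ∫⁻ z in ball (0:ℂ) 1, ‖eg p δ z‖ₑ ^ p) := by
  intro hcon
  have hK : IsCompact (closedBall (0:ℂ) 1) := isCompact_closedBall _ _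
  have hfc : ContinuousOn (ef p δ) (closedBall (0:ℂ) 1) := fun z hz =>
    (ef_diff hδ0 hδ (by simpa using hz)).continuousAt.continuousWithinAt
  have hgc : ContinuousOn (eg p δ) (closedBall (0:ℂ) 1) := fun z hz =>
    (eg_diff hδ0 hδ (by simpa using hz)).continuousAt.continuousWithinAt
  obtain ⟨hfi, hf2⟩ := lintegral_eq_ofReal hp.le (ball_subset_closedBall (x := (0:ℂ)) (ε := 1)) hK hfc
  obtain ⟨hgi, hg2⟩ := lintegral_eq_ofReal hp.le (ball_subset_closedBall (x := (0:ℂ)) (ε := 1)) hK hgc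
  rw [hf2, hg2, ENNReal.ofReal_le_ofReal_iff
    (integral_nonneg fun z => Real.rpow_nonneg (norm_nonneg _) _)] at hcon
  set D : ℂ → ℝ := fun z => ‖ef p δ z‖ ^ p - ‖eg p δ z‖ ^ p with hD
  have hDi : IntegrableOn D (ball (0:ℂ) 1) := hfi.sub hgi
  have hDle : ∫ z in ball (0:ℂ) 1, D z ≤ 0 := by
    rw [hD, integral_sub hfi hgi]; linarith
  set G : Set ℂ := ball (((1 - 4000 * δ : ℝ)) : ℂ) (1000 * δ) with hG
  set L : Set ℂ := {z : ℂ | 1 - 4 * δ < ‖z‖ ∧ ‖z‖ < 1} with hL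
  have hGn : ∀ z ∈ G, ‖z‖ ≤ 1 - 3000 * δ := by
    intro z hz
    have hd : ‖z - ((1 - 4000 * δ : ℝ) : ℂ)‖ < 1000 * δ := by simpa [hG, dist_eq_norm] using hz
    have hc : ‖((1 - 4000 * δ : ℝ) : ℂ)‖ = 1 - 4000 * δ := by
      rw [Complex.norm_real, Real.norm_eq_abs, abs_of_pos (by linarith)]
    have := norm_sub_norm_le z ((1 - 4000 * δ : ℝ) : ℂ)
    rw [hc] at this; linarith
  have hGsub : G ⊆ ball (0:ℂ) 1 := by
    intro z hz
    have := hGn z hz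
    simp only [mem_ball, dist_zero_right]; linarith
  have hLo : IsOpen L := (isOpen_lt continuous_const continuous_norm).inter
    (isOpen_lt continuous_norm continuous_const)
  have hGm : MeasurableSet G := measurableSet_ball
  have hLm : MeasurableSet L := hLo.measurableSet
  have hLsub : L ⊆ ball (0:ℂ) 1 := by
    intro z hz
    have hz' : 1 - 4 * δ < ‖z‖ ∧ ‖z‖ < 1 := hz
    simpa using hz'.2
  have hdisj : Disjoint G L := by
    rw [Set.disjoint_left]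
    intro z hz1 hz2
    have h1 := hGn z hz1
    have h2 : 1 - 4 * δ < ‖z‖ ∧ ‖z‖ < 1 := hz2
    linarith [h2.1]
  have hGL : G ∪ L ⊆ ball (0:ℂ) 1 := union_subset hGsub hLsub
  have hsplit : ∫ z in ball (0:ℂ) 1, D z = (∫ z in G, D z) + (∫ z in L, D z) +
      ∫ z in ball (0:ℂ) 1 \ (G ∪ L), D z := by
    rw [← setIntegral_union hdisj hLm (hDi.mono_set hGsub) (hDi.mono_set hLsub),
      ← setIntegral_union disjoint_sdiff_right (measurableSet_ball.diff (hGm.union hLm))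
        (hDi.mono_set hGL) (hDi.mono_set sdiff_subset), union_sdiff_cancel hGL]
  have hrest : 0 ≤ ∫ z in ball (0:ℂ) 1 \ (G ∪ L), D z := by
    apply setIntegral_nonneg (measurableSet_ball.diff (hGm.union hLm))
    intro z hz
    have hz1 : ‖z‖ < 1 := by simpa using hz.1
    have hz2 : ‖z‖ ≤ 1 - 4 * δ := by
      by_contra h
      push Not at h
      exact hz.2 (Or.inr ⟨h, hz1⟩)
    have := ex_inner hp hδ0 hδ hz2
    rw [hD]; simp only; linarith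
  -- the gain
  set e₀ : ℝ := 0.43 * p * δ * (2000 * δ) * ((3.5 * (2000 * δ)) ^ 4)⁻¹ with he₀
  have hgain : e₀ * (Real.pi * (1000 * δ) ^ 2) ≤ ∫ z in G, D z := by
    have hfin : volume G ≠ ⊤ := measure_ball_lt_top.ne
    have h1 : ∫ _z in G, e₀ ≤ ∫ z in G, D z := by
      apply setIntegral_mono_on (integrableOn_const hfin) (hDi.mono_set hGsub) hGm
      intro z hz
      exact ex_good hp hδ0 hδ hpδ hz
    rw [setIntegral_const, smul_eq_mul] at h1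
    have hvol : volume.real G = Real.pi * (1000 * δ) ^ 2 := by
      rw [Measure.real, hG, Complex.volume_ball, ENNReal.toReal_mul, ENNReal.toReal_pow,
        ENNReal.toReal_ofReal (by positivity), mul_comm]
      simp
    rw [hvol] at h1
    linarith
  -- the loss
  obtain ⟨hLi, hLint⟩ := layer_integral hδ0 hδ
  have hloss : -(30.6 * p * δ ^ 2 * (8 * Real.pi * δ * ((2000 * δ)⁻¹ ^ 3 + 16 / (9.9 * δ)))) ≤
      ∫ z in L, D z := by
    have h1 : ∫ z in L, -(30.6 * p * δ ^ 2 * ((2000 * δ)⁻¹ ^ 2 * (1 / ‖1 - (ea δ : ℂ) * z‖ ^ 2) +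
      16 * (1 / ‖1 - ((-eb δ : ℝ) : ℂ) * z‖ ^ 2))) ≤ ∫ z in L, D z := by
      apply setIntegral_mono_on (hLi.const_mul _).neg (hDi.mono_set hLsub) hLm
      intro z hz
      have hz' : 1 - 4 * δ < ‖z‖ ∧ ‖z‖ < 1 := hz
      exact ex_layer hp hδ0 hδ hz'.1 hz'.2
    refine le_trans ?_ h1
    rw [integral_neg, integral_const_mul, neg_le_neg_iff]
    gcongr
  -- conclusion
  have hfinal : 30.6 * p * δ ^ 2 * (8 * Real.pi * δ * ((2000 * δ)⁻¹ ^ 3 + 16 / (9.9 * δ))) <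
      e₀ * (Real.pi * (1000 * δ) ^ 2) := by
    have hpi := Real.pi_pos
    have h1 : 30.6 * p * δ ^ 2 * (8 * Real.pi * δ * ((2000 * δ)⁻¹ ^ 3 + 16 / (9.9 * δ)))
        = p * Real.pi * (30.6 * 8 / 2000 ^ 3 + 30.6 * 8 * 16 / 9.9 * δ ^ 2) := by
      field_simp
    have h2 : e₀ * (Real.pi * (1000 * δ) ^ 2)
        = p * Real.pi * (0.43 * 1000 ^ 2 / (3.5 ^ 4 * 2000 ^ 3)) := by
      rw [he₀]
      field_simp
    rw [h1, h2]
    apply mul_lt_mul_of_pos_left _ (by positivity)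
    have h3 : δ ^ 2 ≤ (1 / 300000) ^ 2 := by gcongr
    norm_num at h3 ⊢
    linarith
  linarith

/-- Every admissible radius is at most `1 - δ`. -/
theorem admissible_le {p δ r : ℝ} (hp : 0 < p) (hδ0 : 0 < δ) (hδ : δ ≤ 1 / 300000)
    (hpδ : p * δ ^ 2 ≤ 1 / 50000)
    (hr : ∀ f g : ℂ → ℂ, DifferentiableOn ℂ f (Metric.ball 0 1) →
      DifferentiableOn ℂ g (Metric.ball 0 1) →
      (∀ z : ℂ, r < ‖z‖ → ‖z‖ < 1 → ‖f z‖ ≤ ‖g z‖) →
      ∫⁻ z in Metric.ball (0:ℂ) 1, ‖f z‖ₑ ^ p ≤ ∫⁻ z in Metric.ball (0:ℂ) 1, ‖g z‖ₑ ^ p) :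
    r ≤ 1 - δ := by
  by_contra hcon
  push Not at hcon
  apply ex_violates hp hδ0 hδ hpδ
  apply hr
  · intro z hz
    have hz' : ‖z‖ < 1 := by simpa using hz
    exact (ef_diff hδ0 hδ hz'.le).differentiableWithinAt
  · intro z hz
    have hz' : ‖z‖ < 1 := by simpa using hz
    exact (eg_diff hδ0 hδ hz'.le).differentiableWithinAt
  · intro z hz1 hz2
    exact ex_annulus hδ0 hδ (by linarith) hz2

end Pool.Agent.MPccab6c
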