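import Mathlib

set_option autoImplicit false

/-! A two point inequality for functions with nonnegative real part on a circle, and division by
powers of a linear factor. -/

open Complex Metric Set Filter Topology

namespace Pool.Agent.MPccab6c

/-- The norm of a circle average is at most the average of a majorant. -/
theorem norm_avg_le {F : ℂ → ℂ} {H : ℂ → ℝ} {r : ℝ} (hr : 0 < r) (hH : CircleIntegrable H 0 r)
    (hFH : ∀ z : ℂ, ‖z‖ = r → ‖F z‖ ≤ H z) :
    ‖Real.circleAverage F 0 r‖ ≤ Real.circleAverage H 0 r := by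
  rw [Real.circleAverage_def, Real.circleAverage_def, norm_smul, smul_eq_mul, Real.norm_eq_abs,
    abs_of_pos (by positivity)]
  refine mul_le_mul_of_nonneg_left ?_ (by positivity)
  refine intervalIntegral.norm_integral_le_of_norm_le (by positivity) ?_ hH
  refine Filter.Eventually.of_forall ?_
  intro θ _
  exact hFH _ (by simp [abs_of_pos hr])

theorem ball_ne {ρ : ℝ} {x y : ℂ} (hx : ‖x‖ < ρ) (hy : ‖y‖ = ρ) : y - x ≠ 0 := by
  intro h
  have : y = x := sub_eq_zero.mp h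
  rw [this] at hy; linarith

/-- Twice the real part on the circle recovers the function. -/
theorem avg_two_re {F : ℂ → ℂ} {ρ : ℝ} (hρ : 0 < ρ) (hF : DiffContOnCl ℂ F (ball 0 ρ))
    {x : ℂ} (hx : ‖x‖ < ρ) :
    Real.circleAverage (fun y => (y / (y - x)) * ((2 * (F y).re : ℝ) : ℂ)) 0 ρ =
      F x + (starRingEnd ℂ) (F 0) := by
  have hcl : closure (ball (0:ℂ) ρ) = closedBall 0 ρ := closure_ball 0 hρ.ne'
  have hsph : sphere (0:ℂ) ρ ⊆ closedBall 0 ρ := sphere_subset_closedBall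
  have hFc : ContinuousOn F (sphere (0:ℂ) ρ) := (hcl ▸ hF.continuousOn).mono hsph
  have hkc : ContinuousOn (fun y : ℂ => y / (y - x)) (sphere (0:ℂ) ρ) := by
    refine ContinuousOn.div (by fun_prop) (by fun_prop) ?_
    intro y hy
    exact ball_ne hx (by simpa using hy)
  have hxb : x ∈ ball (0:ℂ) |ρ| := by rw [abs_of_pos hρ]; simpa using hx
  have h1 : Real.circleAverage (fun y => (y / (y - x)) * F y) 0 ρ = F x := by
    have h := (show DiffContOnCl ℂ F (ball 0 |ρ|) by rwa [abs_of_pos hρ]).circleAverage_smul_div hxb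
    simpa using h
  have h2 : Real.circleAverage (fun y => (y / (y - x)) * (starRingEnd ℂ) (F y)) 0 ρ =
      (starRingEnd ℂ) (F 0) := by
    set G : ℂ → ℂ := fun y => ((ρ:ℂ) ^ 2 / ((ρ:ℂ) ^ 2 - (starRingEnd ℂ) x * y)) * F y with hG
    have hden : ∀ y : ℂ, ‖y‖ ≤ ρ → (ρ:ℂ) ^ 2 - (starRingEnd ℂ) x * y ≠ 0 := by
      intro y hy h
      have h1 : (ρ:ℂ) ^ 2 = (starRingEnd ℂ) x * y := sub_eq_zero.mp h
      have h2 : ‖(ρ:ℂ) ^ 2‖ = ‖(starRingEnd ℂ) x * y‖ := by rw [h1]
      rw [norm_pow, Complex.norm_real, Real.norm_eq_abs, abs_of_pos hρ, norm_mul,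
        Complex.norm_conj] at h2
      have h3 : ‖x‖ * ‖y‖ < ρ ^ 2 := by
        nlinarith [norm_nonneg x, norm_nonneg y]
      linarith
    have hGd : DiffContOnCl ℂ G (ball 0 |ρ|) := by
      rw [abs_of_pos hρ]
      have hk : DiffContOnCl ℂ (fun y : ℂ => (ρ:ℂ) ^ 2 / ((ρ:ℂ) ^ 2 - (starRingEnd ℂ) x * y))
          (ball 0 ρ) := by
        refine ⟨?_, ?_⟩
        · refine DifferentiableOn.div (by fun_prop) (by fun_prop) ?_
          intro y hy
          exact hden y (by simpa using (ball_subset_closedBall hy))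
        · rw [hcl]
          refine ContinuousOn.div (by fun_prop) (by fun_prop) ?_
          intro y hy
          exact hden y (by simpa using hy)
      exact hk.smul hF
    have hGavg : Real.circleAverage G 0 ρ = F 0 := by
      rw [hGd.circleAverage, hG]
      simp only [mul_zero, sub_zero]
      rw [div_self, one_mul]
      exact pow_ne_zero _ (by exact_mod_cast hρ.ne')
    have hGc : CircleIntegrable G 0 ρ := by
      apply ContinuousOn.circleIntegrable hρ.le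
      refine ContinuousOn.mul (ContinuousOn.div (by fun_prop) (by fun_prop) ?_) hFc
      intro y hy
      have : ‖y‖ = ρ := by simpa using hy
      exact hden y this.le
    have hconj := (Complex.conjCLE : ℂ ≃L[ℝ] ℂ).toContinuousLinearMap.circleAverage_comp_comm hGc
    rw [hGavg] at hconj
    have hF0 : (starRingEnd ℂ) (F 0) = (Complex.conjCLE : ℂ ≃L[ℝ] ℂ).toContinuousLinearMap (F 0) := by
      simp
    rw [hF0, ← hconj]
    apply Real.circleAverage_congr_sphere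
    intro y hy
    rw [abs_of_pos hρ] at hy
    have hyn : ‖y‖ = ρ := by simpa using hy
    have hy0 : y ≠ 0 := by
      intro h; rw [h, norm_zero] at hyn; linarith
    have hyx := ball_ne hx hyn
    have hyy : (starRingEnd ℂ) y * y = (ρ:ℂ) ^ 2 := by
      rw [← Complex.normSq_eq_conj_mul_self, Complex.normSq_eq_norm_sq, hyn]; push_cast; ring
    have hmod : (ρ:ℂ) ^ 2 - x * (starRingEnd ℂ) y = (y - x) * (starRingEnd ℂ) y := by
      rw [← hyy]; ring
    have hcy : (starRingEnd ℂ) y ≠ 0 := by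
      intro h
      rw [h, zero_mul] at hyy
      exact (pow_ne_zero 2 (by exact_mod_cast hρ.ne' : (ρ:ℂ) ≠ 0)) hyy.symm
    simp only [hG, Function.comp_apply, ContinuousLinearEquiv.coe_coe, Complex.conjCLE_apply,
      map_mul, map_div₀, map_pow, Complex.conj_ofReal, map_sub, Complex.conj_conj]
    rw [hmod, ← hyy, mul_comm ((starRingEnd ℂ) y) y, mul_div_mul_right _ _ hcy]
  have hi1 : CircleIntegrable (fun y => (y / (y - x)) * F y) 0 ρ :=
    (hkc.mul hFc).circleIntegrable hρ.le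
  have hi2 : CircleIntegrable (fun y => (y / (y - x)) * (starRingEnd ℂ) (F y)) 0 ρ := by
    refine (hkc.mul ?_).circleIntegrable hρ.le
    exact Complex.continuous_conj.comp_continuousOn hFc
  rw [← h1, ← h2, ← Real.circleAverage_fun_add hi1 hi2]
  congr 1
  funext y
  rw [← mul_add]
  congr 1
  rw [Complex.add_conj]

/-- The two point inequality. -/
theorem two_point {F : ℂ → ℂ} {ρ r : ℝ} (hr0 : 0 < r) (hrρ : r < ρ)
    (hF : DiffContOnCl ℂ F (ball 0 ρ)) (hre : ∀ y : ℂ, ‖y‖ = ρ → 0 ≤ (F y).re)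
    {x₀ x₁ : ℂ} (h0 : ‖x₀‖ = r) (h1 : ‖x₁‖ = r) :
    ‖F x₀ - F x₁‖ ≤ 2 * ρ * ‖x₀ - x₁‖ * (1 + ‖x₀ - x₁‖ / (ρ - r)) / (ρ ^ 2 - r ^ 2) *
      (F x₁).re := by
  have hρ : 0 < ρ := by linarith
  have hρr : 0 < ρ - r := by linarith
  have hρr2 : 0 < ρ ^ 2 - r ^ 2 := by nlinarith
  have hcl : closure (ball (0:ℂ) ρ) = closedBall 0 ρ := closure_ball 0 hρ.ne'
  have hsph : sphere (0:ℂ) ρ ⊆ closedBall 0 ρ := sphere_subset_closedBall
  have hFc : ContinuousOn F (sphere (0:ℂ) ρ) := (hcl ▸ hF.continuousOn).mono hsph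
  have hrec : ContinuousOn (fun y => (F y).re) (sphere (0:ℂ) ρ) :=
    Complex.continuous_re.comp_continuousOn hFc
  have hx0 : ‖x₀‖ < ρ := by linarith
  have hx1 : ‖x₁‖ < ρ := by linarith
  set t : ℝ := ‖x₀ - x₁‖ with ht
  have ht0 : 0 ≤ t := norm_nonneg _
  have hkc : ∀ x : ℂ, ‖x‖ < ρ → CircleIntegrable
      (fun y => (y / (y - x)) * ((2 * (F y).re : ℝ) : ℂ)) 0 ρ := by
    intro x hx
    apply ContinuousOn.circleIntegrable hρ.le
    refine ContinuousOn.mul (ContinuousOn.div (by fun_prop) (by fun_prop) ?_) ?_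
    · intro y hy
      exact ball_ne hx (by simpa using hy)
    · exact Complex.continuous_ofReal.comp_continuousOn (continuousOn_const.mul hrec)
  have hdiff : F x₀ - F x₁ = Real.circleAverage (fun y => (y / (y - x₀)) *
      ((2 * (F y).re : ℝ) : ℂ) - (y / (y - x₁)) * ((2 * (F y).re : ℝ) : ℂ)) 0 ρ := by
    rw [Real.circleAverage_fun_sub (hkc x₀ hx0) (hkc x₁ hx1), avg_two_re hρ hF hx0,
      avg_two_re hρ hF hx1]
    ring
  -- the Poisson formula for the real part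
  have hpc : ContinuousOn (fun y : ℂ => (‖y‖ ^ 2 - ‖x₁‖ ^ 2) / ‖y - x₁‖ ^ 2) (sphere (0:ℂ) ρ) := by
    refine ContinuousOn.div (by fun_prop) (by fun_prop) ?_
    intro y hy
    have := ball_ne hx1 (show ‖y‖ = ρ by simpa using hy)
    exact pow_ne_zero _ (norm_ne_zero_iff.mpr this)
  have hpois : (F x₁).re = Real.circleAverage
      (fun y => (‖y‖ ^ 2 - ‖x₁‖ ^ 2) / ‖y - x₁‖ ^ 2 * (F y).re) 0 ρ := by
    have h := hF.circleAverage_poissonKernel_smul' (show x₁ ∈ ball (0:ℂ) ρ by simpa using hx1)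
    have hint : CircleIntegrable (fun y : ℂ => ((‖y - 0‖ ^ 2 - ‖x₁ - 0‖ ^ 2) /
        ‖(y - 0) - (x₁ - 0)‖ ^ 2) • F y) 0 ρ := by
      apply ContinuousOn.circleIntegrable hρ.le
      simp only [sub_zero]
      exact hpc.smul hFc
    have h2 := Complex.reCLM.circleAverage_comp_comm hint
    rw [h] at h2
    have h3 : Complex.reCLM (F x₁) = (F x₁).re := rfl
    rw [← h3, ← h2]
    apply Real.circleAverage_congr_sphere
    intro y _
    simp only [Function.comp_apply, map_smul, sub_zero, Complex.reCLM_apply, smul_eq_mul]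
  have hbound : ∀ y : ℂ, ‖y‖ = ρ → ‖(y / (y - x₀)) * ((2 * (F y).re : ℝ) : ℂ) -
      (y / (y - x₁)) * ((2 * (F y).re : ℝ) : ℂ)‖ ≤
      2 * ρ * t * (1 + t / (ρ - r)) / (ρ ^ 2 - r ^ 2) *
        ((‖y‖ ^ 2 - ‖x₁‖ ^ 2) / ‖y - x₁‖ ^ 2 * (F y).re) := by
    intro y hy
    have hy0 := ball_ne hx0 hy
    have hy1 := ball_ne hx1 hy
    have hn0 : 0 < ‖y - x₀‖ := norm_pos_iff.mpr hy0
    have hn1 : 0 < ‖y - x₁‖ := norm_pos_iff.mpr hy1
    have hid : (y / (y - x₀)) * ((2 * (F y).re : ℝ) : ℂ) - (y / (y - x₁)) *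
        ((2 * (F y).re : ℝ) : ℂ) = y * (x₀ - x₁) / ((y - x₀) * (y - x₁)) *
        ((2 * (F y).re : ℝ) : ℂ) := by
      field_simp
      ring
    have hre' := hre y hy
    rw [hid, norm_mul, norm_div, norm_mul, norm_mul, Complex.norm_real, Real.norm_eq_abs,
      abs_of_nonneg (by linarith), hy, h1, ← ht]
    have hge : ρ - r ≤ ‖y - x₀‖ := by
      have := norm_sub_norm_le y x₀
      rw [hy, h0] at this; exact this
    have htri : ‖y - x₁‖ ≤ ‖y - x₀‖ * (1 + t / (ρ - r)) := by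
      have h2 : ‖y - x₁‖ ≤ ‖y - x₀‖ + t := by
        rw [ht]
        have := norm_add_le (y - x₀) (x₀ - x₁)
        simpa using this
      have h3 : t ≤ ‖y - x₀‖ * (t / (ρ - r)) := by
        rw [mul_div_assoc', le_div_iff₀ hρr]
        nlinarith
      linarith
    have hmain : 1 / (‖y - x₀‖ * ‖y - x₁‖) ≤ (1 + t / (ρ - r)) / ‖y - x₁‖ ^ 2 := by
      rw [div_le_div_iff₀ (by positivity) (by positivity)]
      have h4 : ‖y - x₁‖ ^ 2 ≤ ‖y - x₀‖ * (1 + t / (ρ - r)) * ‖y - x₁‖ := by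
        rw [pow_two]; gcongr
      linarith
    calc ρ * t / (‖y - x₀‖ * ‖y - x₁‖) * (2 * (F y).re)
        = 2 * ρ * t * (F y).re * (1 / (‖y - x₀‖ * ‖y - x₁‖)) := by ring
      _ ≤ 2 * ρ * t * (F y).re * ((1 + t / (ρ - r)) / ‖y - x₁‖ ^ 2) := by gcongr
      _ = 2 * ρ * t * (1 + t / (ρ - r)) / (ρ ^ 2 - r ^ 2) *
        ((ρ ^ 2 - r ^ 2) / ‖y - x₁‖ ^ 2 * (F y).re) := by field_simp
  have hi : CircleIntegrable (fun y => 2 * ρ * t * (1 + t / (ρ - r)) / (ρ ^ 2 - r ^ 2) *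
        ((‖y‖ ^ 2 - ‖x₁‖ ^ 2) / ‖y - x₁‖ ^ 2 * (F y).re)) 0 ρ := by
    apply ContinuousOn.circleIntegrable hρ.le
    exact continuousOn_const.mul (hpc.mul hrec)
  have h := norm_avg_le hρ hi hbound
  rw [← hdiff] at h
  refine h.trans (le_of_eq ?_)
  rw [hpois]
  have := Real.circleAverage_fun_smul (a := 2 * ρ * t * (1 + t / (ρ - r)) / (ρ ^ 2 - r ^ 2))
    (f := fun y : ℂ => (‖y‖ ^ 2 - ‖x₁‖ ^ 2) / ‖y - x₁‖ ^ 2 * (F y).re) (c := (0:ℂ)) (R := ρ)
  simpa [smul_eq_mul] using this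

end Pool.Agent.MPccab6c
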