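import Mathlib
import Pool.Agent.Lib.MP_ccab6c_rate.SchwarzPick
import Pool.Agent.Lib.MP_ccab6c_rate.TwoPoint
import Pool.Agent.Lib.MP_ccab6c_rate.Divide

set_option autoImplicit false

/-! A polynomial Harnack inequality for a quotient with finitely many poles which is bounded by one
on an annulus. -/

open Complex Metric Set Filter Topology

namespace Pool.Agent.MPccab6c

theorem list_prod_le {bs : List ℂ} {φ φ' : ℂ → ℂ} {K : ℝ} (hK : 0 ≤ K)
    (h : ∀ b ∈ bs, ‖φ b‖ ≤ K * ‖φ' b‖) :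
    ‖(bs.map φ).prod‖ ≤ K ^ bs.length * ‖(bs.map φ').prod‖ := by
  induction bs with
  | nil => simp
  | cons b bs ih =>
    have h1 := h b (by simp)
    have h2 := ih (fun x hx => h x (by simp [hx]))
    rw [List.map_cons, List.prod_cons, List.map_cons, List.prod_cons, norm_mul, norm_mul,
      List.length_cons]
    calc ‖φ b‖ * ‖(bs.map φ).prod‖ ≤ (K * ‖φ' b‖) * (K ^ bs.length * ‖(bs.map φ').prod‖) := by
          gcongr
      _ = _ := by ring

theorem list_prod_ne {bs : List ℂ} {φ : ℂ → ℂ} (h : ∀ b ∈ bs, φ b ≠ 0) :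
    (bs.map φ).prod ≠ 0 := by
  induction bs with
  | nil => simp
  | cons b bs ih =>
    rw [List.map_cons, List.prod_cons]
    exact mul_ne_zero (h b (by simp)) (ih (fun x hx => h x (by simp [hx])))

theorem list_prod_diff (bs : List ℂ) {φ : ℂ → ℂ → ℂ} (h : ∀ b, Differentiable ℂ (φ b)) :
    Differentiable ℂ (fun y => (bs.map (fun b => φ b y)).prod) := by
  induction bs with
  | nil => simp
  | cons b bs ih =>
    simp only [List.map_cons, List.prod_cons]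
    exact (h b).mul ih

theorem list_conj_prod (bs : List ℂ) {y : ℂ} {ρ : ℝ} (hy : (starRingEnd ℂ) y * y = (ρ:ℂ) ^ 2) :
    (starRingEnd ℂ) ((bs.map (fun b => y - b)).prod) * y ^ bs.length =
      (bs.map (fun b => (ρ:ℂ) ^ 2 - (starRingEnd ℂ) b * y)).prod := by
  induction bs with
  | nil => simp
  | cons b bs ih =>
    rw [List.map_cons, List.prod_cons, List.map_cons, List.prod_cons, ← ih, List.length_cons,
      map_mul, map_sub, ← hy]
    ring

/-- The polynomial Harnack inequality. -/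
theorem poly_harnack {w S : ℂ → ℂ} {δ r : ℝ} (bs : List ℂ) (hδ0 : 0 < δ) (hδ : δ ≤ 1 / 2)
    (hr1 : 1 - 2 * δ / 3 ≤ r) (hr2 : r ≤ 1 - δ / 3) (hb : ∀ b ∈ bs, ‖b‖ ≤ 1 - δ)
    (hw : DifferentiableOn ℂ w {z : ℂ | 1 - δ < ‖z‖ ∧ ‖z‖ < 1})
    (hw1 : ∀ z : ℂ, 1 - δ < ‖z‖ → ‖z‖ < 1 → ‖w z‖ ≤ 1)
    (hS : DifferentiableOn ℂ S (ball 0 1))
    (hSw : ∀ z : ℂ, 1 - δ < ‖z‖ → ‖z‖ < 1 → S z = w z * (bs.map (fun b => z - b)).prod)
    {x₀ x₁ l : ℂ} (h0 : ‖x₀‖ = r) (h1 : ‖x₁‖ = r) (hl : ‖l‖ = 1)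
    (hlw : w x₁ = (‖w x₁‖ : ℂ) * l) :
    ‖w x₀ - l‖ ≤ (15 * (1 + ‖x₀ - x₁‖ / δ)) ^ (4 * (bs.length + 1)) * (1 - ‖w x₁‖) := by
  set N : ℕ := bs.length with hN
  set t : ℝ := ‖x₀ - x₁‖ with ht
  set X : ℝ := 1 + t / δ with hX
  set ρ : ℝ := 1 - δ / 6 with hρ
  set η : ℝ := 1 - ‖w x₁‖ with hη
  have ht0 : 0 ≤ t := norm_nonneg _
  have htX : t / δ ≤ X := by rw [hX]; linarith
  have hX1 : 1 ≤ X := by rw [hX]; have : 0 ≤ t / δ := by positivity
                         linarith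
  have hr0 : 2 / 3 ≤ r := by linarith
  have hrpos : 0 < r := by linarith
  have hρr : δ / 6 ≤ ρ - r := by linarith
  have hrρ : r < ρ := by linarith
  have hρ1 : ρ < 1 := by linarith
  have hρ0 : 11 / 12 ≤ ρ := by linarith
  have hρpos : 0 < ρ := by linarith
  have hρr2 : δ / 4 ≤ ρ ^ 2 - r ^ 2 := by nlinarith
  have hrρ2 : r < ρ ^ 2 := by
    have : 1 - δ / 3 < ρ ^ 2 := by rw [hρ]; nlinarith [sq_nonneg δ, hδ0]
    linarith
  have hη0 : 0 ≤ η := by
    have := hw1 x₁ (by linarith) (by linarith)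
    linarith
  set Zp : ℂ → ℂ := fun y => (bs.map (fun b => y - b)).prod with hZp
  set P : ℂ → ℂ := fun y => (bs.map (fun b => (ρ:ℂ) ^ 2 - (starRingEnd ℂ) b * y)).prod with hP
  set dn : ℂ → ℂ := fun y => (ρ:ℂ) ^ 2 - (starRingEnd ℂ) x₁ * y with hdn
  have hZpd : Differentiable ℂ Zp := list_prod_diff bs (φ := fun b y => y - b) (fun b => by fun_prop)
  have hPd : Differentiable ℂ P :=
    list_prod_diff bs (φ := fun b y => (ρ:ℂ) ^ 2 - (starRingEnd ℂ) b * y) (fun b => by fun_prop)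
  have hdn0 : ∀ y : ℂ, ‖y‖ < 1 → dn y ≠ 0 := by
    intro y hy h
    have h1' : (ρ:ℂ) ^ 2 = (starRingEnd ℂ) x₁ * y := sub_eq_zero.mp h
    have h2 : ‖(ρ:ℂ) ^ 2‖ = ‖(starRingEnd ℂ) x₁ * y‖ := by rw [h1']
    rw [norm_pow, Complex.norm_real, Real.norm_eq_abs, abs_of_pos hρpos, norm_mul,
      Complex.norm_conj, h1] at h2
    have h3 : r * ‖y‖ ≤ r * 1 := by gcongr
    linarith
  set ξ : ℂ → ℂ := fun y => Zp y - (starRingEnd ℂ) l * S y with hξ
  set H : ℂ → ℂ := fun y => y * ξ y * P y / dn y ^ (N + 1) with hH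
  have hξd : DifferentiableOn ℂ ξ (ball 0 1) := hZpd.differentiableOn.sub (hS.const_mul _)
  have hdnd : Differentiable ℂ dn := by rw [hdn]; fun_prop
  have hHd : DifferentiableOn ℂ H (ball 0 1) := by
    refine DifferentiableOn.div ((differentiableOn_id.mul hξd).mul hPd.differentiableOn)
      (hdnd.differentiableOn.pow _) ?_
    intro y hy
    exact pow_ne_zero _ (hdn0 y (by simpa using hy))
  have hll : (starRingEnd ℂ) l * l = 1 := by
    rw [← Complex.normSq_eq_conj_mul_self, Complex.normSq_eq_norm_sq, hl]; simp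
  have hψ : ∀ y : ℂ, ‖1 - (starRingEnd ℂ) l * w y‖ = ‖w y - l‖ := by
    intro y
    have h2 : w y - l = -(l * (1 - (starRingEnd ℂ) l * w y)) := by
      have : l * ((starRingEnd ℂ) l * w y) = w y := by
        rw [← mul_assoc, mul_comm l, hll, one_mul]
      rw [mul_sub, this]; ring
    rw [h2, norm_neg, norm_mul, hl, one_mul]
  have hξw : ∀ y : ℂ, 1 - δ < ‖y‖ → ‖y‖ < 1 → ξ y = (1 - (starRingEnd ℂ) l * w y) * Zp y := by
    intro y hy1 hy2
    rw [hξ]; simp only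
    rw [hSw y hy1 hy2]; ring
  -- the reference quantity at `x₀`
  have hx₀1 : ‖x₀‖ < 1 := by linarith
  have hx₀b : ∀ b ∈ bs, δ / 3 ≤ ‖x₀ - b‖ := by
    intro b hbb
    have h2 := norm_sub_norm_le x₀ b
    have h3 := hb b hbb
    rw [h0] at h2; linarith
  have hx₀P : ∀ b ∈ bs, δ / 2 ≤ ‖(ρ:ℂ) ^ 2 - (starRingEnd ℂ) b * x₀‖ := by
    intro b hbb
    have h2 := norm_sub_norm_le ((ρ:ℂ) ^ 2) ((starRingEnd ℂ) b * x₀)
    rw [norm_pow, Complex.norm_real, Real.norm_eq_abs, abs_of_pos hρpos, norm_mul,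
      Complex.norm_conj, h0] at h2
    have h3 := hb b hbb
    have h4 : ‖b‖ * r ≤ (1 - δ) * (1 - δ / 3) := by gcongr; linarith
    have h5 : (1 - δ) * (1 - δ / 3) + δ / 2 ≤ ρ ^ 2 := by rw [hρ]; nlinarith
    linarith
  have hZpx₀ : Zp x₀ ≠ 0 := by
    refine list_prod_ne ?_
    intro b hbb h
    have := hx₀b b hbb
    rw [h, norm_zero] at this; linarith
  have hPx₀ : P x₀ ≠ 0 := by
    refine list_prod_ne ?_
    intro b hbb h
    have := hx₀P b hbb
    rw [h, norm_zero] at this; linarith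
  have hdx₀ : dn x₀ ≠ 0 := hdn0 x₀ hx₀1
  set A₀ : ℝ := ‖Zp x₀‖ * ‖P x₀‖ / ‖dn x₀‖ ^ (N + 1) with hA₀
  have hA₀pos : 0 < A₀ := by
    have h2 : 0 < ‖Zp x₀‖ := norm_pos_iff.mpr hZpx₀
    have h3 : 0 < ‖P x₀‖ := norm_pos_iff.mpr hPx₀
    have h4 : 0 < ‖dn x₀‖ := norm_pos_iff.mpr hdx₀
    positivity
  set M : ℝ := 2 * η * ((4 * X) ^ N * (3 * X) ^ N * (6 * X) ^ (N + 1)) * A₀ with hM
  have hM0 : 0 ≤ M := by positivity
  -- the local bound near `x₁`
  have hR' : 0 < δ / 12 := by linarith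
  have hloc : ∀ y ∈ closedBall x₁ (δ / 12), ‖H y‖ ≤ M := by
    intro y hy
    have hyx : ‖y - x₁‖ ≤ δ / 12 := by simpa [dist_eq_norm] using hy
    have hy1 : ‖y‖ ≤ r + δ / 12 := by
      have := norm_sub_norm_le y x₁
      rw [h1] at this; linarith
    have hy2 : r - δ / 12 ≤ ‖y‖ := by
      have := norm_sub_norm_le x₁ y
      rw [h1, norm_sub_rev] at this; linarith
    have hyl : 1 - δ < ‖y‖ := by linarith
    have hyu : ‖y‖ < 1 := by linarith
    have hsp : ‖w y - w x₁‖ ≤ 2 / 3 * (1 - ‖w x₁‖) := by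
      refine sp_step (R := δ / 3) (by linarith) (hw.mono ?_) ?_ (by linarith)
      · intro u hu
        have hu' : ‖u - x₁‖ < δ / 3 := by simpa [dist_eq_norm] using hu
        have h2 := norm_sub_norm_le u x₁
        have h3 := norm_sub_norm_le x₁ u
        rw [norm_sub_rev] at h3
        rw [h1] at h2 h3
        exact ⟨by linarith, by linarith⟩
      · intro u hu
        have hu' : ‖u - x₁‖ < δ / 3 := by simpa [dist_eq_norm] using hu
        have h2 := norm_sub_norm_le u x₁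
        have h3 := norm_sub_norm_le x₁ u
        rw [norm_sub_rev] at h3
        rw [h1] at h2 h3
        exact hw1 u (by linarith) (by linarith)
    have hwl : ‖w x₁ - l‖ = η := by
      have h2 : w x₁ - l = ((‖w x₁‖ - 1 : ℝ) : ℂ) * l := by
        nth_rewrite 1 [hlw]
        push_cast; ring
      rw [h2, norm_mul, hl, Complex.norm_real, mul_one, Real.norm_eq_abs, abs_sub_comm,
        abs_of_nonneg hη0]
    have hwy : ‖w y - l‖ ≤ 2 * η := by
      have h2 : ‖w y - l‖ ≤ ‖w y - w x₁‖ + ‖w x₁ - l‖ := by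
        simpa using norm_sub_le_norm_sub_add_norm_sub (w y) (w x₁) l
      rw [hwl] at h2
      linarith
    have hyx₀ : ‖y - x₀‖ ≤ t + δ / 12 := by
      have h2 : ‖y - x₀‖ ≤ ‖y - x₁‖ + ‖x₁ - x₀‖ := by
        simpa using norm_sub_le_norm_sub_add_norm_sub y x₁ x₀
      rw [norm_sub_rev x₁ x₀] at h2
      linarith
    have htδ : t = δ * (t / δ) := by field_simp
    have hZpy : ‖Zp y‖ ≤ (4 * X) ^ N * ‖Zp x₀‖ := by
      refine list_prod_le (by positivity) ?_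
      intro b hbb
      have h2 := hx₀b b hbb
      have h3 : ‖y - b‖ ≤ ‖y - x₀‖ + ‖x₀ - b‖ := by
        simpa using norm_sub_le_norm_sub_add_norm_sub y x₀ b
      have h4 : t + δ / 12 ≤ ‖x₀ - b‖ * (3 * (t / δ) + 1 / 4) := by
        calc t + δ / 12 = δ / 3 * (3 * (t / δ) + 1 / 4) := by
              nth_rewrite 1 [htδ]; ring
          _ ≤ _ := by gcongr
      have h5 : ‖y - b‖ ≤ ‖x₀ - b‖ * (3 * (t / δ) + 1 / 4 + 1) := by linarith
      calc ‖y - b‖ ≤ ‖x₀ - b‖ * (3 * (t / δ) + 1 / 4 + 1) := h5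
        _ ≤ ‖x₀ - b‖ * (4 * X) := by
            gcongr
            rw [hX]
            have : 0 ≤ t / δ := by positivity
            linarith
        _ = 4 * X * ‖x₀ - b‖ := by ring
    have hPy : ‖P y‖ ≤ (3 * X) ^ N * ‖P x₀‖ := by
      refine list_prod_le (by positivity) ?_
      intro b hbb
      have h2 := hx₀P b hbb
      have h3 : ‖(ρ:ℂ) ^ 2 - (starRingEnd ℂ) b * y‖ ≤ ‖y - x₀‖ +
          ‖(ρ:ℂ) ^ 2 - (starRingEnd ℂ) b * x₀‖ := by
        have h6 : (ρ:ℂ) ^ 2 - (starRingEnd ℂ) b * y = -((starRingEnd ℂ) b * (y - x₀)) +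
          ((ρ:ℂ) ^ 2 - (starRingEnd ℂ) b * x₀) := by ring
        rw [h6]
        refine (norm_add_le _ _).trans ?_
        rw [norm_neg, norm_mul, Complex.norm_conj]
        have h7 := hb b hbb
        have h8 : ‖b‖ * ‖y - x₀‖ ≤ 1 * ‖y - x₀‖ := by
          gcongr; linarith
        linarith
      have h4 : t + δ / 12 ≤ ‖(ρ:ℂ) ^ 2 - (starRingEnd ℂ) b * x₀‖ * (2 * (t / δ) + 1 / 6) := by
        calc t + δ / 12 = δ / 2 * (2 * (t / δ) + 1 / 6) := by
              nth_rewrite 1 [htδ]; ring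
          _ ≤ _ := by gcongr
      calc ‖(ρ:ℂ) ^ 2 - (starRingEnd ℂ) b * y‖
          ≤ ‖(ρ:ℂ) ^ 2 - (starRingEnd ℂ) b * x₀‖ * (2 * (t / δ) + 1 / 6 + 1) := by linarith
        _ ≤ ‖(ρ:ℂ) ^ 2 - (starRingEnd ℂ) b * x₀‖ * (3 * X) := by
            gcongr
            rw [hX]
            have : 0 ≤ t / δ := by positivity
            linarith
        _ = 3 * X * ‖(ρ:ℂ) ^ 2 - (starRingEnd ℂ) b * x₀‖ := by ring
    have hdy : ‖dn x₀‖ ≤ 6 * X * ‖dn y‖ := by
      have h2 : ‖dn x₀‖ ≤ (ρ ^ 2 - r ^ 2) + t := by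
        have h3 : dn x₀ = ((ρ ^ 2 - r ^ 2 : ℝ) : ℂ) - (starRingEnd ℂ) x₁ * (x₀ - x₁) := by
          have h4 : (starRingEnd ℂ) x₁ * x₁ = ((r ^ 2 : ℝ) : ℂ) := by
            rw [← Complex.normSq_eq_conj_mul_self, Complex.normSq_eq_norm_sq, h1]
          rw [hdn]; simp only
          push_cast at h4 ⊢
          rw [mul_sub, h4]; ring
        rw [h3]
        refine (norm_sub_le _ _).trans ?_
        rw [Complex.norm_real, Real.norm_eq_abs, abs_of_nonneg (by linarith), norm_mul,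
          Complex.norm_conj, h1]
        have : r * ‖x₀ - x₁‖ ≤ 1 * t := by gcongr; linarith
        linarith
      have h3 : (ρ ^ 2 - r ^ 2) - δ / 12 ≤ ‖dn y‖ := by
        have h4 : dn y = ((ρ ^ 2 - r ^ 2 : ℝ) : ℂ) - (starRingEnd ℂ) x₁ * (y - x₁) := by
          have h4 : (starRingEnd ℂ) x₁ * x₁ = ((r ^ 2 : ℝ) : ℂ) := by
            rw [← Complex.normSq_eq_conj_mul_self, Complex.normSq_eq_norm_sq, h1]
          rw [hdn]; simp only
          push_cast at h4 ⊢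
          rw [mul_sub, h4]; ring
        rw [h4]
        have h5 := norm_sub_norm_le ((ρ ^ 2 - r ^ 2 : ℝ) : ℂ) ((starRingEnd ℂ) x₁ * (y - x₁))
        rw [Complex.norm_real, Real.norm_eq_abs, abs_of_nonneg (by linarith), norm_mul,
          Complex.norm_conj, h1] at h5
        have : r * ‖y - x₁‖ ≤ 1 * (δ / 12) := by gcongr; linarith
        linarith
      have h4 : 2 / 3 * (ρ ^ 2 - r ^ 2) ≤ ‖dn y‖ := by linarith
      have h5 : t ≤ 4 * (t / δ) * (ρ ^ 2 - r ^ 2) := by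
        calc t = 4 * (t / δ) * (δ / 4) := by field_simp
          _ ≤ _ := by gcongr
      have h6 : 0 ≤ ρ ^ 2 - r ^ 2 := by linarith
      calc ‖dn x₀‖ ≤ (ρ ^ 2 - r ^ 2) * (1 + 4 * (t / δ)) := by linarith
        _ ≤ (ρ ^ 2 - r ^ 2) * (4 * X) := by
            gcongr
            rw [hX]
            have : 0 ≤ t / δ := by positivity
            linarith
        _ = 6 * X * (2 / 3 * (ρ ^ 2 - r ^ 2)) := by ring
        _ ≤ 6 * X * ‖dn y‖ := by gcongr
    have hdny : 0 < ‖dn y‖ := norm_pos_iff.mpr (hdn0 y hyu)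
    have hdnx₀ : 0 < ‖dn x₀‖ := norm_pos_iff.mpr hdx₀
    have hpow : 1 / ‖dn y‖ ^ (N + 1) ≤ (6 * X) ^ (N + 1) / ‖dn x₀‖ ^ (N + 1) := by
      rw [div_le_div_iff₀ (by positivity) (by positivity), one_mul, ← mul_pow]
      gcongr
    rw [hH]; simp only
    rw [norm_div, norm_mul, norm_mul, norm_pow, hξw y hyl hyu, norm_mul, hψ]
    calc ‖y‖ * (‖w y - l‖ * ‖Zp y‖) * ‖P y‖ / ‖dn y‖ ^ (N + 1)
        = ‖y‖ * (‖w y - l‖ * ‖Zp y‖) * ‖P y‖ * (1 / ‖dn y‖ ^ (N + 1)) := by ring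
      _ ≤ 1 * (2 * η * ((4 * X) ^ N * ‖Zp x₀‖)) * ((3 * X) ^ N * ‖P x₀‖) *
          ((6 * X) ^ (N + 1) / ‖dn x₀‖ ^ (N + 1)) := by gcongr
      _ = M := by rw [hM, hA₀]; ring
  have hsubB : closedBall x₁ (δ / 12) ⊆ ball (0:ℂ) 1 := by
    intro y hy
    have hyx : ‖y - x₁‖ ≤ δ / 12 := by simpa [dist_eq_norm] using hy
    have := norm_sub_norm_le y x₁
    rw [h1] at this
    simp only [mem_ball, dist_zero_right]; linarith
  have hbd := dsl_bound isOpen_ball hHd hR' hsubB hloc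
  have hx₁1 : x₁ ∈ ball (0:ℂ) 1 := by simp only [mem_ball, dist_zero_right]; linarith
  have hcoef : ∀ j, ‖dsl H x₁ j x₁‖ ≤ (24 / δ) ^ j * M := by
    intro j
    have h2 := hbd j x₁ (mem_closedBall_self hR'.le)
    have h3 : 2 / (δ / 12) = 24 / δ := by field_simp; norm_num
    rwa [h3] at h2
  set τ : ℝ := (24 / δ) ^ (N + 1) * M with hτ
  have hτ0 : 0 ≤ τ := by positivity
  set F : ℂ → ℂ := fun y => dsl H x₁ (N + 1) y + (τ : ℂ) with hF
  have hFd : DiffContOnCl ℂ F (ball 0 ρ) := by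
    have h2 : DifferentiableOn ℂ F (ball 0 1) :=
      (dsl_diff isOpen_ball hHd hx₁1 (N + 1)).add_const _
    exact h2.diffContOnCl_ball (closedBall_subset_ball hρ1)
  have hFre : ∀ y : ℂ, ‖y‖ = ρ → 0 ≤ (F y).re := by
    intro y hy
    have hy0 : y ≠ 0 := by intro h; rw [h, norm_zero] at hy; linarith
    have hyx₁ : y - x₁ ≠ 0 := ball_ne (by linarith) hy
    have hyy : (starRingEnd ℂ) y * y = (ρ:ℂ) ^ 2 := by
      rw [← Complex.normSq_eq_conj_mul_self, Complex.normSq_eq_norm_sq, hy]; push_cast; ring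
    have hyu : ‖y‖ < 1 := by linarith
    have hyl : 1 - δ < ‖y‖ := by rw [hy, hρ]; linarith
    have hn : ρ - r ≤ ‖y - x₁‖ := by
      have := norm_sub_norm_le y x₁
      rw [hy, h1] at this; exact this
    have hn0 : 0 < ‖y - x₁‖ := norm_pos_iff.mpr hyx₁
    -- the positive weight
    have hHW : H y / (y - x₁) ^ (N + 1) = (1 - (starRingEnd ℂ) l * w y) *
        ((‖Zp y‖ ^ 2 / (‖y - x₁‖ ^ 2) ^ (N + 1) : ℝ) : ℂ) := by
      have hc1 : (starRingEnd ℂ) (Zp y) * y ^ N = P y := list_conj_prod bs hyy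
      have hc2 : (starRingEnd ℂ) (y - x₁) * y = dn y := by
        rw [map_sub, sub_mul, hyy]
      have hn2 : ((‖Zp y‖ ^ 2 : ℝ) : ℂ) = (starRingEnd ℂ) (Zp y) * Zp y := by
        rw [← Complex.normSq_eq_conj_mul_self, Complex.normSq_eq_norm_sq]
      have hn3 : ((‖y - x₁‖ ^ 2 : ℝ) : ℂ) = (starRingEnd ℂ) (y - x₁) * (y - x₁) := by
        rw [← Complex.normSq_eq_conj_mul_self, Complex.normSq_eq_norm_sq]
      have hcx : (starRingEnd ℂ) (y - x₁) ≠ 0 := by
        intro h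
        apply hyx₁
        have := congrArg (starRingEnd ℂ) h
        simpa using this
      rw [Complex.ofReal_div, Complex.ofReal_pow (‖y - x₁‖ ^ 2) (N + 1), hn2, hn3, hH]
      simp only
      rw [hξw y hyl hyu, ← hc1, ← hc2, mul_pow, mul_pow]
      have hy1 : y ^ (N + 1) ≠ 0 := pow_ne_zero _ hy0
      have hx1 : (y - x₁) ^ (N + 1) ≠ 0 := pow_ne_zero _ hyx₁
      have hc3 : (starRingEnd ℂ) (y - x₁) ^ (N + 1) ≠ 0 := pow_ne_zero _ hcx
      field_simp
      ring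
    have hre1 : 0 ≤ (H y / (y - x₁) ^ (N + 1)).re := by
      rw [hHW, mul_comm, Complex.re_ofReal_mul]
      apply mul_nonneg (by positivity)
      rw [Complex.sub_re, Complex.one_re]
      have h2 : ((starRingEnd ℂ) l * w y).re ≤ 1 := by
        refine (Complex.re_le_norm _).trans ?_
        rw [norm_mul, Complex.norm_conj, hl, one_mul]
        exact hw1 y hyl hyu
      linarith
    -- the polynomial part
    have hsum : dsl H x₁ (N + 1) y = H y / (y - x₁) ^ (N + 1) -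
        ∑ j ∈ Finset.range (N + 1), dsl H x₁ j x₁ * (y - x₁) ^ j / (y - x₁) ^ (N + 1) := by
      have h2 := dsl_sum H x₁ (N + 1) y
      have hx1 : (y - x₁) ^ (N + 1) ≠ 0 := pow_ne_zero _ hyx₁
      rw [← Finset.sum_div, ← sub_div, eq_div_iff hx1]
      rw [h2]
      ring
    have hpoly : ‖∑ j ∈ Finset.range (N + 1), dsl H x₁ j x₁ * (y - x₁) ^ j / (y - x₁) ^ (N + 1)‖
        ≤ τ := by
      have h2 : ∀ j ∈ Finset.range (N + 1),
          ‖dsl H x₁ j x₁ * (y - x₁) ^ j / (y - x₁) ^ (N + 1)‖ ≤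
          (24 / δ) ^ j * (6 / δ) ^ (N + 1 - j) * M := by
        intro j hj
        have hjN : j < N + 1 := Finset.mem_range.mp hj
        have h3 : (y - x₁) ^ (N + 1) = (y - x₁) ^ j * (y - x₁) ^ (N + 1 - j) := by
          rw [← pow_add]; congr 1; omega
        rw [h3, mul_comm (dsl H x₁ j x₁), mul_div_mul_left _ _ (pow_ne_zero _ hyx₁), norm_div,
          norm_pow]
        have h4 : 1 / ‖y - x₁‖ ^ (N + 1 - j) ≤ (6 / δ) ^ (N + 1 - j) := by
          rw [← one_div_pow]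
          apply pow_le_pow_left₀ (by positivity)
          rw [div_le_div_iff₀ hn0 hδ0]
          linarith
        calc ‖dsl H x₁ j x₁‖ / ‖y - x₁‖ ^ (N + 1 - j)
            = ‖dsl H x₁ j x₁‖ * (1 / ‖y - x₁‖ ^ (N + 1 - j)) := by ring
          _ ≤ ((24 / δ) ^ j * M) * (6 / δ) ^ (N + 1 - j) := by
              gcongr
              exact hcoef j
          _ = _ := by ring
      refine (norm_sum_le _ _).trans ((Finset.sum_le_sum h2).trans ?_)
      rw [← Finset.sum_mul, hτ]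
      have h5 := geom_le (a := 24 / δ) (b := 6 / δ) (by positivity) (by
        rw [mul_div_assoc', div_le_div_iff_of_pos_right hδ0]; norm_num) (N + 1)
      gcongr
    rw [hF]; simp only
    rw [Complex.add_re, Complex.ofReal_re, hsum, Complex.sub_re]
    have h6 := Complex.re_le_norm
      (∑ j ∈ Finset.range (N + 1), dsl H x₁ j x₁ * (y - x₁) ^ j / (y - x₁) ^ (N + 1))
    linarith
  have htp := two_point hrpos hrρ hFd hFre h0 h1
  rw [← ht] at htp
  have hF1 : ‖F x₁‖ ≤ 2 * τ := by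
    rw [hF]; simp only
    refine (norm_add_le _ _).trans ?_
    rw [Complex.norm_real, Real.norm_eq_abs, abs_of_nonneg hτ0]
    have := hcoef (N + 1)
    linarith
  have hκ : 2 * ρ * t * (1 + t / (ρ - r)) / (ρ ^ 2 - r ^ 2) ≤ 48 * X ^ 2 := by
    rw [div_le_iff₀ (by linarith)]
    have h2 : 1 + t / (ρ - r) ≤ 6 * X := by
      have h3 : t / (ρ - r) ≤ t / (δ / 6) := by gcongr
      have h4 : t / (δ / 6) = 6 * (t / δ) := by field_simp
      rw [hX]; linarith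
    have h3 : 0 ≤ 1 + t / (ρ - r) := by
      have : 0 ≤ t / (ρ - r) := div_nonneg ht0 (by linarith)
      linarith
    have h5 : t ≤ δ * X := by
      have : t = δ * (t / δ) := by field_simp
      rw [this]; gcongr
    calc 2 * ρ * t * (1 + t / (ρ - r)) ≤ 2 * 1 * (δ * X) * (6 * X) := by gcongr
      _ = 48 * X ^ 2 * (δ / 4) := by ring
      _ ≤ _ := by gcongr
  have hF0 : ‖F x₀‖ ≤ (2 + 96 * X ^ 2) * τ := by
    have h2 : ‖F x₀‖ ≤ ‖F x₀ - F x₁‖ + ‖F x₁‖ := by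
      have := norm_add_le (F x₀ - F x₁) (F x₁)
      simpa using this
    have h3 : (F x₁).re ≤ 2 * τ := (Complex.re_le_norm _).trans hF1
    have h4 : 2 * ρ * t * (1 + t / (ρ - r)) / (ρ ^ 2 - r ^ 2) * (F x₁).re ≤
        48 * X ^ 2 * (2 * τ) := by
      have h5 : 0 ≤ 2 * ρ * t * (1 + t / (ρ - r)) / (ρ ^ 2 - r ^ 2) := by
        have h6 : 0 ≤ t / (ρ - r) := div_nonneg ht0 (by linarith)
        apply div_nonneg (by positivity) (by linarith)
      calc _ ≤ 2 * ρ * t * (1 + t / (ρ - r)) / (ρ ^ 2 - r ^ 2) * (2 * τ) := by gcongr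
        _ ≤ _ := by gcongr
    linarith
  have hD0 : ‖dsl H x₁ (N + 1) x₀‖ ≤ (3 + 96 * X ^ 2) * τ := by
    have h2 : dsl H x₁ (N + 1) x₀ = F x₀ - (τ : ℂ) := by rw [hF]; simp
    rw [h2]
    refine (norm_sub_le _ _).trans ?_
    rw [Complex.norm_real, Real.norm_eq_abs, abs_of_nonneg hτ0]
    linarith
  have hHx₀ : ‖H x₀‖ ≤ 100 * X ^ 2 * (24 * X) ^ (N + 1) * M := by
    rw [dsl_sum H x₁ (N + 1) x₀]
    refine (norm_add_le _ _).trans ?_
    have h2 : ‖∑ j ∈ Finset.range (N + 1), dsl H x₁ j x₁ * (x₀ - x₁) ^ j‖ ≤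
        (24 * X) ^ (N + 1) * M := by
      have h3 : ∀ j ∈ Finset.range (N + 1), ‖dsl H x₁ j x₁ * (x₀ - x₁) ^ j‖ ≤
          (24 * X) ^ j * 1 ^ (N + 1 - j) * M := by
        intro j _
        rw [norm_mul, norm_pow, ← ht, one_pow, mul_one]
        have h4 : (24 / δ) ^ j * t ^ j ≤ (24 * X) ^ j := by
          rw [← mul_pow]
          apply pow_le_pow_left₀ (by positivity)
          calc 24 / δ * t = 24 * (t / δ) := by ring
            _ ≤ 24 * X := by gcongr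
        calc ‖dsl H x₁ j x₁‖ * t ^ j ≤ ((24 / δ) ^ j * M) * t ^ j := by
              gcongr
              exact hcoef j
          _ = (24 / δ) ^ j * t ^ j * M := by ring
          _ ≤ _ := by gcongr
      refine (norm_sum_le _ _).trans ((Finset.sum_le_sum h3).trans ?_)
      rw [← Finset.sum_mul]
      have h5 := geom_le (a := 24 * X) (b := 1) (by norm_num) (by linarith) (N + 1)
      gcongr
    have h3 : ‖(x₀ - x₁) ^ (N + 1) * dsl H x₁ (N + 1) x₀‖ ≤
        (24 * X) ^ (N + 1) * (3 + 96 * X ^ 2) * M := by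
      rw [norm_mul, norm_pow, ← ht]
      have h4 : t ^ (N + 1) * (24 / δ) ^ (N + 1) ≤ (24 * X) ^ (N + 1) := by
        rw [← mul_pow]
        apply pow_le_pow_left₀ (by positivity)
        calc t * (24 / δ) = 24 * (t / δ) := by ring
          _ ≤ 24 * X := by gcongr
      calc t ^ (N + 1) * ‖dsl H x₁ (N + 1) x₀‖ ≤ t ^ (N + 1) * ((3 + 96 * X ^ 2) * τ) := by gcongr
        _ = (t ^ (N + 1) * (24 / δ) ^ (N + 1)) * (3 + 96 * X ^ 2) * M := by rw [hτ]; ring
        _ ≤ _ := by gcongr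
    have h4 : 4 + 96 * X ^ 2 ≤ 100 * X ^ 2 := by nlinarith
    calc _ ≤ (24 * X) ^ (N + 1) * M + (24 * X) ^ (N + 1) * (3 + 96 * X ^ 2) * M := add_le_add h2 h3
      _ = (4 + 96 * X ^ 2) * ((24 * X) ^ (N + 1) * M) := by ring
      _ ≤ 100 * X ^ 2 * ((24 * X) ^ (N + 1) * M) := by gcongr
      _ = _ := by ring
  -- the value at `x₀`
  have hHval : ‖H x₀‖ = r * ‖w x₀ - l‖ * A₀ := by
    rw [hH]; simp only
    rw [norm_div, norm_mul, norm_mul, norm_pow, hξw x₀ (by linarith) hx₀1, norm_mul, hψ, h0, hA₀]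
    ring
  rw [hHval, hM] at hHx₀
  have hfin : r * ‖w x₀ - l‖ ≤ 100 * X ^ 2 * (24 * X) ^ (N + 1) *
      (2 * η * ((4 * X) ^ N * (3 * X) ^ N * (6 * X) ^ (N + 1))) := by
    have h2 : r * ‖w x₀ - l‖ * A₀ ≤ 100 * X ^ 2 * (24 * X) ^ (N + 1) *
      (2 * η * ((4 * X) ^ N * (3 * X) ^ N * (6 * X) ^ (N + 1))) * A₀ := by
      refine hHx₀.trans (le_of_eq ?_); ring
    exact le_of_mul_le_mul_right h2 hA₀pos
  have hq : ‖w x₀ - l‖ ≤ 3 / 2 * (r * ‖w x₀ - l‖) := by
    have := norm_nonneg (w x₀ - l)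
    nlinarith
  refine hq.trans ((mul_le_mul_of_nonneg_left hfin (by norm_num)).trans ?_)
  have hcomb : 3 / 2 * (100 * X ^ 2 * (24 * X) ^ (N + 1) *
      (2 * η * ((4 * X) ^ N * (3 * X) ^ N * (6 * X) ^ (N + 1)))) =
      (43200 * X ^ 4) * (1728 * X ^ 4) ^ N * η := by
    have e1 : (24 * X) ^ (N + 1) * (6 * X) ^ (N + 1) = (144 * X ^ 2) ^ (N + 1) := by
      rw [← mul_pow]; congr 1; ring
    have e2 : (4 * X) ^ N * (3 * X) ^ N = (12 * X ^ 2) ^ N := by
      rw [← mul_pow]; congr 1; ring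
    have e3 : (144 * X ^ 2) ^ N * (12 * X ^ 2) ^ N = (1728 * X ^ 4) ^ N := by
      rw [← mul_pow]; congr 1; ring
    calc _ = 300 * X ^ 2 * ((24 * X) ^ (N + 1) * (6 * X) ^ (N + 1)) *
          ((4 * X) ^ N * (3 * X) ^ N) * η := by ring
      _ = 300 * X ^ 2 * (144 * X ^ 2) ^ (N + 1) * (12 * X ^ 2) ^ N * η := by rw [e1, e2]
      _ = 43200 * X ^ 4 * ((144 * X ^ 2) ^ N * (12 * X ^ 2) ^ N) * η := by ring
      _ = _ := by rw [e3]
  rw [hcomb]
  have hpow : (15 * X) ^ (4 * (N + 1)) = (50625 * X ^ 4) * (50625 * X ^ 4) ^ N := by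
    rw [pow_mul, pow_succ, mul_comm]
    have : (15 * X) ^ 4 = 50625 * X ^ 4 := by ring
    rw [this]
  rw [hpow]
  gcongr
  · norm_num
  · norm_num

end Pool.Agent.MPccab6c
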