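import Mathlib
import Pool.Agent.Lib.MP_ccab6c_rate.Pointwise2
import Pool.Agent.Lib.MP_ccab6c_rate.PolyHarnack

set_option autoImplicit false

/-! Factorization of the zeros in a smaller closed disc, and the decomposition adapted to all of
these zeros. -/

open Complex Metric Set Filter Topology

namespace Pool.Agent.MPccab6c

/-- Factorization of the zeros of `g` in a closed disc. -/
theorem factor_zeros {c : ℝ} (hc1 : c < 1) (n : ℕ) :
    ∀ g : ℂ → ℂ, DifferentiableOn ℂ g (ball 0 1) →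
      (∀ z ∈ ball (0:ℂ) 1, ∀ᶠ x in 𝓝[≠] z, g x ≠ 0) →
      {z : ℂ | z ∈ closedBall (0:ℂ) c ∧ g z = 0}.ncard ≤ n →
      ∃ (bs : List ℂ) (g₁ : ℂ → ℂ), (∀ b ∈ bs, ‖b‖ ≤ c) ∧ DifferentiableOn ℂ g₁ (ball 0 1) ∧
        (∀ z ∈ ball (0:ℂ) 1, ∀ᶠ x in 𝓝[≠] z, g₁ x ≠ 0) ∧ (∀ z : ℂ, ‖z‖ ≤ c → g₁ z ≠ 0) ∧
        (∀ z ∈ ball (0:ℂ) 1, g z = (bs.map (fun b => z - b)).prod * g₁ z) := by
  induction n with
  | zero =>
    intro g hg h0 hcard
    have hfin := zeros_finite (isCompact_closedBall (0:ℂ) c)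
      (fun z hz => h0 z (closedBall_subset_ball hc1 hz))
    have hemp : {z : ℂ | z ∈ closedBall (0:ℂ) c ∧ g z = 0} = ∅ := by
      rw [← Set.ncard_eq_zero hfin]; omega
    refine ⟨[], g, by simp, hg, h0, ?_, by simp⟩
    intro z hz hgz
    have : z ∈ {z : ℂ | z ∈ closedBall (0:ℂ) c ∧ g z = 0} := ⟨by simpa using hz, hgz⟩
    rw [hemp] at this
    exact this
  | succ n ih =>
    intro g hg h0 hcard
    have hfin := zeros_finite (isCompact_closedBall (0:ℂ) c)
      (fun z hz => h0 z (closedBall_subset_ball hc1 hz))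
    by_cases hemp : {z : ℂ | z ∈ closedBall (0:ℂ) c ∧ g z = 0} = ∅
    · exact ih g hg h0 (by rw [hemp]; simp)
    · obtain ⟨a, ha1, ha2⟩ := Set.nonempty_iff_ne_empty.mpr hemp
      have ha1' : ‖a‖ ≤ c := by simpa using ha1
      have haU : a ∈ ball (0:ℂ) 1 := closedBall_subset_ball hc1 ha1
      obtain ⟨m, G, hG, hGa, hgG, hgG'⟩ := divide_zero isOpen_ball hg haU (h0 a haU)
      have hGne : ∀ z ∈ ball (0:ℂ) 1, ∀ᶠ x in 𝓝[≠] z, G x ≠ 0 := by
        intro z hz
        have h1 : ∀ᶠ x in 𝓝[≠] z, x ∈ ball (0:ℂ) 1 := nhdsWithin_le_nhds (isOpen_ball.mem_nhds hz)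
        filter_upwards [h0 z hz, h1] with x hx hxU hGx
        apply hx
        rw [hgG' x hxU, hGx, mul_zero]
      have hGcard : {z : ℂ | z ∈ closedBall (0:ℂ) c ∧ G z = 0}.ncard ≤ n := by
        have hsub : {z : ℂ | z ∈ closedBall (0:ℂ) c ∧ G z = 0} ⊂
            {z : ℂ | z ∈ closedBall (0:ℂ) c ∧ g z = 0} := by
          refine ⟨?_, ?_⟩
          · rintro z ⟨hz1, hz2⟩
            exact ⟨hz1, by rw [hgG' z (closedBall_subset_ball hc1 hz1), hz2, mul_zero]⟩
          · intro h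
            exact hGa (h ⟨ha1, ha2⟩).2
        have := Set.ncard_lt_ncard hsub hfin
        omega
      obtain ⟨bs, g₁, hbs, hg₁, hg₁n, hg₁0, hGg₁⟩ := ih G hG hGne hGcard
      refine ⟨List.replicate m a ++ bs, g₁, ?_, hg₁, hg₁n, hg₁0, ?_⟩
      · intro b hb
        rw [List.mem_append] at hb
        rcases hb with hb | hb
        · rw [List.eq_of_mem_replicate hb]; exact ha1'
        · exact hbs b hb
      · intro z hz
        rw [hgG' z hz, hGg₁ z hz, List.map_append, List.prod_append, List.map_replicate,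
          List.prod_replicate]
        ring

/-- The numerator of the quotient `f / g` after division by the zeros of `g`. -/
theorem numerator_exists {f g g₁ w : ℂ → ℂ} {c : ℝ} {bs : List ℂ}
    (hf : DifferentiableOn ℂ f (ball 0 1)) (hg₁ : DifferentiableOn ℂ g₁ (ball 0 1))
    (hg₁0 : ∀ z : ℂ, ‖z‖ ≤ c → g₁ z ≠ 0)
    (hg : ∀ z ∈ ball (0:ℂ) 1, g z = (bs.map (fun b => z - b)).prod * g₁ z)
    (hw : DifferentiableOn ℂ w {z : ℂ | c < ‖z‖ ∧ ‖z‖ < 1})
    (hfw : ∀ z : ℂ, c < ‖z‖ → ‖z‖ < 1 → f z = w z * g z) :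
    ∃ S : ℂ → ℂ, DifferentiableOn ℂ S (ball 0 1) ∧
      (∀ z : ℂ, c < ‖z‖ → ‖z‖ < 1 → S z = w z * (bs.map (fun b => z - b)).prod) ∧
      (∀ z : ℂ, ‖z‖ < 1 → f z = S z * g₁ z) := by
  classical
  set S : ℂ → ℂ := fun z => if ‖z‖ ≤ c then f z / g₁ z else w z * (bs.map (fun b => z - b)).prod
    with hS
  have hS1 : ∀ z : ℂ, c < ‖z‖ → ‖z‖ < 1 → S z = w z * (bs.map (fun b => z - b)).prod := by
    intro z hz _
    rw [hS]; simp only
    rw [if_neg (by linarith)]
  have hfS : ∀ z : ℂ, ‖z‖ < 1 → f z = S z * g₁ z := by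
    intro z hz
    rcases le_or_gt ‖z‖ c with h | h
    · rw [hS]; simp only
      rw [if_pos h, div_mul_cancel₀ _ (hg₁0 z h)]
    · rw [hS1 z h hz, hfw z h hz, hg z (by simpa using hz)]
      ring
  have hU : IsOpen {z : ℂ | c < ‖z‖ ∧ ‖z‖ < 1} :=
    (isOpen_lt continuous_const continuous_norm).inter (isOpen_lt continuous_norm continuous_const)
  have hZd : Differentiable ℂ (fun z : ℂ => (bs.map (fun b => z - b)).prod) :=
    list_prod_diff bs (φ := fun b y => y - b) (fun b => by fun_prop)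
  refine ⟨S, ?_, hS1, hfS⟩
  intro z hz
  have hz1 : ‖z‖ < 1 := by simpa using hz
  refine DifferentiableAt.differentiableWithinAt ?_
  rcases le_or_gt ‖z‖ c with h | h
  · have hopen : IsOpen (ball (0:ℂ) 1 ∩ {x | g₁ x ≠ 0}) :=
      hg₁.continuousOn.isOpen_inter_preimage isOpen_ball isOpen_ne
    have hd : DifferentiableAt ℂ (fun x => f x / g₁ x) z :=
      (hf.differentiableAt (isOpen_ball.mem_nhds hz)).div
        (hg₁.differentiableAt (isOpen_ball.mem_nhds hz)) (hg₁0 z h)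
    refine hd.congr_of_eventuallyEq ?_
    filter_upwards [hopen.mem_nhds ⟨hz, hg₁0 z h⟩] with x hx
    have hx1 : ‖x‖ < 1 := by simpa using hx.1
    rw [hfS x hx1, mul_div_assoc, div_self hx.2, mul_one]
  · have hd : DifferentiableAt ℂ (fun x => w x * (bs.map (fun b => x - b)).prod) z :=
      (hw.differentiableAt (hU.mem_nhds ⟨h, hz1⟩)).mul (hZd z)
    refine hd.congr_of_eventuallyEq ?_
    filter_upwards [hU.mem_nhds ⟨h, hz1⟩] with x hx
    exact hS1 x hx.1 hx.2

/-- Decomposition of `f` and `g` adapted to all the zeros of `g` in the disc of radius `c`. -/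
theorem decomp_zeros {f g g₁ S w : ℂ → ℂ} {c r : ℝ} {bs : List ℂ} (hc : 0 < c) (hcr : c < r)
    (hr1 : r < 1) (hbs : ∀ b ∈ bs, ‖b‖ ≤ c)
    (hg₁ : DifferentiableOn ℂ g₁ (ball 0 1))
    (hg₁n : ∀ z ∈ ball (0:ℂ) 1, ∀ᶠ x in 𝓝[≠] z, g₁ x ≠ 0)
    (hg : ∀ z ∈ ball (0:ℂ) 1, g z = (bs.map (fun b => z - b)).prod * g₁ z)
    (hgr : ∀ z : ℂ, ‖z‖ = r → g z ≠ 0)
    (hS : DifferentiableOn ℂ S (ball 0 1))
    (hw1 : ∀ z : ℂ, c < ‖z‖ → ‖z‖ < 1 → ‖w z‖ ≤ 1)
    (hSw : ∀ z : ℂ, c < ‖z‖ → ‖z‖ < 1 → S z = w z * (bs.map (fun b => z - b)).prod)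
    (hfS : ∀ z : ℂ, ‖z‖ < 1 → f z = S z * g₁ z) :
    ∃ L h k : ℂ → ℂ, DiffContOnCl ℂ L (ball 0 r) ∧ DiffContOnCl ℂ h (ball 0 r) ∧
      DiffContOnCl ℂ k (ball 0 r) ∧
      (∀ z : ℂ, ‖z‖ ≤ r → f z = Complex.exp (L z) * h z) ∧
      (∀ z : ℂ, ‖z‖ ≤ r → g z = Complex.exp (L z) * k z) ∧
      (∀ z : ℂ, ‖z‖ = r → ‖k z‖ = 1) ∧
      (∀ z : ℂ, ‖z‖ ≤ c → ‖h z‖ ≤ Real.exp (-((r - c) * (r - ‖z‖) / 16)) ^ bs.length) := by
  have hr0 : 0 < r := by linarith
  have hrC : (r:ℂ) ≠ 0 := by exact_mod_cast hr0.ne'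
  have hgr₁ : ∀ z : ℂ, ‖z‖ = r → g₁ z ≠ 0 := by
    intro z hz h
    exact hgr z hz (by rw [hg z (by simp only [mem_ball, dist_zero_right]; linarith), h, mul_zero])
  obtain ⟨O, k₂, hO, hk₂, hO0, hgO, hk1⟩ := blaschke_decomp hr0 hr1 _ g₁ hg₁ hg₁n le_rfl hgr₁
  have hcl : closure (ball (0:ℂ) r) = closedBall 0 r := closure_ball 0 hr0.ne'
  have hfr : frontier (ball (0:ℂ) r) = sphere 0 r := frontier_ball 0 hr0.ne'
  have hk₂le : ∀ z : ℂ, ‖z‖ ≤ r → ‖k₂ z‖ ≤ 1 := by
    intro z hz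
    refine Complex.norm_le_of_forall_mem_frontier_norm_le isBounded_ball hk₂ ?_ ?_
    · intro x hx
      rw [hfr] at hx
      exact (hk1 x (by simpa using hx)).le
    · rw [hcl]; simpa using hz
  have hden : ∀ t : ℝ, c < t → ∀ b ∈ bs, ∀ z : ℂ, ‖z‖ ≤ t →
      (t:ℂ) ^ 2 - (starRingEnd ℂ) b * z ≠ 0 := by
    intro t ht b hbb z hz h
    have ht0 : 0 < t := by linarith
    have hb := hbs b hbb
    have h1 : (t:ℂ) ^ 2 = (starRingEnd ℂ) b * z := sub_eq_zero.mp h
    have h2 : ‖(t:ℂ) ^ 2‖ = ‖(starRingEnd ℂ) b * z‖ := by rw [h1]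
    rw [norm_pow, Complex.norm_real, Real.norm_eq_abs, abs_of_pos ht0, norm_mul,
      Complex.norm_conj] at h2
    have h3 : ‖b‖ * ‖z‖ < t ^ 2 := by
      have h4 : ‖b‖ * ‖z‖ ≤ c * t := by gcongr
      nlinarith
    linarith
  set D : ℝ → ℂ → ℂ := fun t z => (bs.map (fun b => ((t:ℂ) ^ 2 - (starRingEnd ℂ) b * z) / t)).prod
    with hD
  have hDd : ∀ t : ℝ, Differentiable ℂ (D t) := fun t =>
    list_prod_diff bs (φ := fun b z => ((t:ℂ) ^ 2 - (starRingEnd ℂ) b * z) / t)
      (fun b => by fun_prop)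
  have hD0 : ∀ t : ℝ, c < t → ∀ z : ℂ, ‖z‖ ≤ t → D t z ≠ 0 := by
    intro t ht z hz
    have ht0 : (t:ℂ) ≠ 0 := by exact_mod_cast (by linarith : t ≠ 0)
    exact list_prod_ne (fun b hb => div_ne_zero (hden t ht b hb z hz) ht0)
  -- on the circle the denominators have the modulus of the linear factors
  have hDcirc : ∀ t : ℝ, c < t → ∀ z : ℂ, ‖z‖ = t →
      ‖D t z‖ = ‖(bs.map (fun b => z - b)).prod‖ := by
    intro t ht z hz
    have ht0 : 0 < t := by linarith
    have hone : ∀ b ∈ bs, ‖((t:ℂ) ^ 2 - (starRingEnd ℂ) b * z) / t‖ = ‖z - b‖ := by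
      intro b _
      have h2 : ((t:ℂ) ^ 2 - (starRingEnd ℂ) b * z) = (starRingEnd ℂ) (z - b) * z := by
        rw [map_sub, sub_mul, ← Complex.normSq_eq_conj_mul_self, Complex.normSq_eq_norm_sq, hz]
        push_cast; ring
      rw [h2, norm_div, norm_mul, Complex.norm_conj, hz, Complex.norm_real, Real.norm_eq_abs,
        abs_of_pos ht0, mul_div_assoc, div_self ht0.ne', mul_one]
    apply le_antisymm
    · have := list_prod_le (bs := bs) (φ := fun b => ((t:ℂ) ^ 2 - (starRingEnd ℂ) b * z) / t)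
        (φ' := fun b => z - b) (K := 1) (by norm_num) (fun b hb => by rw [hone b hb]; simp)
      simpa using this
    · have := list_prod_le (bs := bs) (φ' := fun b => ((t:ℂ) ^ 2 - (starRingEnd ℂ) b * z) / t)
        (φ := fun b => z - b) (K := 1) (by norm_num) (fun b hb => by rw [hone b hb]; simp)
      simpa using this
  -- extend the region where `O` does not vanish
  obtain ⟨ε, hε, hεO⟩ : ∃ ε > 0, ∀ z ∈ ball (0:ℂ) (r + ε),
      z ∈ ball (0:ℂ) 1 ∧ O z ≠ 0 ∧ D r z ≠ 0 := by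
    have hopen : IsOpen (ball (0:ℂ) 1 ∩ {z | z ∈ ball (0:ℂ) 1 ∧ O z ≠ 0} ∩ {z | D r z ≠ 0}) := by
      refine (isOpen_ball.inter ?_).inter ?_
      · exact hO.continuousOn.isOpen_inter_preimage isOpen_ball isOpen_ne
      · exact isOpen_ne.preimage (hDd r).continuous
    have hsub : closedBall (0:ℂ) r ⊆ ball (0:ℂ) 1 ∩ {z | z ∈ ball (0:ℂ) 1 ∧ O z ≠ 0} ∩
        {z | D r z ≠ 0} := by
      intro z hz
      have h1 : z ∈ ball (0:ℂ) 1 := closedBall_subset_ball hr1 hz
      exact ⟨⟨h1, h1, hO0 z (by simpa using hz)⟩, hD0 r hcr z (by simpa using hz)⟩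
    obtain ⟨ε, hε, hsub2⟩ := (isCompact_closedBall (0:ℂ) r).exists_thickening_subset_open hopen hsub
    refine ⟨ε, hε, fun z hz => ?_⟩
    have h1 : z ∈ thickening ε (closedBall (0:ℂ) r) := by
      rw [thickening_closedBall hε hr0.le, add_comm]
      exact hz
    have h2 := hsub2 h1
    exact ⟨h2.1.1, h2.1.2.2, h2.2⟩
  set O₁ : ℂ → ℂ := fun z => O z * D r z with hO₁
  have hO₁d : DifferentiableOn ℂ O₁ (ball 0 (r + ε)) :=
    (hO.mono fun z hz => (hεO z hz).1).mul (hDd r).differentiableOn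
  have hO₁0 : ∀ z ∈ ball (0:ℂ) (r + ε), O₁ z ≠ 0 := by
    intro z hz
    exact mul_ne_zero (hεO z hz).2.1 (hεO z hz).2.2
  obtain ⟨L, hL, hLO⟩ := log_exists (by linarith) hO₁d hO₁0
  have hcb : closedBall (0:ℂ) r ⊆ ball (0:ℂ) (r + ε) := closedBall_subset_ball (by linarith)
  have hmem : ∀ z : ℂ, ‖z‖ ≤ r → z ∈ ball (0:ℂ) (r + ε) := by
    intro z hz
    exact hcb (by simpa using hz)
  have hSk : DiffContOnCl ℂ (fun z => S z * k₂ z / D r z) (ball 0 r) := by
    have hSc : DiffContOnCl ℂ S (ball 0 r) :=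
      hS.diffContOnCl_ball (closedBall_subset_ball hr1)
    have h1 := hSc.smul hk₂
    refine ⟨?_, ?_⟩
    · refine h1.differentiableOn.div (hDd r).differentiableOn ?_
      intro z hz
      exact hD0 r hcr z (by simpa using (ball_subset_closedBall hz))
    · refine h1.continuousOn.div (hDd r).continuous.continuousOn ?_
      intro z hz
      rw [hcl] at hz
      exact hD0 r hcr z (by simpa using hz)
  have hZk : DiffContOnCl ℂ (fun z => (bs.map (fun b => z - b)).prod * k₂ z / D r z)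
      (ball 0 r) := by
    have hZd : Differentiable ℂ (fun z : ℂ => (bs.map (fun b => z - b)).prod) :=
      list_prod_diff bs (φ := fun b y => y - b) (fun b => by fun_prop)
    have h1 := hZd.diffContOnCl.smul hk₂
    refine ⟨?_, ?_⟩
    · refine h1.differentiableOn.div (hDd r).differentiableOn ?_
      intro z hz
      exact hD0 r hcr z (by simpa using (ball_subset_closedBall hz))
    · refine h1.continuousOn.div (hDd r).continuous.continuousOn ?_
      intro z hz
      rw [hcl] at hz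
      exact hD0 r hcr z (by simpa using hz)
  refine ⟨L, fun z => S z * k₂ z / D r z, fun z => (bs.map (fun b => z - b)).prod * k₂ z / D r z,
    hL.diffContOnCl_ball hcb, hSk, hZk, ?_, ?_, ?_, ?_⟩
  · intro z hz
    have hd := hD0 r hcr z hz
    rw [hLO z (hmem z hz), hfS z (by linarith), hgO z hz, hO₁]
    simp only
    field_simp
  · intro z hz
    have hd := hD0 r hcr z hz
    rw [hLO z (hmem z hz), hg z (by simp only [mem_ball, dist_zero_right]; linarith), hgO z hz,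
      hO₁]
    simp only
    field_simp
  · intro z hz
    have hd := hD0 r hcr z hz.le
    rw [norm_div, norm_mul, hk1 z hz, mul_one, hDcirc r hcr z hz, div_self]
    rw [← hDcirc r hcr z hz]
    exact norm_ne_zero_iff.mpr hd
  · intro z hz
    set e : ℝ := (c + r) / 2 with he
    have he0 : 0 < e := by rw [he]; linarith
    have hce : c < e := by rw [he]; linarith
    have her : e < r := by rw [he]; linarith
    have hcle : closure (ball (0:ℂ) e) = closedBall 0 e := closure_ball 0 he0.ne'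
    have hfre : frontier (ball (0:ℂ) e) = sphere 0 e := frontier_ball 0 he0.ne'
    have hΦ : DiffContOnCl ℂ (fun x => S x / D e x) (ball 0 e) := by
      refine ⟨?_, ?_⟩
      · refine (hS.mono (ball_subset_ball (by linarith))).div (hDd e).differentiableOn ?_
        intro x hx
        exact hD0 e hce x (by simpa using (ball_subset_closedBall hx))
      · rw [hcle]
        refine (hS.continuousOn.mono (closedBall_subset_ball (by linarith))).div
          (hDd e).continuous.continuousOn ?_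
        intro x hx
        exact hD0 e hce x (by simpa using hx)
    have hmax : ‖S z / D e z‖ ≤ 1 := by
      refine Complex.norm_le_of_forall_mem_frontier_norm_le (f := fun x => S x / D e x)
        isBounded_ball hΦ ?_ ?_
      · intro x hx
        rw [hfre] at hx
        have hxe : ‖x‖ = e := by simpa using hx
        have h1 := hDcirc e hce x hxe
        have h2 : 0 < ‖D e x‖ := norm_pos_iff.mpr (hD0 e hce x hxe.le)
        rw [norm_div, div_le_one h2, hSw x (by linarith) (by linarith), norm_mul, h1]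
        have h3 := hw1 x (by linarith) (by linarith)
        have h4 := norm_nonneg ((bs.map (fun b => x - b)).prod)
        nlinarith
      · rw [hcle]
        have : ‖z‖ ≤ e := by linarith
        simpa using this
    have hDe : 0 < ‖D e z‖ := norm_pos_iff.mpr (hD0 e hce z (by linarith))
    have hDr : 0 < ‖D r z‖ := norm_pos_iff.mpr (hD0 r hcr z (by linarith))
    rw [norm_div, div_le_one hDe] at hmax
    have hratio : ‖D e z‖ ≤ Real.exp (-((r - c) * (r - ‖z‖) / 16)) ^ bs.length * ‖D r z‖ := by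
      refine list_prod_le (Real.exp_pos _).le ?_
      intro b hb
      have h2 := blaschke_ineq hc hcr hr1.le (hbs b hb) hz
      rw [← he] at h2
      rw [norm_div, norm_div, Complex.norm_real, Complex.norm_real, Real.norm_eq_abs,
        Real.norm_eq_abs, abs_of_pos he0, abs_of_pos hr0, mul_comm (Real.exp _)]
      exact h2
    rw [norm_div, norm_mul, div_le_iff₀ hDr]
    have hk := hk₂le z (by linarith)
    calc ‖S z‖ * ‖k₂ z‖ ≤ ‖D e z‖ * 1 := by gcongr
      _ = ‖D e z‖ := mul_one _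
      _ ≤ _ := hratio

end Pool.Agent.MPccab6c
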