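import Mathlib
import Pool.Agent.Lib.MP_ccab6c_rate.Pointwise3
import Pool.Agent.Lib.MP_ccab6c_rate.Zeros

set_option autoImplicit false

/-! The pointwise inequality with the Poisson kernel and without loss of a power of `p`. -/

open Complex Metric Set Filter Topology

namespace Pool.Agent.MPccab6c

/-- The Poisson kernel of the disc of radius `r`. -/
noncomputable def pk (r : ℝ) (z x : ℂ) : ℝ := (r ^ 2 - ‖z‖ ^ 2) / ‖x - z‖ ^ 2

theorem pk_nonneg {r : ℝ} {z x : ℂ} (hz : ‖z‖ < r) : 0 ≤ pk r z x := by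
  rw [pk]
  have : ‖z‖ ^ 2 ≤ r ^ 2 := by gcongr
  apply div_nonneg (by linarith) (by positivity)

theorem pk_cont {r : ℝ} {z : ℂ} (hz : ‖z‖ < r) : ContinuousOn (pk r z) (sphere (0:ℂ) r) := by
  refine ContinuousOn.div (by fun_prop) (by fun_prop) ?_
  intro y hy
  have := ball_ne hz (show ‖y‖ = r by simpa using hy)
  exact pow_ne_zero _ (norm_ne_zero_iff.mpr this)

/-- The Poisson majorant. -/
theorem poisson_avg {F : ℂ → ℂ} {H : ℂ → ℝ} {r : ℝ} (hr : 0 < r)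
    (hF : DiffContOnCl ℂ F (ball 0 r)) (hH : ContinuousOn H (sphere (0:ℂ) r))
    (hFH : ∀ z : ℂ, ‖z‖ = r → ‖F z‖ ≤ H z) {z : ℂ} (hz : ‖z‖ < r) :
    ‖F z‖ ≤ Real.circleAverage (fun x => pk r z x * H x) 0 r := by
  have h := hF.circleAverage_poissonKernel_smul' (show z ∈ ball (0:ℂ) r by simpa using hz)
  rw [← h]
  refine norm_avg_le hr ?_ ?_
  · exact ((pk_cont hz).mul hH).circleIntegrable hr.le
  · intro x hx
    rw [norm_smul, sub_zero, sub_zero, hx, Real.norm_eq_abs]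
    have h1 := pk_nonneg (x := x) hz
    rw [pk] at h1
    rw [abs_of_nonneg h1, pk]
    exact mul_le_mul_of_nonneg_left (hFH x hx) h1

theorem one_sub_rpow_ge {u p : ℝ} (hu0 : 0 ≤ u) (hu1 : u ≤ 1) (hp : 1 ≤ p) :
    min 1 (p * (1 - u)) ≤ 2 * (1 - u ^ p) := by
  have h1 : u ^ p ≤ Real.exp (-(p * (1 - u))) := by
    have h2 : u ≤ Real.exp (-(1 - u)) := by
      have := Real.add_one_le_exp (-(1 - u)); linarith
    calc u ^ p ≤ (Real.exp (-(1 - u))) ^ p := Real.rpow_le_rpow hu0 h2 (by linarith)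
      _ = Real.exp (-(p * (1 - u))) := by
        rw [← Real.exp_mul]; congr 1; ring
  set y : ℝ := p * (1 - u) with hy
  have hy0 : 0 ≤ y := by rw [hy]; apply mul_nonneg (by linarith) (by linarith)
  have h3 : (1 + y) * Real.exp (-y) ≤ 1 := by
    have h4 : 1 + y ≤ Real.exp y := by linarith [Real.add_one_le_exp y]
    calc (1 + y) * Real.exp (-y) ≤ Real.exp y * Real.exp (-y) := by gcongr
      _ = 1 := by rw [← Real.exp_add]; simp
  have h5 : Real.exp (-y) ≤ 1 / (1 + y) := by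
    rw [le_div_iff₀ (by linarith)]; linarith
  rcases le_total y 1 with hy1 | hy1
  · rw [min_eq_right hy1]
    have h6 : y / 2 ≤ 1 - 1 / (1 + y) := by
      have h7 : 1 - 1 / (1 + y) = y / (1 + y) := by field_simp; ring
      rw [h7]
      apply div_le_div_of_nonneg_left hy0 (by linarith) (by linarith)
    linarith
  · rw [min_eq_left hy1]
    have h6 : 1 / (1 + y) ≤ 1 / 2 := by
      apply one_div_le_one_div_of_le (by norm_num) (by linarith)
    linarith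

/-- A unimodular direction. -/
theorem exists_dir (u : ℂ) : ∃ l : ℂ, ‖l‖ = 1 ∧ u = (‖u‖ : ℂ) * l := by
  by_cases h0 : u = 0
  · exact ⟨1, by simp, by simp [h0]⟩
  · have h1 : (‖u‖ : ℂ) ≠ 0 := by exact_mod_cast (norm_ne_zero_iff.mpr h0)
    refine ⟨u / (‖u‖ : ℂ), ?_, ?_⟩
    · rw [norm_div, Complex.norm_real, norm_norm, div_self (norm_ne_zero_iff.mpr h0)]
    · field_simp

/-- The pointwise inequality. -/
theorem poly_pointwise {f g g₁ S w : ℂ → ℂ} {δ r p : ℝ} {bs : List ℂ} (hδ0 : 0 < δ)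
    (hδ : δ ≤ 1 / 2) (hr1 : 1 - 2 * δ / 3 ≤ r) (hr2 : r ≤ 1 - δ / 3) (hp : 1 ≤ p)
    (hbs : ∀ b ∈ bs, ‖b‖ ≤ 1 - δ)
    (hf : DifferentiableOn ℂ f (ball 0 1)) (hg : DifferentiableOn ℂ g (ball 0 1))
    (hg₁ : DifferentiableOn ℂ g₁ (ball 0 1))
    (hg₁n : ∀ z ∈ ball (0:ℂ) 1, ∀ᶠ x in 𝓝[≠] z, g₁ x ≠ 0)
    (hgf : ∀ z ∈ ball (0:ℂ) 1, g z = (bs.map (fun b => z - b)).prod * g₁ z)
    (hgr : ∀ z : ℂ, ‖z‖ = r → g z ≠ 0)
    (hS : DifferentiableOn ℂ S (ball 0 1))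
    (hw : DifferentiableOn ℂ w {z : ℂ | 1 - δ < ‖z‖ ∧ ‖z‖ < 1})
    (hw1 : ∀ z : ℂ, 1 - δ < ‖z‖ → ‖z‖ < 1 → ‖w z‖ ≤ 1)
    (hfw : ∀ z : ℂ, 1 - δ < ‖z‖ → ‖z‖ < 1 → f z = w z * g z)
    (hSw : ∀ z : ℂ, 1 - δ < ‖z‖ → ‖z‖ < 1 → S z = w z * (bs.map (fun b => z - b)).prod)
    (hfS : ∀ z : ℂ, ‖z‖ < 1 → f z = S z * g₁ z) {z : ℂ} (hz : ‖z‖ ≤ 1 - δ) :
    ‖f z‖ ^ p - ‖g z‖ ^ p ≤
      2 * (Real.exp (-((r - (1 - δ)) * (r - ‖z‖) / 16)) ^ bs.length) ^ (p - 1) *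
      (22 * (1 + (1 - ‖z‖ / r) / δ)) ^ (8 * (bs.length + 1)) *
      Real.circleAverage (fun x => pk r z x * (‖g x‖ ^ p - ‖f x‖ ^ p)) 0 r := by
  have hr0 : 0 < r := by linarith
  have hcr : 1 - δ < r := by linarith
  have hrlt : r < 1 := by linarith
  have hzr : ‖z‖ < r := by linarith
  have hp0 : 0 < p := by linarith
  set N : ℕ := bs.length with hN
  obtain ⟨L, h, k, hL, hh, hk, hfL, hgL, hk1, hhb⟩ :=
    decomp_zeros (w := w) (by linarith) hcr hrlt hbs hg₁ hg₁n hgf hgr hS hw1 hSw hfS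
  have hcirc : ∀ x : ℂ, ‖x‖ = r → ‖f x‖ ≤ ‖g x‖ := by
    intro x hx
    rw [hfw x (by linarith) (by linarith), norm_mul]
    have h1 := hw1 x (by linarith) (by linarith)
    have h2 := norm_nonneg (g x)
    nlinarith
  have hHc : ContinuousOn (fun x => ‖g x‖ ^ p - ‖f x‖ ^ p) (sphere (0:ℂ) r) := by
    have h1 : sphere (0:ℂ) r ⊆ ball 0 1 := by
      intro x hx
      have : ‖x‖ = r := by simpa using hx
      simp only [mem_ball, dist_zero_right]; linarith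
    refine ContinuousOn.sub ?_ ?_
    · exact (hg.continuousOn.mono h1).norm.rpow_const (fun x _ => Or.inr (by linarith))
    · exact (hf.continuousOn.mono h1).norm.rpow_const (fun x _ => Or.inr (by linarith))
  have hHnn : ∀ x : ℂ, ‖x‖ = r → 0 ≤ ‖g x‖ ^ p - ‖f x‖ ^ p := by
    intro x hx
    have : ‖f x‖ ^ p ≤ ‖g x‖ ^ p := Real.rpow_le_rpow (norm_nonneg _) (hcirc x hx) hp0.le
    linarith
  set A : ℝ := Real.circleAverage (fun x => pk r z x * (‖g x‖ ^ p - ‖f x‖ ^ p)) 0 r with hA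
  have hA0 : 0 ≤ A := by
    apply Real.circleAverage_nonneg_of_nonneg
    intro x hx
    rw [abs_of_pos hr0] at hx
    have hx' : ‖x‖ = r := by simpa using hx
    exact mul_nonneg (pk_nonneg hzr) (hHnn x hx')
  set s : ℝ := 1 - ‖z‖ / r with hs
  have hs0 : 0 < s := by
    have : ‖z‖ / r < 1 := (div_lt_one hr0).mpr hzr
    linarith
  set M : ℝ := Real.exp (-((r - (1 - δ)) * (r - ‖z‖) / 16)) ^ N with hM
  have hM0 : 0 < M := by positivity
  have hM1 : M ≤ 1 := by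
    apply pow_le_one₀ (Real.exp_pos _).le
    apply Real.exp_le_one_iff.mpr
    have : 0 ≤ (r - (1 - δ)) * (r - ‖z‖) := mul_nonneg (by linarith) (by linarith)
    linarith
  rcases le_total ‖f z‖ ‖g z‖ with hle | hle
  · have h1 : ‖f z‖ ^ p ≤ ‖g z‖ ^ p := Real.rpow_le_rpow (norm_nonneg _) hle hp0.le
    have h2 : 0 ≤ 2 * M ^ (p - 1) * (22 * (1 + s / δ)) ^ (8 * (N + 1)) * A := by positivity
    linarith
  -- the base point on the circle
  obtain ⟨x₀, hx₀r, hx₀z⟩ : ∃ x₀ : ℂ, ‖x₀‖ = r ∧ z / x₀ = ((‖z‖ / r : ℝ) : ℂ) := by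
    by_cases hz0 : z = 0
    · exact ⟨(r:ℂ), by simp [abs_of_pos hr0], by simp [hz0]⟩
    · have hzn : ‖z‖ ≠ 0 := norm_ne_zero_iff.mpr hz0
      refine ⟨(r:ℂ) * (z / ‖z‖), ?_, ?_⟩
      · rw [norm_mul, norm_div, Complex.norm_real, Complex.norm_real, norm_norm, div_self hzn,
          mul_one, Real.norm_eq_abs, abs_of_pos hr0]
      · have hrC : (r:ℂ) ≠ 0 := by exact_mod_cast hr0.ne'
        have hznC : (‖z‖:ℂ) ≠ 0 := by exact_mod_cast hzn
        push_cast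
        field_simp
  have hx₀0 : x₀ ≠ 0 := by
    intro h'; rw [h', norm_zero] at hx₀r; linarith
  obtain ⟨l, hl, hlw⟩ := exists_dir (w x₀)
  set η₀ : ℝ := 1 - ‖w x₀‖ with hη₀
  have hη₀0 : 0 ≤ η₀ := by
    have := hw1 x₀ (by linarith) (by linarith)
    linarith
  set Q : ℂ → ℝ := fun x => (15 * (1 + ‖x - x₀‖ / δ)) ^ (4 * (N + 1)) with hQ
  have hQ1 : ∀ x, 1 ≤ Q x := by
    intro x
    apply one_le_pow₀
    have : 0 ≤ ‖x - x₀‖ / δ := by positivity
    linarith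
  have hQa : ∀ x : ℂ, ‖x‖ = r → ‖w x - l‖ ≤ Q x * η₀ := by
    intro x hx
    exact poly_harnack bs hδ0 hδ hr1 hr2 hbs hw hw1 hS hSw hx hx₀r hl hlw
  have hQb : ∀ x : ℂ, ‖x‖ = r → η₀ ≤ Q x * (1 - ‖w x‖) := by
    intro x hx
    obtain ⟨l', hl', hlw'⟩ := exists_dir (w x)
    have h1 := poly_harnack bs hδ0 hδ hr1 hr2 hbs hw hw1 hS hSw hx₀r hx hl' hlw'
    rw [norm_sub_rev x₀ x] at h1
    have h2 : 1 - ‖w x₀‖ ≤ ‖w x₀ - l'‖ := by
      have := norm_sub_norm_le l' (w x₀)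
      rw [hl', norm_sub_rev] at this; exact this
    exact h2.trans h1
  -- the localizing function
  set E : ℂ → ℂ := fun x => ((δ:ℂ) / (22 * (1 + (δ:ℂ) - x / x₀))) ^ (8 * (N + 1)) with hE
  have hEden : ∀ x : ℂ, ‖x‖ ≤ r → (1 + (δ:ℂ) - x / x₀) ≠ 0 := by
    intro x hx h'
    have h1 : (x / x₀).re ≤ ‖x / x₀‖ := Complex.re_le_norm _
    rw [norm_div, hx₀r] at h1
    have h2 : ‖x‖ / r ≤ 1 := (div_le_one hr0).mpr hx
    have h3 : (1 + (δ:ℂ) - x / x₀).re = 1 + δ - (x / x₀).re := by simp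
    rw [h'] at h3
    simp only [Complex.zero_re] at h3
    linarith
  have hcl : closure (ball (0:ℂ) r) = closedBall 0 r := closure_ball 0 hr0.ne'
  have hEd : DiffContOnCl ℂ E (ball 0 r) := by
    refine ⟨?_, ?_⟩
    · refine DifferentiableOn.pow (DifferentiableOn.div (by fun_prop) (by fun_prop) ?_) _
      intro x hx
      exact mul_ne_zero (by norm_num) (hEden x (by simpa using (ball_subset_closedBall hx)))
    · rw [hcl]
      refine ContinuousOn.pow (ContinuousOn.div (by fun_prop) (by fun_prop) ?_) _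
      intro x hx
      exact mul_ne_zero (by norm_num) (hEden x (by simpa using hx))
  have hEQ : ∀ x : ℂ, ‖x‖ = r → ‖E x‖ * (Q x) ^ 2 ≤ 1 := by
    intro x hx
    set u : ℂ := x / x₀ with hu
    have hu1 : ‖u‖ = 1 := by rw [hu, norm_div, hx, hx₀r, div_self hr0.ne']
    have hxu : x - x₀ = x₀ * (u - 1) := by rw [hu]; field_simp
    have ht : ‖x - x₀‖ ≤ ‖1 - u‖ := by
      rw [hxu, norm_mul, hx₀r, norm_sub_rev]
      have := norm_nonneg (1 - u)
      nlinarith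
    have hsq : (15 * (δ + ‖1 - u‖)) ^ 2 ≤ (22 * ‖1 + (δ:ℂ) - u‖) ^ 2 := by
      have h1 : ‖1 + (δ:ℂ) - u‖ ^ 2 = (1 + δ) ^ 2 - 2 * (1 + δ) * u.re + ‖u‖ ^ 2 := by
        rw [Complex.sq_norm, Complex.sq_norm, Complex.normSq_apply, Complex.normSq_apply]
        simp only [Complex.sub_re, Complex.add_re, Complex.one_re, Complex.ofReal_re,
          Complex.sub_im, Complex.add_im, Complex.one_im, Complex.ofReal_im]
        ring
      have h2 : ‖1 - u‖ ^ 2 = 1 - 2 * u.re + ‖u‖ ^ 2 := by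
        rw [Complex.sq_norm, Complex.sq_norm, Complex.normSq_apply, Complex.normSq_apply]
        simp only [Complex.sub_re, Complex.one_re, Complex.sub_im, Complex.one_im]
        ring
      have h3 : ‖1 + (δ:ℂ) - u‖ ^ 2 = δ ^ 2 + (1 + δ) * ‖1 - u‖ ^ 2 := by
        rw [h1, h2, hu1]; ring
      rw [mul_pow, mul_pow, h3]
      have h4 : 0 ≤ (δ - ‖1 - u‖) ^ 2 := sq_nonneg _
      have h5 : 0 ≤ δ * ‖1 - u‖ ^ 2 := by positivity
      nlinarith [sq_nonneg δ, sq_nonneg ‖1 - u‖]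
    have hlin : 15 * (δ + ‖1 - u‖) ≤ 22 * ‖1 + (δ:ℂ) - u‖ :=
      le_of_sq_le_sq hsq (by positivity)
    have hpos : 0 < ‖1 + (δ:ℂ) - u‖ := norm_pos_iff.mpr (hEden x hx.le)
    have hEn : ‖E x‖ = (δ / (22 * ‖1 + (δ:ℂ) - u‖)) ^ (8 * (N + 1)) := by
      rw [hE]; simp only
      rw [norm_pow, norm_div, norm_mul, Complex.norm_real, Real.norm_eq_abs, abs_of_pos hδ0]
      simp [← hu]
    rw [hEn, hQ]
    simp only
    rw [← pow_mul, show 4 * (N + 1) * 2 = 8 * (N + 1) by ring, ← mul_pow]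
    apply pow_le_one₀ (by positivity)
    have h6 : δ / (22 * ‖1 + (δ:ℂ) - u‖) * (15 * (1 + ‖x - x₀‖ / δ)) =
        15 * (δ + ‖x - x₀‖) / (22 * ‖1 + (δ:ℂ) - u‖) := by
      field_simp
    rw [h6, div_le_one (by positivity)]
    linarith
  have hEz : ‖E z‖ * (22 * (1 + s / δ)) ^ (8 * (N + 1)) = 1 := by
    have h1 : (1 + (δ:ℂ) - z / x₀) = ((δ + s : ℝ) : ℂ) := by
      rw [hx₀z, hs]; push_cast; ring
    have hEn : ‖E z‖ = (δ / (22 * (δ + s))) ^ (8 * (N + 1)) := by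
      rw [hE]; simp only
      rw [h1, norm_pow, norm_div, norm_mul, Complex.norm_real, Complex.norm_real,
        Real.norm_eq_abs, Real.norm_eq_abs, abs_of_pos hδ0, abs_of_pos (by linarith)]
      simp
    rw [hEn, ← mul_pow]
    have h2 : δ / (22 * (δ + s)) * (22 * (1 + s / δ)) = 1 := by
      field_simp
    rw [h2, one_pow]
  -- the quotient at the point `z`
  set Oz : ℝ := ‖Complex.exp (L z)‖ with hOz
  have hOz0 : 0 < Oz := norm_pos_iff.mpr (Complex.exp_ne_zero _)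
  have hhz : ‖h z‖ ≤ M := hhb z hz
  have hfz : ‖f z‖ = Oz * ‖h z‖ := by rw [hfL z hzr.le, norm_mul]
  have hgz : g z = Complex.exp (L z) * k z := hgL z hzr.le
  have hexpL : DiffContOnCl ℂ (fun x => Complex.exp ((p:ℂ) * L x)) (ball 0 r) := by
    have h1 := hL.const_smul (p:ℂ)
    exact ⟨h1.differentiableOn.cexp, h1.continuousOn.cexp⟩
  have hgnorm : ∀ x : ℂ, ‖x‖ = r → ‖Complex.exp ((p:ℂ) * L x)‖ = ‖g x‖ ^ p := by
    intro x hx
    rw [hgL x hx.le, norm_mul, hk1 x hx, mul_one, Complex.norm_exp, Complex.norm_exp]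
    rw [← Real.exp_mul]
    congr 1
    simp [mul_comm]
  have hOzp : ‖Complex.exp ((p:ℂ) * L z)‖ = Oz ^ p := by
    rw [hOz, Complex.norm_exp, Complex.norm_exp, ← Real.exp_mul]
    congr 1
    simp [mul_comm]
  have hfx : ∀ x : ℂ, ‖x‖ = r → ‖f x‖ ^ p = ‖w x‖ ^ p * ‖g x‖ ^ p := by
    intro x hx
    rw [hfw x (by linarith) (by linarith), norm_mul, Real.mul_rpow (norm_nonneg _) (norm_nonneg _)]
  -- reduction to a bound of `|F z|`
  have hfinish : ∀ F : ℂ → ℂ, DiffContOnCl ℂ F (ball 0 r) →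
      (∀ x : ℂ, ‖x‖ = r → ‖F x‖ ≤ 2 * (‖g x‖ ^ p - ‖f x‖ ^ p)) → ‖F z‖ ≤ 2 * A := by
    intro F hF hFH
    have h1 := poisson_avg (H := fun x => 2 * (‖g x‖ ^ p - ‖f x‖ ^ p)) hr0 hF
      (continuousOn_const.mul hHc) hFH hzr
    refine h1.trans (le_of_eq ?_)
    have h2 := Real.circleAverage_fun_smul (a := (2:ℝ))
      (f := fun x : ℂ => pk r z x * (‖g x‖ ^ p - ‖f x‖ ^ p)) (c := (0:ℂ)) (R := r)
    rw [hA]
    have h3 : (fun x : ℂ => pk r z x * (2 * (‖g x‖ ^ p - ‖f x‖ ^ p))) =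
        fun x : ℂ => (2:ℝ) • (pk r z x * (‖g x‖ ^ p - ‖f x‖ ^ p)) := by
      funext x; rw [smul_eq_mul]; ring
    rw [h3, h2, smul_eq_mul]
  set B : ℝ := (22 * (1 + s / δ)) ^ (8 * (N + 1)) with hB
  have hB0 : 0 < B := by positivity
  rcases le_total 1 (p * η₀) with hcase | hcase
  · -- first case
    have hFd : DiffContOnCl ℂ (fun x => Complex.exp ((p:ℂ) * L x) * E x) (ball 0 r) :=
      hexpL.smul hEd
    have hF := hfinish _ hFd (by
      intro x hx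
      rw [norm_mul, hgnorm x hx, hfx x hx]
      have hwx0 := norm_nonneg (w x)
      have hwx1 := hw1 x (by linarith) (by linarith)
      have h1 := one_sub_rpow_ge hwx0 hwx1 hp
      have h2 := hQb x hx
      have h3 := hQ1 x
      have h4 : 1 / Q x ≤ min 1 (p * (1 - ‖w x‖)) := by
        apply le_min
        · rw [div_le_one (by linarith)]; exact h3
        · rw [div_le_iff₀ (by linarith)]
          calc 1 ≤ p * η₀ := hcase
            _ ≤ p * (Q x * (1 - ‖w x‖)) := by gcongr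
            _ = _ := by ring
      have h5 : ‖E x‖ ≤ 1 / Q x := by
        rw [le_div_iff₀ (by linarith)]
        have h6 := hEQ x hx
        have h7 : ‖E x‖ * Q x ≤ ‖E x‖ * (Q x) ^ 2 := by
          have h8 : Q x ≤ (Q x) ^ 2 := by nlinarith
          gcongr
        linarith
      have h6 : ‖E x‖ ≤ 2 * (1 - ‖w x‖ ^ p) := by linarith
      have h7 : 0 ≤ ‖g x‖ ^ p := Real.rpow_nonneg (norm_nonneg _) _
      calc ‖g x‖ ^ p * ‖E x‖ ≤ ‖g x‖ ^ p * (2 * (1 - ‖w x‖ ^ p)) := by gcongr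
        _ = _ := by ring)
    rw [norm_mul, hOzp] at hF
    have h1 : Oz ^ p ≤ B * (2 * A) := by
      calc Oz ^ p = B * (Oz ^ p * ‖E z‖) := by
            rw [show B * (Oz ^ p * ‖E z‖) = Oz ^ p * (‖E z‖ * B) by ring, hEz, mul_one]
        _ ≤ B * (2 * A) := by gcongr
    have h2 : ‖f z‖ ^ p ≤ Oz ^ p * M ^ (p - 1) := by
      rw [hfz, Real.mul_rpow hOz0.le (norm_nonneg _)]
      have h3 : ‖h z‖ ^ p ≤ M ^ p := Real.rpow_le_rpow (norm_nonneg _) hhz hp0.le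
      have h4 : M ^ p ≤ M ^ (p - 1) :=
        Real.rpow_le_rpow_of_exponent_ge hM0 hM1 (by linarith)
      have h5 : 0 ≤ Oz ^ p := Real.rpow_nonneg hOz0.le _
      exact mul_le_mul_of_nonneg_left (h3.trans h4) h5
    have h3 : 0 ≤ ‖g z‖ ^ p := Real.rpow_nonneg (norm_nonneg _) _
    have h4 : 0 ≤ M ^ (p - 1) := Real.rpow_nonneg hM0.le _
    calc ‖f z‖ ^ p - ‖g z‖ ^ p ≤ Oz ^ p * M ^ (p - 1) := by linarith
      _ ≤ (B * (2 * A)) * M ^ (p - 1) := by gcongr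
      _ = _ := by ring
  · -- second case
    have hFd : DiffContOnCl ℂ (fun x => (p:ℂ) * (Complex.exp ((p:ℂ) * L x) * (h x - l * k x)) *
        E x) (ball 0 r) := by
      have h2 : DiffContOnCl ℂ (fun x => h x - l * k x) (ball 0 r) := hh.sub (hk.const_smul l)
      exact ((hexpL.smul h2).const_smul (p:ℂ)).smul hEd
    have hF := hfinish _ hFd (by
      intro x hx
      have hwx0 := norm_nonneg (w x)
      have hwx1 := hw1 x (by linarith) (by linarith)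
      have hgx : g x ≠ 0 := hgr x hx
      have hhk : ‖h x - l * k x‖ = ‖w x - l‖ := by
        have h1 : Complex.exp (L x) * h x = Complex.exp (L x) * (w x * k x) := by
          rw [← hfL x hx.le, hfw x (by linarith) (by linarith)]
          nth_rewrite 1 [hgL x hx.le]
          ring
        have h2 : h x = w x * k x := mul_left_cancel₀ (Complex.exp_ne_zero _) h1
        rw [h2, ← sub_mul, norm_mul, hk1 x hx, mul_one]
      rw [norm_mul, norm_mul, norm_mul, hgnorm x hx, hhk, hfx x hx, Complex.norm_real,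
        Real.norm_eq_abs, abs_of_pos hp0]
      have h1 := one_sub_rpow_ge hwx0 hwx1 hp
      have h2 := hQb x hx
      have h2' := hQa x hx
      have h3 := hQ1 x
      have h4 : p * ‖w x - l‖ ≤ (Q x) ^ 2 * min 1 (p * (1 - ‖w x‖)) := by
        rw [mul_min_of_nonneg _ _ (by positivity)]
        apply le_min
        · calc p * ‖w x - l‖ ≤ p * (Q x * η₀) := by gcongr
            _ = Q x * (p * η₀) := by ring
            _ ≤ Q x * 1 := by gcongr
            _ ≤ (Q x) ^ 2 * 1 := by nlinarith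
        · calc p * ‖w x - l‖ ≤ p * (Q x * η₀) := by gcongr
            _ ≤ p * (Q x * (Q x * (1 - ‖w x‖))) := by gcongr
            _ = _ := by ring
      have h5 : p * ‖w x - l‖ * ‖E x‖ ≤ 2 * (1 - ‖w x‖ ^ p) := by
        have h6 := hEQ x hx
        have h7 : 0 ≤ min 1 (p * (1 - ‖w x‖)) := by
          apply le_min (by norm_num)
          apply mul_nonneg hp0.le (by linarith)
        calc p * ‖w x - l‖ * ‖E x‖ ≤ (Q x) ^ 2 * min 1 (p * (1 - ‖w x‖)) * ‖E x‖ := by gcongr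
          _ = (‖E x‖ * (Q x) ^ 2) * min 1 (p * (1 - ‖w x‖)) := by ring
          _ ≤ 1 * min 1 (p * (1 - ‖w x‖)) := by gcongr
          _ ≤ _ := by linarith
      have h7 : 0 ≤ ‖g x‖ ^ p := Real.rpow_nonneg (norm_nonneg _) _
      calc p * (‖g x‖ ^ p * ‖w x - l‖) * ‖E x‖ = ‖g x‖ ^ p * (p * ‖w x - l‖ * ‖E x‖) := by ring
        _ ≤ ‖g x‖ ^ p * (2 * (1 - ‖w x‖ ^ p)) := by gcongr
        _ = _ := by ring)
    rw [norm_mul, norm_mul, norm_mul, hOzp, Complex.norm_real, Real.norm_eq_abs,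
      abs_of_pos hp0] at hF
    have h1 : ‖f z‖ ^ p - ‖g z‖ ^ p ≤ p * ‖f z‖ ^ (p - 1) * (‖f z‖ - ‖g z‖) :=
      rpow_sub_le (norm_nonneg _) hle hp
    have h2 : ‖f z‖ - ‖g z‖ ≤ Oz * ‖h z - l * k z‖ := by
      have h3 : ‖f z‖ - ‖l * g z‖ ≤ ‖f z - l * g z‖ := norm_sub_norm_le _ _
      rw [norm_mul, hl, one_mul] at h3
      refine h3.trans (le_of_eq ?_)
      rw [hfL z hzr.le, hgz, hOz, ← norm_mul]
      congr 1; ring
    have h4 : ‖f z‖ ^ (p - 1) ≤ (Oz * M) ^ (p - 1) := by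
      apply Real.rpow_le_rpow (norm_nonneg _) _ (by linarith)
      rw [hfz]; gcongr
    have h5 : (Oz * M) ^ (p - 1) = Oz ^ (p - 1) * M ^ (p - 1) := Real.mul_rpow hOz0.le hM0.le
    have h6 : Oz ^ (p - 1) * Oz = Oz ^ p := by
      rw [← Real.rpow_add_one hOz0.ne']; congr 1; ring
    have h7 : 0 ≤ M ^ (p - 1) := Real.rpow_nonneg hM0.le _
    have h8 : 0 ≤ ‖f z‖ - ‖g z‖ := by linarith
    calc ‖f z‖ ^ p - ‖g z‖ ^ p ≤ p * ‖f z‖ ^ (p - 1) * (‖f z‖ - ‖g z‖) := h1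
      _ ≤ p * (Oz * M) ^ (p - 1) * (Oz * ‖h z - l * k z‖) := by gcongr
      _ = M ^ (p - 1) * (p * (Oz ^ p * ‖h z - l * k z‖)) := by rw [h5, ← h6]; ring
      _ = M ^ (p - 1) * (B * (p * (Oz ^ p * ‖h z - l * k z‖) * ‖E z‖)) := by
          rw [show B * (p * (Oz ^ p * ‖h z - l * k z‖) * ‖E z‖) =
            p * (Oz ^ p * ‖h z - l * k z‖) * (‖E z‖ * B) by ring, hEz, mul_one]
      _ ≤ M ^ (p - 1) * (B * (2 * A)) := by gcongr
      _ = _ := by ring

end Pool.Agent.MPccab6c
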