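import Mathlib
import Pool.Agent.Lib.MP_ccab6c_rate.Pointwise4
import Pool.Agent.Lib.MP_ccab6c_rate.Polar
import Pool.Agent.Lib.MP_ccab6c_rate.PartB2

set_option autoImplicit false

/-! Large exponents: every radius `1 - δ` with `(p - 1) δ² ≥ 14400` is admissible. -/

open Complex Metric Set Filter Topology MeasureTheory

namespace Pool.Agent.MPccab6c

/-- The mean over a smaller circle of a Poisson integral. -/
theorem disc_mean {H : ℂ → ℝ} {r ρ : ℝ} (hr : 0 < r) (hH : ContinuousOn H (sphere (0:ℂ) r))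
    (h0 : 0 ≤ ρ) (hρ : ρ < r) :
    CircleIntegrable (fun z => Real.circleAverage (fun x => pk r z x * H x) 0 r) 0 ρ ∧
    Real.circleAverage (fun z => Real.circleAverage (fun x => pk r z x * H x) 0 r) 0 ρ =
      Real.circleAverage H 0 r := by
  have hHi : CircleIntegrable H 0 r := hH.circleIntegrable hr.le
  have hHiC : CircleIntegrable (fun x => (H x : ℂ)) 0 r :=
    (Complex.continuous_ofReal.comp_continuousOn hH).circleIntegrable hr.le
  set U : ℂ → ℂ := fun z => Real.circleAverage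
    (fun ζ ↦ herglotzRieszKernel 0 z ζ • (H ζ : ℂ)) 0 r with hU
  have hUd : DifferentiableOn ℂ U (ball 0 r) :=
    differentiableOn_circleAverage_herglotzRieszKernel_smul hHiC
  have hre : ∀ z : ℂ, ‖z‖ < r →
      Real.circleAverage (fun x => pk r z x * H x) 0 r = (U z).re := by
    intro z hz
    have h1 := re_circleAverage_herglotzRieszKernel_smul hHi (show z ∈ ball (0:ℂ) r by simpa using hz)
    rw [hU]; simp only
    rw [h1]
    apply Real.circleAverage_congr_sphere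
    intro x hx
    rw [abs_of_pos hr] at hx
    have hxr : ‖x‖ = r := by simpa using hx
    have h2 : (Complex.re ∘ herglotzRieszKernel 0 z) = poissonKernel 0 z :=
      poissonKernel_eq_re_herglotzRieszKernel.symm
    rw [h2]
    show pk r z x * H x = poissonKernel 0 z x * H x
    rw [poissonKernel_def, sub_zero, sub_zero, hxr, pk]
  have hcb : closedBall (0:ℂ) ρ ⊆ ball 0 r := closedBall_subset_ball hρ
  have hUc : ContinuousOn (fun z => (U z).re) (sphere (0:ℂ) ρ) :=
    Complex.continuous_re.comp_continuousOn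
      (hUd.continuousOn.mono (sphere_subset_closedBall.trans hcb))
  have hcongr : ∀ z ∈ sphere (0:ℂ) |ρ|,
      Real.circleAverage (fun x => pk r z x * H x) 0 r = (U z).re := by
    intro z hz
    rw [abs_of_nonneg h0] at hz
    have hzρ : ‖z‖ = ρ := by simpa using hz
    exact hre z (by linarith)
  have hUi : CircleIntegrable (fun z => (U z).re) 0 ρ := hUc.circleIntegrable h0
  refine ⟨?_, ?_⟩
  · refine hUi.congr ?_
    intro θ _
    exact (hcongr _ (by simp)).symm
  · rw [Real.circleAverage_congr_sphere hcongr]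
    have hUiC : CircleIntegrable U 0 ρ :=
      (hUd.continuousOn.mono (sphere_subset_closedBall.trans hcb)).circleIntegrable h0
    have h1 := Complex.reCLM.circleAverage_comp_comm hUiC
    have h2 : Real.circleAverage U 0 ρ = U 0 := by
      have h3 : DiffContOnCl ℂ U (ball 0 |ρ|) := by
        rw [abs_of_nonneg h0]
        exact hUd.diffContOnCl_ball hcb
      exact h3.circleAverage
    have h3 : (fun z => (U z).re) = Complex.reCLM ∘ U := rfl
    rw [h3, h1, h2]
    show (U 0).re = _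
    rw [← hre 0 (by simpa using hr)]
    apply Real.circleAverage_congr_sphere
    intro x hx
    rw [abs_of_pos hr] at hx
    have hxr : ‖x‖ = r := by simpa using hx
    simp only [pk, norm_zero, sub_zero, hxr]
    have : r ^ 2 ≠ 0 := by positivity
    field_simp
    ring

/-- The numerical bound. -/
theorem kappa2 {p δ r x : ℝ} {N : ℕ} (hN : 1 ≤ N) (hδ0 : 0 < δ) (hδ : δ ≤ 1 / 2)
    (h : 14400 ≤ (p - 1) * δ ^ 2) (hr1 : 1 - 2 * δ / 3 ≤ r) (hr2 : r ≤ 1 - δ / 3)
    (hx0 : 0 ≤ x) (hx : x ≤ 1 - δ) :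
    2 * (Real.exp (-((r - (1 - δ)) * (r - x) / 16)) ^ N) ^ (p - 1) *
      (22 * (1 + (1 - x / r) / δ)) ^ (8 * (N + 1)) ≤
      2 * Real.exp (-(24 * ((1 - 2 * δ / 3) - x) / δ)) := by
  have hr0 : 2 / 3 ≤ r := by linarith
  have hrpos : 0 < r := by linarith
  have hrle : r ≤ 1 := by linarith
  have hp1 : 0 < p - 1 := by
    by_contra hcon
    push Not at hcon
    have : (p - 1) * δ ^ 2 ≤ 0 := mul_nonpos_of_nonpos_of_nonneg hcon (by positivity)
    linarith
  set s : ℝ := 1 - x / r with hs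
  have hsr : r - x = r * s := by rw [hs]; field_simp
  have hsge : r - x ≤ s := by
    have h1 : 0 ≤ s := by
      rw [hs]
      have : x / r ≤ 1 := (div_le_one hrpos).mpr (by linarith)
      linarith
    rw [hsr]; nlinarith
  set σ : ℝ := s / δ with hσ
  have hσge : (r - x) / δ ≤ σ := by rw [hσ]; gcongr
  have hσ13 : 1 / 3 ≤ σ := by
    refine le_trans ?_ hσge
    rw [le_div_iff₀ hδ0]; linarith
  have hsσ : s = δ * σ := by rw [hσ]; field_simp
  have hNr : (1:ℝ) ≤ N := by exact_mod_cast hN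
  -- first factor
  have h1 : (Real.exp (-((r - (1 - δ)) * (r - x) / 16)) ^ N) ^ (p - 1) ≤
      Real.exp (-(200 * (N * σ))) := by
    rw [← Real.exp_nat_mul, ← Real.exp_mul]
    apply Real.exp_le_exp.mpr
    have h2 : δ ^ 2 * σ / 72 ≤ (r - (1 - δ)) * (r - x) / 16 := by
      have h3 : δ / 3 ≤ r - (1 - δ) := by linarith
      have h4 : 2 / 3 * s ≤ r - x := by
        rw [hsr]
        have : 0 ≤ s := by rw [hsσ]; positivity
        gcongr
      have h5 : δ / 3 * (2 / 3 * s) ≤ (r - (1 - δ)) * (r - x) := by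
        apply mul_le_mul h3 h4 _ (by linarith)
        rw [hsσ]; positivity
      calc δ ^ 2 * σ / 72 = δ / 3 * (2 / 3 * s) / 16 := by rw [hsσ]; ring
        _ ≤ _ := by gcongr
    have h6 : 200 * (N * σ) ≤ N * ((r - (1 - δ)) * (r - x) / 16) * (p - 1) := by
      calc 200 * (N * σ) = N * (14400 * σ / 72) := by ring
        _ ≤ N * (((p - 1) * δ ^ 2) * σ / 72) := by gcongr
        _ = N * (δ ^ 2 * σ / 72) * (p - 1) := by ring
        _ ≤ _ := by gcongr
    linarith
  -- second factor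
  have h88 : 22 * (1 + σ) ≤ 88 * σ := by linarith
  have hexp : 88 * σ ≤ Real.exp (11 * σ) := by
    have h2 : Real.exp (11 * σ) = Real.exp 1 ^ 3 * Real.exp (11 * σ - 3) := by
      rw [← Real.exp_nat_mul, ← Real.exp_add]
      congr 1
      push_cast; ring
    have h3 : (2.7:ℝ) < Real.exp 1 := by
      have := Real.exp_one_gt_d9; linarith
    have h4 : (2.7:ℝ) ^ 3 ≤ Real.exp 1 ^ 3 := by gcongr
    have h5 : 1 + (11 * σ - 3) ≤ Real.exp (11 * σ - 3) := by
      have := Real.add_one_le_exp (11 * σ - 3); linarith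
    have h6 : 0 ≤ 1 + (11 * σ - 3) := by linarith
    rw [h2]
    calc 88 * σ ≤ (2.7:ℝ) ^ 3 * (1 + (11 * σ - 3)) := by norm_num; linarith
      _ ≤ Real.exp 1 ^ 3 * Real.exp (11 * σ - 3) := by gcongr
  have hone : 1 ≤ 88 * σ := by linarith
  have h2 : (22 * (1 + s / δ)) ^ (8 * (N + 1)) ≤ Real.exp (176 * (N * σ)) := by
    rw [← hσ]
    calc (22 * (1 + σ)) ^ (8 * (N + 1)) ≤ (88 * σ) ^ (8 * (N + 1)) := by gcongr
      _ ≤ (88 * σ) ^ (16 * N) := pow_le_pow_right₀ hone (by omega)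
      _ ≤ (Real.exp (11 * σ)) ^ (16 * N) := by gcongr
      _ = Real.exp (176 * (N * σ)) := by
        rw [← Real.exp_nat_mul]; congr 1; push_cast; ring
  calc 2 * (Real.exp (-((r - (1 - δ)) * (r - x) / 16)) ^ N) ^ (p - 1) *
      (22 * (1 + s / δ)) ^ (8 * (N + 1))
      ≤ 2 * Real.exp (-(200 * (N * σ))) * Real.exp (176 * (N * σ)) := by gcongr
    _ = 2 * Real.exp (-(24 * (N * σ))) := by
        rw [mul_assoc, ← Real.exp_add]; congr 2; ring
    _ ≤ 2 * Real.exp (-(24 * ((1 - 2 * δ / 3) - x) / δ)) := by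
        have h3 : 24 * ((1 - 2 * δ / 3) - x) / δ ≤ 24 * (N * σ) := by
          have h4 : ((1 - 2 * δ / 3) - x) / δ ≤ (r - x) / δ := by gcongr
          have h5 : σ ≤ N * σ := by nlinarith
          rw [mul_div_assoc]
          linarith
        gcongr

/-- The circle inequality integrated over the window of radii. -/
theorem window_bound2 {f g : ℂ → ℂ} {p δ : ℝ} (hp : 1 ≤ p) (hδ0 : 0 < δ) (hδ : δ ≤ 1 / 2)
    (hh : 14400 ≤ (p - 1) * δ ^ 2)
    (hf : DifferentiableOn ℂ f (ball 0 1)) (hg : DifferentiableOn ℂ g (ball 0 1))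
    (hfg : ∀ z : ℂ, 1 - δ < ‖z‖ → ‖z‖ < 1 → ‖f z‖ ≤ ‖g z‖)
    (hne : ∀ z ∈ ball (0:ℂ) 1, ∀ᶠ x in 𝓝[≠] z, g x ≠ 0)
    {b : ℂ} (hb : ‖b‖ ≤ 1 - δ) (hgb : g b = 0) {ρ : ℝ} (hρ0 : 0 ≤ ρ) (hρ : ρ ≤ 1 - δ) :
    Real.circleAverage (fun z => ‖f z‖ ^ p - ‖g z‖ ^ p) 0 ρ ≤
      6 / δ * Real.exp (-(24 * ((1 - 2 * δ / 3) - ρ) / δ)) *
      ∫ r in (1 - 2 * δ / 3)..(1 - δ / 3),
        Real.circleAverage (fun x => ‖g x‖ ^ p - ‖f x‖ ^ p) 0 r := by
  have hU : IsOpen {z : ℂ | 1 - δ < ‖z‖ ∧ ‖z‖ < 1} :=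
    (isOpen_lt continuous_const continuous_norm).inter (isOpen_lt continuous_norm continuous_const)
  have hUb : {z : ℂ | 1 - δ < ‖z‖ ∧ ‖z‖ < 1} ⊆ ball (0:ℂ) 1 := by
    intro x hx; simpa using hx.2
  obtain ⟨w, hw, hw1, hfw⟩ := quot_exists hU (hf.mono hUb) (hg.mono hUb)
    (fun z hz => hfg z hz.1 hz.2) (fun z hz => hne z (hUb hz))
  have hw1' : ∀ z : ℂ, 1 - δ < ‖z‖ → ‖z‖ < 1 → ‖w z‖ ≤ 1 := fun x h1 h2 => hw1 x ⟨h1, h2⟩
  have hfw' : ∀ z : ℂ, 1 - δ < ‖z‖ → ‖z‖ < 1 → f z = w z * g z := fun x h1 h2 => hfw x ⟨h1, h2⟩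
  obtain ⟨bs, g₁, hbs, hg₁, hg₁n, hg₁0, hgf⟩ :=
    factor_zeros (c := 1 - δ) (by linarith) _ g hg hne le_rfl
  obtain ⟨S, hS, hSw, hfS⟩ := numerator_exists hf hg₁ hg₁0 hgf hw hfw'
  have hbs1 : 1 ≤ bs.length := by
    by_contra hcon
    have h1 : bs = [] := by
      apply List.eq_nil_of_length_eq_zero; omega
    have h2 := hgf b (by simp only [mem_ball, dist_zero_right]; linarith)
    rw [hgb, h1] at h2
    simp only [List.map_nil, List.prod_nil, one_mul] at h2
    exact hg₁0 b hb h2.symm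
  -- the finite set of bad radii
  have hfin : {x : ℂ | x ∈ closedBall (0:ℂ) (1 - δ / 3) ∧ g x = 0}.Finite :=
    zeros_finite (isCompact_closedBall _ _)
      (fun x hx => hne x (closedBall_subset_ball (by linarith) hx))
  set bad : Set ℝ := (fun x : ℂ => ‖x‖) '' {x : ℂ | x ∈ closedBall (0:ℂ) (1 - δ / 3) ∧ g x = 0}
    with hbad
  have hbadfin : bad.Finite := hfin.image _
  have hHcont : ContinuousOn (fun x : ℂ => ‖g x‖ ^ p - ‖f x‖ ^ p) (ball 0 1) := by
    refine ContinuousOn.sub ?_ ?_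
    · exact hg.continuousOn.norm.rpow_const (fun x _ => Or.inr (by linarith))
    · exact hf.continuousOn.norm.rpow_const (fun x _ => Or.inr (by linarith))
  have hΦcont : ContinuousOn (fun x : ℂ => ‖f x‖ ^ p - ‖g x‖ ^ p) (ball 0 1) := by
    refine ContinuousOn.sub ?_ ?_
    · exact hf.continuousOn.norm.rpow_const (fun x _ => Or.inr (by linarith))
    · exact hg.continuousOn.norm.rpow_const (fun x _ => Or.inr (by linarith))
  have hAcont : ContinuousOn (fun ρ : ℝ => Real.circleAverage (fun x : ℂ => ‖g x‖ ^ p - ‖f x‖ ^ p) 0 ρ)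
      (Icc (1 - 2 * δ / 3) (1 - δ / 3)) := by
    apply _root_.Real.ContinuousOn.circleAverage
    · apply hHcont.mono
      intro x hx
      have hx' : ‖x - 0‖ ∈ Icc (1 - 2 * δ / 3) (1 - δ / 3) := hx
      rw [sub_zero] at hx'
      simp only [mem_ball, dist_zero_right]
      linarith [hx'.2]
    · intro r hr; linarith [hr.1]
  set K : ℝ := 2 * Real.exp (-(24 * ((1 - 2 * δ / 3) - ρ) / δ)) with hK
  have hK0 : 0 ≤ K := by positivity
  have hpt : ∀ r ∈ Icc (1 - 2 * δ / 3) (1 - δ / 3), r ∉ bad →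
      Real.circleAverage (fun z => ‖f z‖ ^ p - ‖g z‖ ^ p) 0 ρ ≤ K *
        Real.circleAverage (fun x => ‖g x‖ ^ p - ‖f x‖ ^ p) 0 r := by
    intro r hr hrb
    have hr0 : 0 < r := by linarith [hr.1]
    have hgr : ∀ x : ℂ, ‖x‖ = r → g x ≠ 0 := by
      intro x hx hgx
      apply hrb
      refine ⟨x, ⟨?_, hgx⟩, hx⟩
      simp only [mem_closedBall, dist_zero_right]; linarith [hr.2]
    have hsph : sphere (0:ℂ) r ⊆ ball 0 1 := by
      intro x hx
      have : ‖x‖ = r := by simpa using hx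
      simp only [mem_ball, dist_zero_right]; linarith [hr.2]
    have hsphρ : sphere (0:ℂ) ρ ⊆ ball 0 1 := by
      intro x hx
      have : ‖x‖ = ρ := by simpa using hx
      simp only [mem_ball, dist_zero_right]; linarith
    obtain ⟨hi, hmean⟩ := disc_mean (H := fun x => ‖g x‖ ^ p - ‖f x‖ ^ p) hr0
      (hHcont.mono hsph) hρ0 (show ρ < r by linarith [hr.1])
    have hHnn : ∀ x : ℂ, ‖x‖ = r → 0 ≤ ‖g x‖ ^ p - ‖f x‖ ^ p := by
      intro x hx
      have : ‖f x‖ ^ p ≤ ‖g x‖ ^ p :=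
        Real.rpow_le_rpow (norm_nonneg _) (hfg x (by linarith [hr.1]) (by linarith [hr.2]))
          (by linarith)
      linarith
    rw [← hmean]
    have h2 := Real.circleAverage_fun_smul (a := K)
      (f := fun z : ℂ => Real.circleAverage
        (fun x => pk r z x * (‖g x‖ ^ p - ‖f x‖ ^ p)) 0 r) (c := (0:ℂ)) (R := ρ)
    simp only [smul_eq_mul] at h2
    rw [← h2]
    apply Real.circleAverage_mono
    · exact (hΦcont.mono hsphρ).circleIntegrable hρ0
    · exact IntervalIntegrable.const_mul hi K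
    · intro z hz
      rw [abs_of_nonneg hρ0] at hz
      have hzρ : ‖z‖ = ρ := by simpa using hz
      have h3 := poly_pointwise (f := f) (g := g) (g₁ := g₁) (S := S) (w := w) (δ := δ) (r := r)
        (p := p) (bs := bs) hδ0 hδ hr.1 hr.2 hp hbs hf hg hg₁ hg₁n hgf hgr hS hw hw1' hfw' hSw hfS
        (z := z) (by linarith)
      rw [hzρ] at h3
      refine h3.trans ?_
      have h4 := kappa2 (N := bs.length) hbs1 hδ0 hδ hh hr.1 hr.2 hρ0 hρ
      have h5 : 0 ≤ Real.circleAverage (fun x => pk r z x * (‖g x‖ ^ p - ‖f x‖ ^ p)) 0 r := by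
        apply Real.circleAverage_nonneg_of_nonneg
        intro x hx
        rw [abs_of_pos hr0] at hx
        have hx' : ‖x‖ = r := by simpa using hx
        exact mul_nonneg (pk_nonneg (by linarith [hr.1])) (hHnn x hx')
      exact mul_le_mul_of_nonneg_right h4 h5
  have hle : (1 - 2 * δ / 3) ≤ (1 - δ / 3) := by linarith
  have hint : IntervalIntegrable (fun ρ : ℝ => K *
      Real.circleAverage (fun x : ℂ => ‖g x‖ ^ p - ‖f x‖ ^ p) 0 ρ) volume
      (1 - 2 * δ / 3) (1 - δ / 3) := by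
    apply ContinuousOn.intervalIntegrable
    rw [uIcc_of_le hle]
    exact continuousOn_const.mul hAcont
  have hmono : ∫ _r in (1 - 2 * δ / 3)..(1 - δ / 3),
      Real.circleAverage (fun z => ‖f z‖ ^ p - ‖g z‖ ^ p) 0 ρ ≤
      ∫ r in (1 - 2 * δ / 3)..(1 - δ / 3), K *
        Real.circleAverage (fun x : ℂ => ‖g x‖ ^ p - ‖f x‖ ^ p) 0 r := by
    apply intervalIntegral.integral_mono_ae_restrict hle (by simp) hint
    have hae : ∀ᵐ ρ : ℝ, ρ ∉ bad := by
      have := hbadfin.measure_zero (volume : Measure ℝ)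
      exact measure_eq_zero_iff_ae_notMem.mp this
    filter_upwards [ae_restrict_mem measurableSet_Icc, ae_restrict_of_ae hae] with ρ h1 h2
    exact hpt ρ h1 h2
  rw [intervalIntegral.integral_const, intervalIntegral.integral_const_mul, smul_eq_mul] at hmono
  have hw' : (1 - δ / 3) - (1 - 2 * δ / 3) = δ / 3 := by ring
  rw [hw'] at hmono
  have h9 : δ / 3 * Real.circleAverage (fun z => ‖f z‖ ^ p - ‖g z‖ ^ p) 0 ρ ≤
      δ / 3 * (6 / δ * Real.exp (-(24 * ((1 - 2 * δ / 3) - ρ) / δ)) *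
      ∫ r in (1 - 2 * δ / 3)..(1 - δ / 3),
        Real.circleAverage (fun x => ‖g x‖ ^ p - ‖f x‖ ^ p) 0 r) := by
    refine hmono.trans (le_of_eq ?_)
    rw [hK]
    field_simp
    ring
  exact le_of_mul_le_mul_left h9 (by positivity)

/-- The integral inequality on the closed disc of radius `1 - δ` together with a window. -/
theorem integral_balance2 {f g : ℂ → ℂ} {p δ : ℝ} (hp : 1 ≤ p) (hδ0 : 0 < δ) (hδ : δ ≤ 1 / 2)
    (hh : 14400 ≤ (p - 1) * δ ^ 2)
    (hf : DifferentiableOn ℂ f (ball 0 1)) (hg : DifferentiableOn ℂ g (ball 0 1))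
    (hfg : ∀ z : ℂ, 1 - δ < ‖z‖ → ‖z‖ < 1 → ‖f z‖ ≤ ‖g z‖)
    (hne : ∀ z ∈ ball (0:ℂ) 1, ∀ᶠ x in 𝓝[≠] z, g x ≠ 0)
    {b : ℂ} (hb : ‖b‖ ≤ 1 - δ) (hgb : g b = 0) :
    0 ≤ (∫ z in closedBall (0:ℂ) (1 - δ), (‖g z‖ ^ p - ‖f z‖ ^ p)) +
      ∫ z in {z : ℂ | 1 - 2 * δ / 3 < ‖z‖ ∧ ‖z‖ < 1 - δ / 3}, (‖g z‖ ^ p - ‖f z‖ ^ p) := by
  set H : ℂ → ℝ := fun x => ‖g x‖ ^ p - ‖f x‖ ^ p with hH
  have hHcont : ContinuousOn H (ball 0 1) := by
    refine ContinuousOn.sub ?_ ?_
    · exact hg.continuousOn.norm.rpow_const (fun x _ => Or.inr (by linarith))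
    · exact hf.continuousOn.norm.rpow_const (fun x _ => Or.inr (by linarith))
  have hsub : {z : ℂ | ‖z‖ ∈ Icc (1 - 2 * δ / 3) (1 - δ / 3)} ⊆ ball 0 1 := by
    intro x hx
    have hx' : ‖x‖ ∈ Icc (1 - 2 * δ / 3) (1 - δ / 3) := hx
    simp only [mem_ball, dist_zero_right]
    linarith [hx'.2]
  have hle : (1 - 2 * δ / 3) ≤ (1 - δ / 3) := by linarith
  have hAcont : ContinuousOn (fun ρ : ℝ => Real.circleAverage H 0 ρ)
      (Icc (1 - 2 * δ / 3) (1 - δ / 3)) := by
    apply _root_.Real.ContinuousOn.circleAverage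
    · apply hHcont.mono
      intro x hx
      have hx' : ‖x - 0‖ ∈ Icc (1 - 2 * δ / 3) (1 - δ / 3) := hx
      rw [sub_zero] at hx'
      exact hsub hx'
    · intro r hr; linarith [hr.1]
  have hAnn : ∀ ρ ∈ Icc (1 - 2 * δ / 3) (1 - δ / 3), 0 ≤ Real.circleAverage H 0 ρ := by
    intro r hr
    apply Real.circleAverage_nonneg_of_nonneg
    intro x hx
    rw [abs_of_pos (by linarith [hr.1])] at hx
    have hx' : ‖x‖ = r := by simpa using hx
    have : ‖f x‖ ^ p ≤ ‖g x‖ ^ p :=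
      Real.rpow_le_rpow (norm_nonneg _) (hfg x (by linarith [hr.1]) (by linarith [hr.2]))
        (by linarith)
    rw [hH]; simp only; linarith
  set S : ℝ := ∫ ρ in (1 - 2 * δ / 3)..(1 - δ / 3), Real.circleAverage H 0 ρ with hS
  have hSnn : 0 ≤ S := by
    rw [hS]
    exact intervalIntegral.integral_nonneg hle hAnn
  have hpi := Real.pi_pos
  -- the window
  rw [annulus_integral (by linarith) hle (hHcont.mono hsub)]
  have hwin : 4 / 3 * Real.pi * S ≤ ∫ ρ in (1 - 2 * δ / 3)..(1 - δ / 3),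
      2 * Real.pi * ρ * Real.circleAverage H 0 ρ := by
    rw [hS, ← intervalIntegral.integral_const_mul]
    apply intervalIntegral.integral_mono_on hle
    · apply ContinuousOn.intervalIntegrable
      rw [uIcc_of_le hle]
      exact continuousOn_const.mul hAcont
    · apply ContinuousOn.intervalIntegrable
      rw [uIcc_of_le hle]
      exact (continuousOn_const.mul continuousOn_id).mul hAcont
    · intro ρ hρ
      have h1 := hAnn ρ hρ
      have h2 : 2 / 3 ≤ ρ := by linarith [hρ.1]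
      have h3 : 4 / 3 * Real.pi ≤ 2 * Real.pi * ρ := by nlinarith
      exact mul_le_mul_of_nonneg_right h3 h1
  -- the inner disc in polar coordinates
  have hset : (closedBall (0:ℂ) (1 - δ) : Set ℂ) =ᵐ[volume] {z : ℂ | 0 < ‖z‖ ∧ ‖z‖ < 1 - δ} := by
    have hnull : volume (({0} : Set ℂ) ∪ sphere (0:ℂ) (1 - δ)) = 0 := by
      apply measure_union_null
      · simp
      · exact Measure.addHaar_sphere_of_ne_zero volume 0 (by linarith)
    have hae : ∀ᵐ z : ℂ, z ∉ ({0} : Set ℂ) ∪ sphere (0:ℂ) (1 - δ) :=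
      measure_eq_zero_iff_ae_notMem.mp hnull
    filter_upwards [hae] with z hz
    apply propext
    have hz0 : z ≠ 0 := fun h => hz (Or.inl h)
    have hz1 : ‖z‖ ≠ 1 - δ := fun h => hz (Or.inr (by simpa using h))
    show z ∈ closedBall (0:ℂ) (1 - δ) ↔ (0 < ‖z‖ ∧ ‖z‖ < 1 - δ)
    rw [mem_closedBall, dist_zero_right]
    constructor
    · intro h
      exact ⟨norm_pos_iff.mpr hz0, lt_of_le_of_ne h hz1⟩
    · intro h
      exact h.2.le
  have hc0 : (0:ℝ) ≤ 1 - δ := by linarith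
  have hsub0 : {z : ℂ | ‖z‖ ∈ Icc (0:ℝ) (1 - δ)} ⊆ ball 0 1 := by
    intro x hx
    have hx' : ‖x‖ ∈ Icc (0:ℝ) (1 - δ) := hx
    simp only [mem_ball, dist_zero_right]
    linarith [hx'.2]
  rw [setIntegral_congr_set hset, annulus_integral le_rfl hc0 (hHcont.mono hsub0)]
  have hAcont0 : ContinuousOn (fun ρ : ℝ => Real.circleAverage H 0 ρ) (Icc 0 (1 - δ)) := by
    apply _root_.Real.ContinuousOn.circleAverage
    · apply hHcont.mono
      intro x hx
      have hx' : ‖x - 0‖ ∈ Icc (0:ℝ) (1 - δ) := hx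
      rw [sub_zero] at hx'
      exact hsub0 hx'
    · intro r hr; exact hr.1
  have hin : -(Real.pi * S) ≤ ∫ ρ in (0:ℝ)..(1 - δ),
      2 * Real.pi * ρ * Real.circleAverage H 0 ρ := by
    have hcomp : ∫ ρ in (0:ℝ)..(1 - δ), (-(12 * Real.pi * S / δ)) *
        Real.exp (24 / δ * ρ + -(24 * (1 - 2 * δ / 3) / δ)) ≤
        ∫ ρ in (0:ℝ)..(1 - δ), 2 * Real.pi * ρ * Real.circleAverage H 0 ρ := by
      apply intervalIntegral.integral_mono_on hc0
      · apply Continuous.intervalIntegrable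
        fun_prop
      · apply ContinuousOn.intervalIntegrable
        rw [uIcc_of_le hc0]
        exact (continuousOn_const.mul continuousOn_id).mul hAcont0
      · intro ρ hρ
        have h1 := window_bound2 hp hδ0 hδ hh hf hg hfg hne hb hgb hρ.1 hρ.2
        rw [← hH, ← hS] at h1
        have h2 : Real.circleAverage (fun z => ‖f z‖ ^ p - ‖g z‖ ^ p) 0 ρ =
            -Real.circleAverage H 0 ρ := by
          have h3 := Real.circleAverage_fun_smul (a := (-1:ℝ)) (f := H) (c := (0:ℂ)) (R := ρ)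
          have h4 : (fun z : ℂ => ‖f z‖ ^ p - ‖g z‖ ^ p) = fun z => (-1:ℝ) • H z := by
            funext z; rw [hH, smul_eq_mul]; ring
          rw [h4, h3, smul_eq_mul]; ring
        rw [h2] at h1
        have h3 : -(24 * ((1 - 2 * δ / 3) - ρ) / δ) =
            24 / δ * ρ + -(24 * (1 - 2 * δ / 3) / δ) := by ring
        rw [h3] at h1
        set e : ℝ := Real.exp (24 / δ * ρ + -(24 * (1 - 2 * δ / 3) / δ)) with he
        have he0 : 0 < e := Real.exp_pos _
        have h4 : 2 * Real.pi * ρ * (-(6 / δ * e * S)) ≤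
            2 * Real.pi * ρ * Real.circleAverage H 0 ρ := by
          apply mul_le_mul_of_nonneg_left (by linarith)
          have := hρ.1
          positivity
        refine le_trans ?_ h4
        have h5 : 2 * Real.pi * ρ * (6 / δ * e * S) ≤ 2 * Real.pi * 1 * (6 / δ * e * S) := by
          have : ρ ≤ 1 := by linarith [hρ.2]
          gcongr
        have h6 : 2 * Real.pi * 1 * (6 / δ * e * S) = 12 * Real.pi * S / δ * e := by ring
        linarith
    refine le_trans ?_ hcomp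
    rw [intervalIntegral.integral_const_mul]
    have hexpint : ∫ ρ in (0:ℝ)..(1 - δ), Real.exp (24 / δ * ρ + -(24 * (1 - 2 * δ / 3) / δ)) =
        δ / 24 * (Real.exp (24 / δ * (1 - δ) + -(24 * (1 - 2 * δ / 3) / δ)) -
          Real.exp (24 / δ * 0 + -(24 * (1 - 2 * δ / 3) / δ))) := by
      have hne24 : 24 / δ ≠ 0 := by positivity
      rw [intervalIntegral.integral_comp_mul_add (f := Real.exp) hne24, integral_exp, smul_eq_mul]
      congr 1
      rw [inv_div]
    rw [hexpint]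
    have he1 : Real.exp (24 / δ * (1 - δ) + -(24 * (1 - 2 * δ / 3) / δ)) ≤ 1 := by
      apply Real.exp_le_one_iff.mpr
      have : 24 / δ * (1 - δ) + -(24 * (1 - 2 * δ / 3) / δ) = -8 := by
        field_simp; ring
      rw [this]; norm_num
    have he2 : 0 ≤ Real.exp (24 / δ * 0 + -(24 * (1 - 2 * δ / 3) / δ)) := (Real.exp_pos _).le
    have h7 : δ / 24 * (Real.exp (24 / δ * (1 - δ) + -(24 * (1 - 2 * δ / 3) / δ)) -
          Real.exp (24 / δ * 0 + -(24 * (1 - 2 * δ / 3) / δ))) ≤ δ / 24 * 1 := by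
      gcongr; linarith
    have h8 : 12 * Real.pi * S / δ * (δ / 24 * (Real.exp (24 / δ * (1 - δ) +
        -(24 * (1 - 2 * δ / 3) / δ)) - Real.exp (24 / δ * 0 + -(24 * (1 - 2 * δ / 3) / δ)))) ≤
        12 * Real.pi * S / δ * (δ / 24 * 1) := by
      gcongr
    have h9 : 12 * Real.pi * S / δ * (δ / 24 * 1) = Real.pi * S / 2 := by
      field_simp; ring
    have h10 : 0 ≤ Real.pi * S := by positivity
    linarith
  have h11 : 0 ≤ Real.pi * S := by positivity
  linarith

end Pool.Agent.MPccab6c
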