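import Mathlib
import Pool.Agent.Lib.MP_ccab6c_rate.PartB3

set_option autoImplicit false

/-! Large exponents: every radius `1 - δ` with `(p - 1) δ² ≥ 14400` is admissible. -/

open Complex Metric Set Filter Topology MeasureTheory

namespace Pool.Agent.MPccab6c

/-- Admissibility of `1 - δ`. -/
theorem admissible_of_large2 {p δ : ℝ} (hp : 1 ≤ p) (hδ0 : 0 < δ) (hδ : δ ≤ 1 / 2)
    (hh : 14400 ≤ (p - 1) * δ ^ 2) (f g : ℂ → ℂ)
    (hf : DifferentiableOn ℂ f (ball 0 1)) (hg : DifferentiableOn ℂ g (ball 0 1))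
    (hfg : ∀ z : ℂ, 1 - δ < ‖z‖ → ‖z‖ < 1 → ‖f z‖ ≤ ‖g z‖) :
    ∫⁻ z in ball (0:ℂ) 1, ‖f z‖ₑ ^ p ≤ ∫⁻ z in ball (0:ℂ) 1, ‖g z‖ₑ ^ p := by
  have hp0 : 0 ≤ p := by linarith
  rcases zero_or_isolated hg with hg0 | hne
  · -- `g` is zero, so `f` is zero
    have hf0 : ∀ z ∈ ball (0:ℂ) 1, f z = 0 := by
      rcases zero_or_isolated hf with h | h
      · exact h
      · exfalso
        have hx : (((1 - δ / 2 : ℝ)) : ℂ) ∈ ball (0:ℂ) 1 := by
          simp only [mem_ball, dist_zero_right, Complex.norm_real, Real.norm_eq_abs]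
          rw [abs_of_pos (by linarith)]; linarith
        have h1 := h _ hx
        have h2 : ∀ᶠ x in 𝓝 (((1 - δ / 2 : ℝ)) : ℂ), 1 - δ < ‖x‖ ∧ ‖x‖ < 1 := by
          have hopen : IsOpen {z : ℂ | 1 - δ < ‖z‖ ∧ ‖z‖ < 1} :=
            (isOpen_lt continuous_const continuous_norm).inter
              (isOpen_lt continuous_norm continuous_const)
          refine hopen.mem_nhds ?_
          show 1 - δ < ‖(((1 - δ / 2 : ℝ)) : ℂ)‖ ∧ ‖(((1 - δ / 2 : ℝ)) : ℂ)‖ < 1
          rw [Complex.norm_real, Real.norm_eq_abs, abs_of_pos (by linarith)]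
          constructor <;> linarith
        have h3 : ∀ᶠ x in 𝓝[≠] (((1 - δ / 2 : ℝ)) : ℂ), 1 - δ < ‖x‖ ∧ ‖x‖ < 1 :=
          nhdsWithin_le_nhds h2
        obtain ⟨x, hx1, hx2⟩ := (h1.and h3).exists
        apply hx1
        have h4 := hfg x hx2.1 hx2.2
        rw [hg0 x (by simpa using hx2.2), norm_zero] at h4
        exact norm_le_zero_iff.mp h4
    refine lintegral_mono_ae ?_
    filter_upwards [ae_restrict_mem measurableSet_ball] with z hz
    rw [hf0 z hz, hg0 z hz]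
  by_cases hb : ∃ b : ℂ, ‖b‖ ≤ 1 - δ ∧ g b = 0
  · obtain ⟨b, hb1, hb2⟩ := hb
    have hbal := integral_balance2 hp hδ0 hδ hh hf hg hfg hne hb1 hb2
    set K : Set ℂ := closedBall (0:ℂ) (1 - δ / 3) with hK
    set A : Set ℂ := closedBall (0:ℂ) (1 - δ) with hA
    set B : Set ℂ := {z : ℂ | 1 - 2 * δ / 3 < ‖z‖ ∧ ‖z‖ < 1 - δ / 3} with hB
    have hKc : IsCompact K := isCompact_closedBall _ _
    have hK1 : K ⊆ ball (0:ℂ) 1 := closedBall_subset_ball (by linarith)
    have hAK : A ⊆ K := closedBall_subset_closedBall (by linarith)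
    have hBK : B ⊆ K := by
      intro x hx
      have hx' : 1 - 2 * δ / 3 < ‖x‖ ∧ ‖x‖ < 1 - δ / 3 := hx
      simp only [hK, mem_closedBall, dist_zero_right]; linarith [hx'.2]
    have hAm : MeasurableSet A := measurableSet_closedBall
    have hBm : MeasurableSet B := by
      have : IsOpen B := (isOpen_lt continuous_const continuous_norm).inter
        (isOpen_lt continuous_norm continuous_const)
      exact this.measurableSet
    have hdisj : Disjoint A B := by
      rw [Set.disjoint_left]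
      intro x hx1 hx2
      have h1 : ‖x‖ ≤ 1 - δ := by simpa [hA] using hx1
      have h2 : 1 - 2 * δ / 3 < ‖x‖ ∧ ‖x‖ < 1 - δ / 3 := hx2
      linarith [h2.1]
    have hABsub : A ∪ B ⊆ ball (0:ℂ) 1 := union_subset (hAK.trans hK1) (hBK.trans hK1)
    have hsplit : ∀ F : ℂ → ENNReal, ∫⁻ z in ball (0:ℂ) 1, F z =
        (∫⁻ z in A, F z) + (∫⁻ z in B, F z) + ∫⁻ z in ball (0:ℂ) 1 \ (A ∪ B), F z := by
      intro F
      rw [← lintegral_union hBm hdisj,
        ← lintegral_union (measurableSet_ball.diff (hAm.union hBm)) disjoint_sdiff_right,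
        union_sdiff_cancel hABsub]
    rw [hsplit, hsplit]
    obtain ⟨hfA, hfA2⟩ := lintegral_eq_ofReal hp0 hAK hKc (hf.continuousOn.mono hK1)
    obtain ⟨hfB, hfB2⟩ := lintegral_eq_ofReal hp0 hBK hKc (hf.continuousOn.mono hK1)
    obtain ⟨hgA, hgA2⟩ := lintegral_eq_ofReal hp0 hAK hKc (hg.continuousOn.mono hK1)
    obtain ⟨hgB, hgB2⟩ := lintegral_eq_ofReal hp0 hBK hKc (hg.continuousOn.mono hK1)
    rw [hfA2, hfB2, hgA2, hgB2]
    have hnn : ∀ (F : ℂ → ℂ) (S : Set ℂ), 0 ≤ ∫ z in S, ‖F z‖ ^ p := fun F S =>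
      integral_nonneg fun z => Real.rpow_nonneg (norm_nonneg _) _
    rw [← ENNReal.ofReal_add (hnn f A) (hnn f B), ← ENNReal.ofReal_add (hnn g A) (hnn g B)]
    rw [integral_sub hgA hfA, integral_sub hgB hfB] at hbal
    refine add_le_add (ENNReal.ofReal_le_ofReal (by linarith)) ?_
    refine lintegral_mono_ae ?_
    filter_upwards [ae_restrict_mem (measurableSet_ball.diff (hAm.union hBm))] with z hz
    have hz1 : ‖z‖ < 1 := by simpa using hz.1
    have hz2 : 1 - δ < ‖z‖ := by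
      by_contra hcon
      push Not at hcon
      exact hz.2 (Or.inl (by simpa [hA] using hcon))
    have h5 : ‖f z‖ₑ ≤ ‖g z‖ₑ := by
      rw [← ofReal_norm_eq_enorm, ← ofReal_norm_eq_enorm]
      exact ENNReal.ofReal_le_ofReal (hfg z hz2 hz1)
    exact ENNReal.rpow_le_rpow h5 hp0
  · push Not at hb
    refine lintegral_mono_ae ?_
    filter_upwards [ae_restrict_mem measurableSet_ball] with z hz
    have hz1 : ‖z‖ < 1 := by simpa using hz
    have h5 : ‖f z‖ ≤ ‖g z‖ := by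
      rcases le_or_gt ‖z‖ (1 - δ) with h6 | h6
      · exact le_of_no_zero (by linarith) (by linarith) hf hg hfg (fun x hx => hb x hx) h6
      · exact hfg z h6 hz1
    have h7 : ‖f z‖ₑ ≤ ‖g z‖ₑ := by
      rw [← ofReal_norm_eq_enorm, ← ofReal_norm_eq_enorm]
      exact ENNReal.ofReal_le_ofReal h5
    exact ENNReal.rpow_le_rpow h7 hp0

end Pool.Agent.MPccab6c
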