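import Mathlib
import Pool.Agent.Lib.MP_ccab6c_rate.PartB2
import Pool.Agent.Lib.MP_ccab6c_rate.ExC

set_option autoImplicit false

/-!
The optimal constant `c(p)` of the maximum principle of Korenblum in the Bergman space `A^p`:
for large `p` the gap `1 - c(p)` lies between `1 / (300 √p)` and `320 √(log p / p)`, so that
`log (1 - c(p)) / log p` tends to `-1/2`.
-/

open Complex Metric Set Filter Topology MeasureTheory

namespace Pool.Agent.Results.MP_ccab6c_an.SharpExponent

/-- The number `c(p)`: the supremum of the admissible radii `r` in `[0, 1)`. A radius is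
admissible when `|f| ≤ |g|` on `r < |z| < 1` implies `∫ |f| ^ p ≤ ∫ |g| ^ p` over the unit disc,
for all holomorphic `f` and `g` on the unit disc. -/
noncomputable def cConst (p : ℝ) : ℝ :=
  sSup {r : ℝ | 0 ≤ r ∧ r < 1 ∧
    ∀ f g : ℂ → ℂ, DifferentiableOn ℂ f (Metric.ball 0 1) →
      DifferentiableOn ℂ g (Metric.ball 0 1) →
      (∀ z : ℂ, r < ‖z‖ → ‖z‖ < 1 → ‖f z‖ ≤ ‖g z‖) →
      ∫⁻ z in Metric.ball (0:ℂ) 1, ‖f z‖ₑ ^ p ≤ ∫⁻ z in Metric.ball (0:ℂ) 1, ‖g z‖ₑ ^ p}

theorem bddAbove_adm (p : ℝ) : BddAbove {r : ℝ | 0 ≤ r ∧ r < 1 ∧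
    ∀ f g : ℂ → ℂ, DifferentiableOn ℂ f (Metric.ball 0 1) →
      DifferentiableOn ℂ g (Metric.ball 0 1) →
      (∀ z : ℂ, r < ‖z‖ → ‖z‖ < 1 → ‖f z‖ ≤ ‖g z‖) →
      ∫⁻ z in Metric.ball (0:ℂ) 1, ‖f z‖ₑ ^ p ≤ ∫⁻ z in Metric.ball (0:ℂ) 1, ‖g z‖ₑ ^ p} :=
  ⟨1, fun _ hr => hr.2.1.le⟩

/-- Elementary bound of the logarithm. -/
theorem log_bound {p : ℝ} (hp : 10 ^ 7 ≤ p) : 200000 * Real.log p ≤ p - 1 := by
  have hp0 : 0 < p := by linarith
  -- `log p = log (p / 10 ^ 7) + 7 log 10 ≤ p / 10 ^ 7 - 1 + 17`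
  have h1 : Real.log p = Real.log (p / 10 ^ 7) + Real.log (10 ^ 7) := by
    rw [← Real.log_mul (by positivity) (by norm_num)]
    congr 1; field_simp
  have h2 : Real.log (p / 10 ^ 7) ≤ p / 10 ^ 7 - 1 := Real.log_le_sub_one_of_pos (by positivity)
  have h3 : Real.log (10 ^ 7 : ℝ) ≤ 17 := by
    rw [Real.log_le_iff_le_exp (by norm_num)]
    have h4 : (2.7182818283:ℝ) < Real.exp 1 := Real.exp_one_gt_d9
    have h5 : Real.exp 17 = Real.exp 1 ^ 17 := by
      rw [← Real.exp_nat_mul]; norm_num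
    rw [h5]
    calc (10:ℝ) ^ 7 ≤ 2.7182818283 ^ 17 := by norm_num
      _ ≤ Real.exp 1 ^ 17 := by gcongr
  have h6 : Real.log p ≤ p / 10 ^ 7 + 16 := by
    calc Real.log p = Real.log (p / 10 ^ 7) + Real.log (10 ^ 7) := h1
      _ ≤ (p / 10 ^ 7 - 1) + 17 := add_le_add h2 h3
      _ = p / 10 ^ 7 + 16 := by ring
  have h7 : 200000 * (p / 10 ^ 7 + 16) ≤ p - 1 := by
    have h8 : p / 10 ^ 7 = p * (1 / 10000000) := by norm_num; ring
    rw [h8]
    norm_num at hp
    linarith
  linarith

theorem upper {p : ℝ} (hp : 10 ^ 7 ≤ p) : 1 - cConst p ≤ 320 * √(Real.log p / p) := by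
  have hp0 : 0 < p := by linarith
  have hlog : 0 < Real.log p := Real.log_pos (by linarith)
  set δ : ℝ := √(50000 * Real.log p / (p - 1)) with hδ
  have hp1 : 0 < p - 1 := by linarith
  have hδsq : δ ^ 2 = 50000 * Real.log p / (p - 1) := Real.sq_sqrt (by positivity)
  have hδ0 : 0 < δ := Real.sqrt_pos.mpr (by positivity)
  have hδ1 : δ ≤ 1 / 2 := by
    have h1 : δ ^ 2 ≤ (1 / 2) ^ 2 := by
      rw [hδsq, div_le_iff₀ hp1]
      have := log_bound hp
      linarith
    exact le_of_sq_le_sq h1 (by norm_num)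
  have hh : 50000 * Real.log p ≤ (p - 1) * δ ^ 2 := by
    rw [hδsq]; apply le_of_eq; field_simp
  have hmem : 1 - δ ≤ cConst p := by
    apply le_csSup (bddAbove_adm p)
    refine ⟨by linarith, by linarith, ?_⟩
    intro f g hf hg hfg
    exact Pool.Agent.MPccab6c.admissible_of_large (by linarith) hδ0 hδ1 hh f g hf hg hfg
  have hδle : δ ≤ 320 * √(Real.log p / p) := by
    have h1 : δ ^ 2 ≤ (320 * √(Real.log p / p)) ^ 2 := by
      have h5 : √(Real.log p / p) ^ 2 = Real.log p / p := Real.sq_sqrt (by positivity)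
      rw [mul_pow, h5, hδsq, div_le_iff₀ hp1]
      have h2 : (320:ℝ) ^ 2 * (Real.log p / p) * (p - 1)
          = Real.log p * (102400 * ((p - 1) / p)) := by
        field_simp; norm_num
      rw [h2]
      have h3 : (1 / 2 : ℝ) ≤ (p - 1) / p := by
        rw [le_div_iff₀ hp0]; linarith
      nlinarith
    exact le_of_sq_le_sq h1 (by positivity)
  linarith

theorem lower {p : ℝ} (hp : 10 ^ 7 ≤ p) : 1 / (300 * √p) ≤ 1 - cConst p := by
  have hp0 : 0 < p := by linarith
  have hsp : 0 < √p := Real.sqrt_pos.mpr hp0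
  have hsp1 : 1000 ≤ √p := by
    rw [show (1000:ℝ) = √(1000 ^ 2) by rw [Real.sqrt_sq (by norm_num)]]
    apply Real.sqrt_le_sqrt
    linarith
  set δ : ℝ := 1 / (300 * √p) with hδ
  have hδ0 : 0 < δ := by positivity
  have hδ1 : δ ≤ 1 / 300000 := by
    rw [hδ]
    apply one_div_le_one_div_of_le (by norm_num)
    linarith
  have hpδ : p * δ ^ 2 ≤ 1 / 50000 := by
    have h1 : p * δ ^ 2 = 1 / 90000 := by
      have h2 : √p ^ 2 = p := Real.sq_sqrt hp0.le
      rw [hδ, div_pow, mul_pow, h2]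
      field_simp
      norm_num
    rw [h1]; norm_num
  have hle : cConst p ≤ 1 - δ := by
    apply csSup_le
    · refine ⟨1 - √(50000 * Real.log p / (p - 1)), ?_⟩
      have hlog : 0 < Real.log p := Real.log_pos (by linarith)
      have hp1 : 0 < p - 1 := by linarith
      set d : ℝ := √(50000 * Real.log p / (p - 1)) with hd
      have hdsq : d ^ 2 = 50000 * Real.log p / (p - 1) := Real.sq_sqrt (by positivity)
      have hd0 : 0 < d := Real.sqrt_pos.mpr (by positivity)
      have hd1 : d ≤ 1 / 2 := by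
        have h1 : d ^ 2 ≤ (1 / 2) ^ 2 := by
          rw [hdsq, div_le_iff₀ hp1]
          have := log_bound hp
          linarith
        exact le_of_sq_le_sq h1 (by norm_num)
      have hh : 50000 * Real.log p ≤ (p - 1) * d ^ 2 := by
        rw [hdsq]; apply le_of_eq; field_simp
      refine ⟨by linarith, by linarith, ?_⟩
      intro f g hf hg hfg
      exact Pool.Agent.MPccab6c.admissible_of_large (by linarith) hd0 hd1 hh f g hf hg hfg
    · intro r hr
      exact Pool.Agent.MPccab6c.admissible_le hp0 hδ0 hδ1 hpδ hr.2.2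
  linarith

theorem limit : Tendsto (fun p : ℝ => Real.log (1 - cConst p) / Real.log p) atTop (𝓝 (-1 / 2)) := by
  have hlogtop : Tendsto (fun p : ℝ => Real.log p) atTop atTop := Real.tendsto_log_atTop
  have hinv : Tendsto (fun p : ℝ => (Real.log p)⁻¹) atTop (𝓝 0) := hlogtop.inv_tendsto_atTop
  have hloglog : Tendsto (fun p : ℝ => Real.log (Real.log p) / Real.log p) atTop (𝓝 0) := by
    have h1 : Tendsto (fun x : ℝ => Real.log x / x) atTop (𝓝 0) := by
      have := Real.isLittleO_log_id_atTop.tendsto_div_nhds_zero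
      simpa using this
    exact h1.comp hlogtop
  have hlow : Tendsto (fun p : ℝ => -1 / 2 - Real.log 300 * (Real.log p)⁻¹) atTop (𝓝 (-1 / 2)) := by
    have := (hinv.const_mul (Real.log 300)).const_sub (-1 / 2)
    simpa using this
  have hupp : Tendsto (fun p : ℝ => -1 / 2 + Real.log 320 * (Real.log p)⁻¹ +
      1 / 2 * (Real.log (Real.log p) / Real.log p)) atTop (𝓝 (-1 / 2)) := by
    have := ((hinv.const_mul (Real.log 320)).const_add (-1 / 2)).add (hloglog.const_mul (1 / 2))
    simpa using this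
  refine tendsto_of_tendsto_of_tendsto_of_le_of_le' hlow hupp ?_ ?_
  · filter_upwards [eventually_ge_atTop (10 ^ 7 : ℝ)] with p hp
    have hp0 : 0 < p := by linarith
    have hlog : 0 < Real.log p := Real.log_pos (by linarith)
    have hsp : 0 < √p := Real.sqrt_pos.mpr hp0
    have h1 := lower hp
    have h2 : Real.log (1 / (300 * √p)) ≤ Real.log (1 - cConst p) :=
      Real.log_le_log (by positivity) h1
    have h3 : Real.log (1 / (300 * √p)) = -(Real.log 300) - 1 / 2 * Real.log p := by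
      rw [one_div, Real.log_inv, Real.log_mul (by norm_num) hsp.ne', Real.log_sqrt hp0.le]
      ring
    rw [le_div_iff₀ hlog]
    have h4 : (-1 / 2 - Real.log 300 * (Real.log p)⁻¹) * Real.log p
        = -(Real.log 300) - 1 / 2 * Real.log p := by
      field_simp
      ring
    rw [h4, ← h3]; exact h2
  · filter_upwards [eventually_ge_atTop (10 ^ 7 : ℝ)] with p hp
    have hp0 : 0 < p := by linarith
    have hlog : 0 < Real.log p := Real.log_pos (by linarith)
    have hsp : 0 < √p := Real.sqrt_pos.mpr hp0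
    have h0 : 0 < 1 - cConst p := lt_of_lt_of_le (by positivity) (lower hp)
    have h1 := upper hp
    have h2 : Real.log (1 - cConst p) ≤ Real.log (320 * √(Real.log p / p)) :=
      Real.log_le_log h0 h1
    have h3 : Real.log (320 * √(Real.log p / p)) = Real.log 320 +
        (Real.log (Real.log p) - Real.log p) / 2 := by
      rw [Real.log_mul (by norm_num) (by positivity), Real.log_sqrt (by positivity),
        Real.log_div hlog.ne' hp0.ne']
    rw [div_le_iff₀ hlog]
    have h4 : (-1 / 2 + Real.log 320 * (Real.log p)⁻¹ +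
      1 / 2 * (Real.log (Real.log p) / Real.log p)) * Real.log p
        = Real.log 320 + (Real.log (Real.log p) - Real.log p) / 2 := by
      field_simp
      ring
    rw [h4, ← h3]; exact h2

/-- For every `p ≥ 10 ^ 7` the constant `c(p)` of the maximum principle of Korenblum in the
Bergman space `A^p` satisfies `1 / (300 √p) ≤ 1 - c(p) ≤ 320 √(log p / p)`, and
`log (1 - c(p)) / log p` tends to `-1/2` as `p` tends to infinity. -/
theorem result :
    (∀ p : ℝ, 10 ^ 7 ≤ p →
      1 / (300 * √p) ≤ 1 - cConst p ∧ 1 - cConst p ≤ 320 * √(Real.log p / p)) ∧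
    Tendsto (fun p : ℝ => Real.log (1 - cConst p) / Real.log p) atTop (𝓝 (-1 / 2)) :=
  ⟨fun _ hp => ⟨lower hp, upper hp⟩, limit⟩

end Pool.Agent.Results.MP_ccab6c_an.SharpExponent
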