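import Mathlib
import Pool.Agent.Lib.MP_ccab6c_rate.Polar
import Pool.Agent.Lib.MP_ccab6c_rate.PartB2

set_option autoImplicit false

/-! A simple bound of the admissible radii, useful for bounded exponents. -/

open Complex Metric Set Filter Topology MeasureTheory

namespace Pool.Agent.MPccab6c

theorem vol_unit : volume (ball (0:ℂ) 1) = ENNReal.ofReal Real.pi := by
  rw [Complex.volume_ball, ENNReal.ofReal_one, one_pow, one_mul, ENNReal.ofReal,
    Real.toNNReal_of_nonneg Real.pi_pos.le]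
  rfl

/-- The integral of a power of the modulus over the unit disc. -/
theorem integral_pow_disc {p : ℝ} (hp : 0 ≤ p) :
    ∫ z in ball (0:ℂ) 1, ‖z‖ ^ p = 2 * Real.pi / (p + 2) := by
  have hset : (ball (0:ℂ) 1 : Set ℂ) =ᵐ[volume] {z : ℂ | 0 < ‖z‖ ∧ ‖z‖ < 1} := by
    have hae : ∀ᵐ z : ℂ, z ∉ ({0} : Set ℂ) := measure_eq_zero_iff_ae_notMem.mp (by simp)
    filter_upwards [hae] with z hz
    apply propext
    have hz0 : z ≠ 0 := fun h => hz h
    show z ∈ ball (0:ℂ) 1 ↔ (0 < ‖z‖ ∧ ‖z‖ < 1)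
    rw [mem_ball, dist_zero_right]
    exact ⟨fun h => ⟨norm_pos_iff.mpr hz0, h⟩, fun h => h.2⟩
  have hcont : Continuous (fun z : ℂ => ‖z‖ ^ p) :=
    continuous_norm.rpow_const (fun x => Or.inr hp)
  rw [setIntegral_congr_set hset, annulus_integral le_rfl zero_le_one hcont.continuousOn]
  have h1 : ∀ ρ ∈ uIcc (0:ℝ) 1, 2 * Real.pi * ρ * Real.circleAverage (fun z : ℂ => ‖z‖ ^ p) 0 ρ =
      2 * Real.pi * ρ ^ (p + 1) := by
    intro ρ hρ
    rw [uIcc_of_le zero_le_one] at hρ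
    have h2 : Real.circleAverage (fun z : ℂ => ‖z‖ ^ p) 0 ρ = ρ ^ p := by
      apply Real.circleAverage_const_on_circle
      intro x hx
      rw [abs_of_nonneg hρ.1] at hx
      have : ‖x‖ = ρ := by simpa using hx
      rw [this]
    rw [h2]
    rcases eq_or_lt_of_le hρ.1 with h0 | h0
    · rw [← h0, Real.zero_rpow (show p + 1 ≠ 0 by linarith)]; simp
    · rw [Real.rpow_add_one h0.ne']; ring
  rw [intervalIntegral.integral_congr h1, intervalIntegral.integral_const_mul,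
    integral_rpow (Or.inl (by linarith))]
  rw [Real.one_rpow, Real.zero_rpow (by linarith)]
  have : p + 1 + 1 = p + 2 := by ring
  rw [this, sub_zero]
  ring

/-- Comparison of a constant with the coordinate function. -/
theorem admissible_simple {p r : ℝ} (hp : 0 ≤ p) (hr0 : 0 ≤ r)
    (h : ∀ f g : ℂ → ℂ, DifferentiableOn ℂ f (Metric.ball 0 1) →
      DifferentiableOn ℂ g (Metric.ball 0 1) →
      (∀ z : ℂ, r < ‖z‖ → ‖z‖ < 1 → ‖f z‖ ≤ ‖g z‖) →
      ∫⁻ z in Metric.ball (0:ℂ) 1, ‖f z‖ₑ ^ p ≤ ∫⁻ z in Metric.ball (0:ℂ) 1, ‖g z‖ₑ ^ p) :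
    r ^ p ≤ 2 / (p + 2) := by
  have hpi := Real.pi_pos
  have h1 := h (fun _ => (r:ℂ)) (fun z => z) (differentiableOn_const _) differentiableOn_id (by
    intro z hz _
    rw [Complex.norm_real, Real.norm_eq_abs, abs_of_nonneg hr0]
    exact hz.le)
  have h2 := (lintegral_eq_ofReal (f := fun z : ℂ => z) hp ball_subset_closedBall
    (isCompact_closedBall (0:ℂ) 1) continuousOn_id).2
  rw [h2, setLIntegral_const, enorm_rpow_eq hp, Complex.norm_real, Real.norm_eq_abs,
    abs_of_nonneg hr0, vol_unit, ← ENNReal.ofReal_mul (by positivity), integral_pow_disc hp,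
    ENNReal.ofReal_le_ofReal_iff (by positivity)] at h1
  have h3 : r ^ p * Real.pi ≤ 2 / (p + 2) * Real.pi := by
    refine h1.trans (le_of_eq ?_); ring
  exact le_of_mul_le_mul_right h3 hpi

/-- The resulting gap. -/
theorem gap_simple {p r : ℝ} (hp : 1 ≤ p) (hp2 : √p ≤ 1000)
    (h : r ^ p ≤ 2 / (p + 2)) : 1 / (300 * √p) ≤ 1 - r := by
  have hp0 : 0 < p := by linarith
  have hsp : 1 ≤ √p := by
    rw [show (1:ℝ) = √1 by simp]
    exact Real.sqrt_le_sqrt hp
  have hsq : √p ^ 2 = p := Real.sq_sqrt hp0.le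
  set ε : ℝ := 1 / (300 * √p) with hε
  have hε0 : 0 < ε := by positivity
  have hε1 : ε ≤ 1 / 300 := by
    rw [hε]
    apply one_div_le_one_div_of_le (by norm_num); linarith
  by_contra hcon
  push Not at hcon
  have h1 : 1 - ε < r := by linarith
  have h2 : 0 < 1 - ε := by linarith
  have h3 : (1 - ε) ^ p < r ^ p := Real.rpow_lt_rpow h2.le h1 hp0
  -- the logarithm
  set L : ℝ := Real.log ((p + 2) / 2) with hL
  have hlog : -(ε / (1 - ε)) ≤ Real.log (1 - ε) := by
    have := Real.one_sub_inv_le_log_of_pos h2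
    have h4 : 1 - (1 - ε)⁻¹ = -(ε / (1 - ε)) := by field_simp; ring
    linarith
  have hpε : p * (ε / (1 - ε)) ≤ √p / 299 := by
    have h4 : p * ε = √p / 300 := by
      rw [hε]; nth_rewrite 1 [← hsq]; field_simp
    rw [← mul_div_assoc, h4, div_le_div_iff₀ h2 (by norm_num)]
    nlinarith
  have hLge : √p / 299 ≤ L := by
    rcases le_total p 900 with h5 | h5
    · have h6 : √p ≤ 30 := by
        have h7 : √p ^ 2 ≤ 30 ^ 2 := by rw [hsq]; linarith
        exact le_of_sq_le_sq h7 (by norm_num)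
      have h8 : Real.log (3 / 2) ≤ L := by
        rw [hL]; apply Real.log_le_log (by norm_num); linarith
      have h9 := Real.one_sub_inv_le_log_of_pos (show (0:ℝ) < 3 / 2 by norm_num)
      have h10 : (1:ℝ) - (3 / 2)⁻¹ = 1 / 3 := by norm_num
      linarith
    · have h8 : 6 ≤ L := by
        rw [hL, Real.le_log_iff_exp_le (by positivity)]
        have h9 : Real.exp 1 ≤ 2.7182818286 := Real.exp_one_lt_d9.le
        have h10 : Real.exp 6 = Real.exp 1 ^ 6 := by
          rw [← Real.exp_nat_mul]; norm_num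
        rw [h10]
        calc Real.exp 1 ^ 6 ≤ (2.7182818286:ℝ) ^ 6 := by gcongr
          _ ≤ 451 := by norm_num
          _ ≤ (p + 2) / 2 := by linarith
      linarith
  have h11 : 2 / (p + 2) ≤ (1 - ε) ^ p := by
    rw [Real.rpow_def_of_pos h2]
    have h12 : 2 / (p + 2) = Real.exp (-L) := by
      rw [Real.exp_neg, hL, Real.exp_log (by positivity), inv_div]
    rw [h12]
    apply Real.exp_le_exp.mpr
    have h13 : p * (-(ε / (1 - ε))) ≤ p * Real.log (1 - ε) := by gcongr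
    linarith
  linarith

/-- The radius zero is admissible. -/
theorem zero_adm (p : ℝ) (hp : 0 ≤ p) : ∀ f g : ℂ → ℂ, DifferentiableOn ℂ f (Metric.ball 0 1) →
      DifferentiableOn ℂ g (Metric.ball 0 1) →
      (∀ z : ℂ, 0 < ‖z‖ → ‖z‖ < 1 → ‖f z‖ ≤ ‖g z‖) →
      ∫⁻ z in Metric.ball (0:ℂ) 1, ‖f z‖ₑ ^ p ≤ ∫⁻ z in Metric.ball (0:ℂ) 1, ‖g z‖ₑ ^ p := by
  intro f g _ _ hfg
  refine lintegral_mono_ae ?_
  have h0 : ∀ᵐ z : ℂ, z ∉ ({0} : Set ℂ) := measure_eq_zero_iff_ae_notMem.mp (by simp)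
  filter_upwards [ae_restrict_mem measurableSet_ball, ae_restrict_of_ae h0] with z hz hz0
  have hz1 : ‖z‖ < 1 := by simpa using hz
  have hz2 : 0 < ‖z‖ := norm_pos_iff.mpr (by simpa using hz0)
  have h5 : ‖f z‖ₑ ≤ ‖g z‖ₑ := by
    rw [← ofReal_norm, ← ofReal_norm]
    exact ENNReal.ofReal_le_ofReal (hfg z hz2 hz1)
  exact ENNReal.rpow_le_rpow h5 hp

end Pool.Agent.MPccab6c
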